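import Mathlib

/-!
# SAWP, case U: arithmetic lemma (module U11; paper section 2)

`a_k ≥ 0`, `∑_{k=j₀}^{7j₀} a_k ≤ 1/16`.  For `j₀ ≤ j ≤ 7j₀` let `i_j ≤ j - j₀` be maximal with
`∑_{k=j-i_j}^{j} 16^{j-k} a_k ≤ 1` (`i=0` is allowed since `a_j ≤ 1/16`).  Then `∑_j 16^{-i_j} ≤ 4`.

Proof. The `j` with `i_j = j - j₀` contribute `≤ ∑_L 16^{-L} = 16/15`.  For the others put `m_j = j - i_j - 1 ≥ j₀`; by maximality
`∑_{k=m_j}^{j} 16^{j-k} a_k > 1`.  For fixed `m` let `J_m = {j : m_j = m}` and `J = min J_m`: `j > m` for `j ∈ J_m` and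
`∑_{j∈J_m} 16^{-i_j} = 16 ∑_{j∈J_m} 16^{-(j-m)} ≤ 16·(16/15)·16^{-(J-m)}`, and `16^{-(J-m)} < ∑_{k=m}^{J} 16^{-(k-m)} a_k
≤ ∑_{k=m}^{7j₀} 16^{-(k-m)} a_k`.  Summing over `m ∈ [j₀,7j₀]` and exchanging: `≤ 16 (16/15)(16/15)(1/16)`.
Total `16/15 + 256/225 ≤ 4`.
-/

set_option autoImplicit false

namespace Pool.Agent.SAWP

private lemma geo_tail (S : Finset ℕ) (B : ℝ) (hB : 0 ≤ B) (h : ∀ j ∈ S, (16 : ℝ)⁻¹ ^ j ≤ B) :
    ∑ j ∈ S, (16 : ℝ)⁻¹ ^ j ≤ 16 / 15 * B := by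
  rcases S.eq_empty_or_nonempty with rfl | hne
  · simp only [Finset.sum_empty]; positivity
  · set J := S.min' hne with hJ
    set N := S.max' hne with hN
    have hsub : S ⊆ Finset.Ico J (N + 1) := by
      intro j hj
      rw [Finset.mem_Ico]
      exact ⟨S.min'_le j hj, Nat.lt_succ_of_le (S.le_max' j hj)⟩
    have h1 : ∑ j ∈ S, (16 : ℝ)⁻¹ ^ j ≤ ∑ j ∈ Finset.Ico J (N + 1), (16 : ℝ)⁻¹ ^ j :=
      Finset.sum_le_sum_of_subset_of_nonneg hsub fun _ _ _ => by positivity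
    have h2 : ∑ j ∈ Finset.Ico J (N + 1), (16 : ℝ)⁻¹ ^ j ≤ 16 / 15 * (16 : ℝ)⁻¹ ^ J := by
      have hJN : J ≤ N + 1 := by
        have := S.min'_le _ (S.max'_mem hne)
        omega
      rw [geom_sum_Ico (by norm_num) hJN]
      have h3 : (0 : ℝ) ≤ (16 : ℝ)⁻¹ ^ (N + 1) := by positivity
      have h4 : ((16 : ℝ)⁻¹ ^ (N + 1) - (16 : ℝ)⁻¹ ^ J) / ((16 : ℝ)⁻¹ - 1)
          = 16 / 15 * ((16 : ℝ)⁻¹ ^ J - (16 : ℝ)⁻¹ ^ (N + 1)) := by
        field_simp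
        ring
      rw [h4]
      linarith
    have h5 := h J (S.min'_mem hne)
    linarith

theorem arith_lemma (j₀ : ℕ) (a : ℕ → ℝ) (ha : ∀ k, 0 ≤ a k)
    (hs : ∑ k ∈ Finset.Icc j₀ (7 * j₀), a k ≤ 1 / 16) :
    ∃ i : ℕ → ℕ, (∀ j, j₀ ≤ j → j ≤ 7 * j₀ → i j ≤ j - j₀ ∧
        ∑ k ∈ Finset.Icc (j - i j) j, (16 : ℝ) ^ (j - k) * a k ≤ 1) ∧
      ∑ j ∈ Finset.Icc j₀ (7 * j₀), (16 : ℝ)⁻¹ ^ (i j) ≤ 4 := by
  classical
  let P : ℕ → ℕ → Prop := fun j i => ∑ k ∈ Finset.Icc (j - i) j, (16 : ℝ) ^ (j - k) * a k ≤ 1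
  let i : ℕ → ℕ := fun j => Nat.findGreatest (P j) (j - j₀)
  have hP0 : ∀ j, j₀ ≤ j → j ≤ 7 * j₀ → P j 0 := by
    intro j h1 h2
    have h3 : a j ≤ ∑ k ∈ Finset.Icc j₀ (7 * j₀), a k :=
      Finset.single_le_sum (f := a) (fun k _ => ha k) (Finset.mem_Icc.2 ⟨h1, h2⟩)
    show ∑ k ∈ Finset.Icc (j - 0) j, (16 : ℝ) ^ (j - k) * a k ≤ 1
    simp only [Nat.sub_zero, Finset.Icc_self, Finset.sum_singleton, Nat.sub_self, pow_zero, one_mul]
    linarith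
  have hle : ∀ j, i j ≤ j - j₀ := fun j => Nat.findGreatest_le _
  have hPi : ∀ j, j₀ ≤ j → j ≤ 7 * j₀ → P j (i j) := by
    intro j h1 h2
    exact Nat.findGreatest_spec (P := P j) (Nat.zero_le (j - j₀)) (hP0 j h1 h2)
  have hmax : ∀ j, i j < j - j₀ → ¬ P j (i j + 1) := by
    intro j h1
    exact Nat.findGreatest_is_greatest (P := P j) (Nat.lt_succ_self _) (by omega)
  refine ⟨i, fun j h1 h2 => ⟨hle j, hPi j h1 h2⟩, ?_⟩
  set B : ℕ → ℝ := fun m => ∑ k ∈ Finset.Icc m (7 * j₀), (16 : ℝ)⁻¹ ^ (k - m) * a k with hB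
  have hB0 : ∀ m, 0 ≤ B m := fun m => Finset.sum_nonneg fun k _ => mul_nonneg (by positivity) (ha k)
  -- classification
  set R : Finset ℕ := Finset.Icc j₀ (7 * j₀) with hR
  have hterm : ∀ j ∈ R, (16 : ℝ)⁻¹ ^ (i j) ≤ (16 : ℝ)⁻¹ ^ (j - j₀) +
      ∑ m ∈ R, if (m < j ∧ i j + 1 = j - m) then 16 * (16 : ℝ)⁻¹ ^ (j - m) else 0 := by
    intro j hj
    have hj' := Finset.mem_Icc.1 hj
    rcases (hle j).eq_or_lt with h | h
    · rw [h]
      have : 0 ≤ ∑ m ∈ R, if (m < j ∧ j - j₀ + 1 = j - m) then 16 * (16 : ℝ)⁻¹ ^ (j - m) else 0 :=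
        Finset.sum_nonneg fun m _ => by split_ifs <;> positivity
      linarith
    · have hm : j - i j - 1 ∈ R := by
        rw [hR, Finset.mem_Icc]
        omega
      have h1 : (if (j - i j - 1 < j ∧ i j + 1 = j - (j - i j - 1)) then
          16 * (16 : ℝ)⁻¹ ^ (j - (j - i j - 1)) else 0) ≤
          ∑ m ∈ R, if (m < j ∧ i j + 1 = j - m) then 16 * (16 : ℝ)⁻¹ ^ (j - m) else 0 :=
        Finset.single_le_sum (f := fun m => if (m < j ∧ i j + 1 = j - m) then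
          16 * (16 : ℝ)⁻¹ ^ (j - m) else 0) (fun m _ => by split_ifs <;> positivity) hm
      have h2 : j - (j - i j - 1) = i j + 1 := by omega
      have h3 : j - i j - 1 < j := by omega
      rw [if_pos ⟨h3, h2.symm⟩, h2, pow_succ] at h1
      have h4 : (0 : ℝ) ≤ (16 : ℝ)⁻¹ ^ (j - j₀) := by positivity
      have h5 : 16 * ((16 : ℝ)⁻¹ ^ i j * (16 : ℝ)⁻¹) = (16 : ℝ)⁻¹ ^ i j := by ring
      rw [h5] at h1
      linarith
  have hsum1 : ∑ j ∈ R, (16 : ℝ)⁻¹ ^ (j - j₀) ≤ 16 / 15 := by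
    have h1 : ∑ j ∈ R, (16 : ℝ)⁻¹ ^ (j - j₀) = ∑ l ∈ R.image (fun j => j - j₀), (16 : ℝ)⁻¹ ^ l := by
      rw [Finset.sum_image]
      intro x hx y hy hxy
      have hx' := Finset.mem_Icc.1 (Finset.mem_coe.1 hx)
      have hy' := Finset.mem_Icc.1 (Finset.mem_coe.1 hy)
      dsimp only at hxy
      omega
    rw [h1]
    have h2 := geo_tail (R.image (fun j => j - j₀)) 1 (by norm_num)
      (fun j _ => pow_le_one₀ (by norm_num) (by norm_num))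
    linarith
  have hm2 : ∀ m ∈ R, ∑ j ∈ R, (if (m < j ∧ i j + 1 = j - m) then 16 * (16 : ℝ)⁻¹ ^ (j - m) else 0) ≤
      16 * (16 / 15 * B m) := by
    intro m hm
    have hm' := Finset.mem_Icc.1 hm
    rw [← Finset.sum_filter, ← Finset.mul_sum]
    refine mul_le_mul_of_nonneg_left ?_ (by norm_num)
    set S := R.filter (fun j => m < j ∧ i j + 1 = j - m) with hS
    have h1 : ∑ j ∈ S, (16 : ℝ)⁻¹ ^ (j - m) = ∑ l ∈ S.image (fun j => j - m), (16 : ℝ)⁻¹ ^ l := by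
      rw [Finset.sum_image]
      intro x hx y hy hxy
      have hx' := (Finset.mem_filter.1 (Finset.mem_coe.1 hx)).2
      have hy' := (Finset.mem_filter.1 (Finset.mem_coe.1 hy)).2
      dsimp only at hxy
      omega
    rw [h1]
    refine geo_tail _ _ (hB0 m) ?_
    intro l hl
    obtain ⟨j, hj, rfl⟩ := Finset.mem_image.1 hl
    obtain ⟨hjR, hmj, hij⟩ := Finset.mem_filter.1 hj
    have hjR' := Finset.mem_Icc.1 hjR
    have hlt : i j < j - j₀ := by omega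
    have hnP := hmax j hlt
    have hnP' : 1 < ∑ k ∈ Finset.Icc (j - (i j + 1)) j, (16 : ℝ) ^ (j - k) * a k := by
      simpa only [P, not_le] using hnP
    have h6 : j - (i j + 1) = m := by omega
    rw [h6] at hnP'
    have h7 : (16 : ℝ)⁻¹ ^ (j - m) * ∑ k ∈ Finset.Icc m j, (16 : ℝ) ^ (j - k) * a k =
        ∑ k ∈ Finset.Icc m j, (16 : ℝ)⁻¹ ^ (k - m) * a k := by
      rw [Finset.mul_sum]
      refine Finset.sum_congr rfl fun k hk => ?_
      have hk' := Finset.mem_Icc.1 hk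
      have h8 : j - m = (k - m) + (j - k) := by omega
      rw [h8, pow_add, inv_pow (16 : ℝ) (j - k)]
      have h9 : (16 : ℝ) ^ (j - k) ≠ 0 := by positivity
      field_simp
    have h10 : ∑ k ∈ Finset.Icc m j, (16 : ℝ)⁻¹ ^ (k - m) * a k ≤ B m := by
      refine Finset.sum_le_sum_of_subset_of_nonneg (Finset.Icc_subset_Icc_right hjR'.2) ?_
      intro k _ _
      exact mul_nonneg (by positivity) (ha k)
    have h11 : (0 : ℝ) < (16 : ℝ)⁻¹ ^ (j - m) := by positivity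
    have h12 := mul_lt_mul_of_pos_left hnP' h11
    rw [h7, mul_one] at h12
    linarith
  have hBsum : ∑ m ∈ R, B m ≤ 16 / 15 * (1 / 16) := by
    have h1 : ∀ m ∈ R, B m = ∑ k ∈ R, if m ≤ k then (16 : ℝ)⁻¹ ^ (k - m) * a k else 0 := by
      intro m hm
      have hm' := Finset.mem_Icc.1 hm
      rw [← Finset.sum_filter]
      refine Finset.sum_congr ?_ fun _ _ => rfl
      ext k
      simp only [hR, Finset.mem_Icc, Finset.mem_filter]
      omega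
    rw [Finset.sum_congr rfl h1, Finset.sum_comm]
    have h2 : ∀ k ∈ R, (∑ m ∈ R, if m ≤ k then (16 : ℝ)⁻¹ ^ (k - m) * a k else 0) ≤ 16 / 15 * a k := by
      intro k hk
      rw [← Finset.sum_filter, ← Finset.sum_mul]
      refine mul_le_mul_of_nonneg_right ?_ (ha k)
      set S := R.filter (fun m => m ≤ k)
      have h3 : ∑ m ∈ S, (16 : ℝ)⁻¹ ^ (k - m) = ∑ l ∈ S.image (fun m => k - m), (16 : ℝ)⁻¹ ^ l := by
        rw [Finset.sum_image]
        intro x hx y hy hxy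
        have hx' := (Finset.mem_filter.1 (Finset.mem_coe.1 hx)).2
        have hy' := (Finset.mem_filter.1 (Finset.mem_coe.1 hy)).2
        dsimp only at hxy
        omega
      rw [h3]
      have h4 := geo_tail (S.image (fun m => k - m)) 1 (by norm_num)
        (fun j _ => pow_le_one₀ (by norm_num) (by norm_num))
      linarith
    refine (Finset.sum_le_sum h2).trans ?_
    rw [← Finset.mul_sum]
    linarith
  calc ∑ j ∈ R, (16 : ℝ)⁻¹ ^ (i j)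
      ≤ ∑ j ∈ R, ((16 : ℝ)⁻¹ ^ (j - j₀) +
        ∑ m ∈ R, if (m < j ∧ i j + 1 = j - m) then 16 * (16 : ℝ)⁻¹ ^ (j - m) else 0) :=
        Finset.sum_le_sum hterm
    _ = ∑ j ∈ R, (16 : ℝ)⁻¹ ^ (j - j₀) + ∑ m ∈ R, ∑ j ∈ R,
        (if (m < j ∧ i j + 1 = j - m) then 16 * (16 : ℝ)⁻¹ ^ (j - m) else 0) := by
        rw [Finset.sum_add_distrib, Finset.sum_comm (s := R) (t := R)
          (f := fun j m => if (m < j ∧ i j + 1 = j - m) then 16 * (16 : ℝ)⁻¹ ^ (j - m) else 0)]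
    _ ≤ 16 / 15 + ∑ m ∈ R, 16 * (16 / 15 * B m) := add_le_add hsum1 (Finset.sum_le_sum hm2)
    _ = 16 / 15 + 16 * (16 / 15 * ∑ m ∈ R, B m) := by rw [Finset.mul_sum, Finset.mul_sum]
    _ ≤ 4 := by linarith

end Pool.Agent.SAWP
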