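import Pool.Agent.SAWP.U.MeshLemma

/-!
# SAWP, case U: conclusion for self-avoiding walks (module U14; paper 3.6)

Hypothesis: for all `j ≥ j₀` and rectangles `Q` of size `≤ 16^j`: `P(0 < Mf (Op ω) Q (bj j) (eh j · 16^j)) ≤ C 2^{-100j}`, and
`4^{-j} ≤ eh j ≤ β`, `0 ≤ bj j`, `bj (j+1) = bj j + 4 eh j ≤ c`.

Deterministic part (`sig_bound`): let `Q = box v n`, `1 ≤ u`, `κ > 0`, `b ≥ 0`, and suppose every rectangle `Q' ⊆ Q` of size `≤ u` has
`Mf O Q' b κ = 0` (`O = Op ω`).  Then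
`sig ω v n · e^{-(b+4κ/u) n} ≤ (2n+1)² u² exp(4u² + κ) exp(2(2n+1)² e^{-κ})` for `n ≥ 1`.
Proof: group the `n`-step paths by their end `w` (`w ∈ box v n`, `w ≠ v`); `l ↦ pe l` is injective into the linear forests in `eF Q` with leaf
set `{v,w}` and `n` edges (`path_forest`, `path_unique`), so the number with end `w` is `≤ e^{(b+4κ/u)n} WW O (eF Q) (b+4κ/u) {v,w}`; apply `mesh_lemma` with `Off = offs u`,
`S = {v,w}`, `q = 4u²`: for the cells containing neither `v` nor `w`: `WW_le_Mf` with `Mf = 0`, `Sc_bd`, `cell_rect`; for the at most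
two other cells `WW ≤ 2^{|eF|} ≤ 2^{2u²} ≤ e^{2u²}`; `sum_Sc`.

Probability: for `n` large put `j = Nat.log 4096 n` (`16^{3j} ≤ n < 16^{3j+3}`), `u = 16^j`, `κ = eh j·16^j`.  The number of
rectangles contained in `box v n` is `≤ (2n+1)^4 + 1`.  By the union bound
the probability that one of them has `Mf > 0` is `≤ ((2n+1)^4+1)·C·2^{-100j} ≤ C' n^{-2}` (`n^6 ≤ 2^{72(j+1)}`).  Borel-Cantelli,
countably many `v`.  Then for large `n`:
`log sig ≤ (bj (j+1)) n + 4u² + κ + 2(2n+1)² e^{-κ} + 2 log(2n+1) + 2 log u`, and with `t = 4^j` (`t^6 ≤ n < 4096 t^6`, `u = t²`,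
`t ≤ κ ≤ β t²`) all error terms are `≤ K t^4 = o(n)`.
-/

set_option autoImplicit false

open MeasureTheory

namespace Pool.Agent.SAWP

/-! ### Deterministic part -/

lemma eu_rect_card {u : ℕ} {Q : Finset V} (h : IsRect u Q) : Q.card ≤ u ^ 2 := by
  obtain ⟨a, b, c, d, rfl, h1, h2⟩ := h
  unfold rect
  rw [Finset.card_product, Int.card_Icc, Int.card_Icc, pow_two]
  exact Nat.mul_le_mul (by omega) (by omega)

lemma eu_two_pow (k : ℕ) : (2 : ℝ) ^ k ≤ Real.exp k := by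
  have h1 : (2 : ℝ) ≤ Real.exp 1 := by
    have := Real.add_one_le_exp (1 : ℝ)
    linarith
  calc (2 : ℝ) ^ k ≤ Real.exp 1 ^ k := pow_le_pow_left₀ (by norm_num) h1 k
    _ = Real.exp k := by rw [← Real.exp_nat_mul, mul_one]

lemma eu_box_rect (v : V) (n : ℕ) : IsRect (2 * n + 1) (box v n) := by
  refine ⟨v.1 - n, v.1 + n, v.2 - n, v.2 + n, rfl, ?_, ?_⟩ <;> push_cast <;> linarith

lemma eu_box_card (v : V) (n : ℕ) : ((box v n).card : ℝ) ≤ (2 * (n : ℝ) + 1) ^ 2 := by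
  have h := eu_rect_card (eu_box_rect v n)
  calc ((box v n).card : ℝ) ≤ (((2 * n + 1) ^ 2 : ℕ) : ℝ) := by exact_mod_cast h
    _ = (2 * (n : ℝ) + 1) ^ 2 := by push_cast; ring

/-- The number of paths from `v` to `w` with `n` steps inside `Q`. -/
lemma eu_fiber {O : Set Edge} {Q : Finset V} {v w : V} {n : ℕ} (hn : 1 ≤ n) (b : ℝ)
    (F : Finset (List V)) (hF : ∀ l ∈ F, IsP O v w l ∧ len l = n ∧ ∀ z ∈ l, z ∈ Q) :
    (F.card : ℝ) * Real.exp (-(b * n)) ≤ WW O (eF Q) b {v, w} := by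
  classical
  unfold WW
  have hinj : Set.InjOn pe (↑F : Set (List V)) := by
    intro l hl l' hl' he
    exact path_unique (hF l hl).1 (hF l' hl').1 he
  have hcard : ∀ l ∈ F, (pe l).card = n := by
    intro l hl
    obtain ⟨h1, h2, h3⟩ := hF l hl
    have := (path_forest h1 (by omega)).2.2.1
    omega
  calc (F.card : ℝ) * Real.exp (-(b * n)) = ∑ A ∈ F.image pe, Real.exp (-(b * (A.card : ℝ))) := by
        rw [Finset.sum_image hinj, Finset.sum_congr rfl (g := fun _ => Real.exp (-(b * n)))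
          (fun l hl => by rw [hcard l hl]), Finset.sum_const, nsmul_eq_mul]
    _ ≤ _ := by
        refine Finset.sum_le_sum_of_subset_of_nonneg ?_ (fun _ _ _ => (Real.exp_pos _).le)
        intro A hA
        rw [Finset.mem_image] at hA
        obtain ⟨l, hl, rfl⟩ := hA
        obtain ⟨h1, h2, h3⟩ := hF l hl
        obtain ⟨h4, h5, h6, h7⟩ := path_forest
          (h1.restrict (R := (↑Q : Set V)) (fun z hz => h3 z hz)) (by omega)
        rw [Finset.mem_filter, Finset.mem_powerset]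
        refine ⟨?_, h7.trans Set.inter_subset_left, h4, h5⟩
        intro e he
        have h8 := (h7 he).2
        rw [← coe_eF] at h8
        exact h8

lemma eu_prod {O : Set Edge} {Q : Finset V} {u m : ℕ} (hu : 1 ≤ u) {b κ : ℝ} (hb : 0 ≤ b)
    (hκ : 0 < κ) (hQ : IsRect m Q) (h : ∀ Q' ⊆ Q, IsRect u Q' → Mf O Q' b κ = 0) (v w o : V)
    {F : Finset Edge} (hF : F ⊆ cut u o (eF Q)) :
    ∏ z ∈ zs Q u o, WW O (eF (cell Q u o z)) b (Sc {v, w} F (cell Q u o z)) ≤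
        Real.exp (4 * (u : ℝ) ^ 2 + ((({v, w} : Finset V).card : ℝ) + 2 * F.card) * κ / 2) := by
  classical
  have key : ∀ z ∈ zs Q u o, WW O (eF (cell Q u o z)) b (Sc {v, w} F (cell Q u o z)) ≤
      Real.exp (((Sc {v, w} F (cell Q u o z)).card : ℝ) * (κ / 2) +
        ((if z = idx u o v then 2 * (u : ℝ) ^ 2 else 0) +
          (if z = idx u o w then 2 * (u : ℝ) ^ 2 else 0))) := by
    intro z _
    have hnn : 0 ≤ ((Sc {v, w} F (cell Q u o z)).card : ℝ) * (κ / 2) := by positivity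
    by_cases hz : z = idx u o v ∨ z = idx u o w
    · have h1 := WW_le_two_pow O (eF (cell Q u o z)) hb (Sc {v, w} F (cell Q u o z))
      have h2 : (eF (cell Q u o z)).card ≤ 2 * u ^ 2 :=
        (eF_card_le _).trans (Nat.mul_le_mul_left 2 (eu_rect_card (cell_rect hu hQ o z)))
      have h3 : (2 : ℝ) ^ (eF (cell Q u o z)).card ≤ 2 ^ (2 * u ^ 2) :=
        pow_le_pow_right₀ (by norm_num) h2
      have h4 := eu_two_pow (2 * u ^ 2)
      refine h1.trans (h3.trans (h4.trans (Real.exp_le_exp.2 ?_)))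
      push_cast
      have h5 : (0 : ℝ) ≤ 2 * (u : ℝ) ^ 2 := by positivity
      rcases hz with hz | hz
      · rw [if_pos hz]
        split_ifs <;> linarith
      · rw [if_pos hz]
        split_ifs <;> linarith
    · push Not at hz
      rw [if_neg hz.1, if_neg hz.2, add_zero, add_zero]
      have h1 : Sc {v, w} F (cell Q u o z) ⊆ bd (cell Q u o z) := by
        refine Sc_bd hF fun x hx hxc => ?_
        exfalso
        have h2 := (mesh_mem_cell.1 hxc).2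
        rw [Finset.mem_insert, Finset.mem_singleton] at hx
        rcases hx with rfl | rfl
        · exact hz.1 h2.symm
        · exact hz.2 h2.symm
      have h2 := WW_le_Mf (O := O) (b := b) (κ := κ) h1
      rw [h (cell Q u o z) (Finset.filter_subset _ _) (cell_rect hu hQ o z), zero_add] at h2
      refine h2.trans (Real.exp_le_exp.2 (le_of_eq ?_))
      ring
  refine (Finset.prod_le_prod (fun z _ => WW_nonneg _ _ _ _) key).trans ?_
  rw [← Real.exp_sum]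
  apply Real.exp_le_exp.2
  rw [Finset.sum_add_distrib, Finset.sum_add_distrib, ← Finset.sum_mul]
  have h1 : (∑ z ∈ zs Q u o, ((Sc {v, w} F (cell Q u o z)).card : ℝ)) ≤
      (({v, w} : Finset V).card : ℝ) + 2 * F.card := by
    exact_mod_cast sum_Sc (u := u) (Q := Q) (o := o) {v, w} F
  have h2 : ∀ x : V, (∑ z ∈ zs Q u o, if z = x then 2 * (u : ℝ) ^ 2 else 0) ≤ 2 * (u : ℝ) ^ 2 := by
    intro x
    rw [Finset.sum_ite_eq']
    split_ifs
    · exact le_rfl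
    · positivity
  have h3 := h2 (idx u o v)
  have h4 := h2 (idx u o w)
  have h5 := mul_le_mul_of_nonneg_right h1 (show (0 : ℝ) ≤ κ / 2 by positivity)
  have h6 : ((({v, w} : Finset V).card : ℝ) + 2 * F.card) * κ / 2 =
      ((({v, w} : Finset V).card : ℝ) + 2 * F.card) * (κ / 2) := by ring
  rw [h6]
  linarith

lemma eu_WW {O : Set Edge} {v w : V} {n u : ℕ} (hu : 1 ≤ u) {b κ : ℝ} (hb : 0 ≤ b)
    (hκ : 0 < κ) (hvw : v ≠ w) (h : ∀ Q' ⊆ box v n, IsRect u Q' → Mf O Q' b κ = 0) :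
    WW O (eF (box v n)) (b + 4 * κ / u) {v, w} ≤ (u : ℝ) ^ 2 * Real.exp (4 * (u : ℝ) ^ 2 + κ) *
      Real.exp (2 * (2 * (n : ℝ) + 1) ^ 2 * Real.exp (-κ)) := by
  have hcard2 : (({v, w} : Finset V).card : ℝ) = 2 := by
    rw [Finset.card_pair hvw]; norm_num
  have hoff : ((offs u).card : ℝ) = (u : ℝ) ^ 2 := by
    unfold offs
    rw [Finset.card_product, Int.card_Ico]
    push_cast
    simp [pow_two]
  have h1 := mesh_lemma (O := O) (Q := box v n) hu hb hκ {v, w} (Off := offs u)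
    (q := 4 * (u : ℝ) ^ 2) (Finset.Subset.refl _)
    (by rw [hoff]; nlinarith [sq_nonneg (u : ℝ)])
    (fun o _ F hF => eu_prod hu hb hκ (eu_box_rect v n) h v w o hF)
  refine h1.trans ?_
  rw [hcard2]
  have h2 : (2 : ℝ) * κ / 2 = κ := by ring
  rw [h2]
  refine mul_le_mul_of_nonneg_left ?_ (by positivity)
  apply Real.exp_le_exp.2
  refine mul_le_mul_of_nonneg_right ?_ (Real.exp_pos _).le
  have h3 := eF_card_le (box v n)
  have h4 : ((eF (box v n)).card : ℝ) ≤ 2 * ((box v n).card : ℝ) := by exact_mod_cast h3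
  linarith [eu_box_card v n]

lemma eu_saw {ω : Cfg} {v : V} {n : ℕ} {l : List V}
    (hl : l.IsChain (Step (Op ω)) ∧ l.Nodup ∧ l.head? = some v ∧ l.length = n + 1) :
    IsP (Op ω) v (l.getLast?.getD v) l ∧ len l = n ∧ ∀ z ∈ l, z ∈ box v n := by
  obtain ⟨h1, h2, h3, h4⟩ := hl
  have hne : l ≠ [] := by
    rintro rfl
    simp at h4
  have hlast := List.getLast?_eq_some_getLast hne
  have hw : IsW (Op ω) v (l.getLast hne) l := ⟨h1, h3, hlast⟩
  refine ⟨⟨?_, h2⟩, by unfold len; omega, ?_⟩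
  · rw [hlast]
    exact hw
  · intro z hz
    obtain ⟨l₁, l₂, h5, h6, h7⟩ := hw.split hz
    rw [mem_box]
    refine h5.nrm_le.trans ?_
    have h8 : len l = len l₁ + len l₂ := by
      rw [h7]
      exact len_append_tail h5 h6
    have h9 : len l = n := by
      unfold len
      omega
    omega

theorem sig_bound {ω : Cfg} {v : V} {n u : ℕ} (hn : 1 ≤ n) (hu : 1 ≤ u) {b κ : ℝ} (hb : 0 ≤ b)
    (hκ : 0 < κ) (h : ∀ Q' ⊆ box v n, IsRect u Q' → Mf (Op ω) Q' b κ = 0) :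
    (sig ω v n : ℝ) ≤ (2 * (n : ℝ) + 1) ^ 2 * (u : ℝ) ^ 2 * Real.exp (4 * (u : ℝ) ^ 2 + κ) *
      Real.exp (2 * (2 * (n : ℝ) + 1) ^ 2 * Real.exp (-κ)) * Real.exp ((b + 4 * κ / u) * n) := by
  classical
  have hfin : {l : List V | l.IsChain (Step (Op ω)) ∧ l.Nodup ∧ l.head? = some v ∧
      l.length = n + 1}.Finite :=
    (nodup_lists_finite (box v n)).subset fun l hl => ⟨hl.2.1, (eu_saw hl).2.2⟩
  set F := hfin.toFinset with hF
  have hmem : ∀ l ∈ F, IsP (Op ω) v (l.getLast?.getD v) l ∧ len l = n ∧ ∀ z ∈ l, z ∈ box v n := by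
    intro l hl
    rw [hF, Set.Finite.mem_toFinset] at hl
    exact eu_saw hl
  have hsig : sig ω v n = F.card := Set.ncard_eq_toFinset_card _ hfin
  rw [hsig, Finset.card_eq_sum_card_fiberwise (f := fun l : List V => l.getLast?.getD v)
    (t := box v n) (fun l hl => by
      obtain ⟨h1, h2, h3⟩ := hmem l hl
      exact h3 _ h1.1.right_mem)]
  set B : ℝ := (u : ℝ) ^ 2 * Real.exp (4 * (u : ℝ) ^ 2 + κ) *
      Real.exp (2 * (2 * (n : ℝ) + 1) ^ 2 * Real.exp (-κ)) * Real.exp ((b + 4 * κ / u) * n) with hB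
  have hB0 : 0 ≤ B := by positivity
  have key : ∀ w ∈ box v n,
      ((F.filter (fun l : List V => l.getLast?.getD v = w)).card : ℝ) ≤ B := by
    intro w _
    by_cases hvw : v = w
    · have h1 : F.filter (fun l : List V => l.getLast?.getD v = w) = ∅ := by
        rw [Finset.filter_eq_empty_iff]
        intro l hl hlw
        obtain ⟨h2, h3, h4⟩ := hmem l hl
        rw [hlw, ← hvw] at h2
        obtain ⟨t, rfl⟩ := h2.1.eq_cons
        cases t with
        | nil => simp [len] at h3; omega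
        | cons a t =>
          have h5 := h2.1.2.2
          rw [List.getLast?_cons_cons] at h5
          exact (List.nodup_cons.1 h2.2).1 (List.mem_of_getLast? h5)
      rw [h1]
      simpa using hB0
    · have h1 := eu_fiber (O := Op ω) (Q := box v n) (v := v) (w := w) hn (b + 4 * κ / u)
        (F.filter (fun l : List V => l.getLast?.getD v = w)) (fun l hl => by
          rw [Finset.mem_filter] at hl
          obtain ⟨h2, h3, h4⟩ := hmem l hl.1
          rw [hl.2] at h2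
          exact ⟨h2, h3, h4⟩)
      have h2 := h1.trans (eu_WW hu hb hκ hvw h)
      have h3 := mul_le_mul_of_nonneg_right h2 (Real.exp_pos ((b + 4 * κ / u) * n)).le
      rwa [mul_assoc, ← Real.exp_add, neg_add_cancel, Real.exp_zero, mul_one] at h3
  push_cast
  refine (Finset.sum_le_sum key).trans ?_
  rw [Finset.sum_const, nsmul_eq_mul]
  refine (mul_le_mul_of_nonneg_right (eu_box_card v n) hB0).trans (le_of_eq ?_)
  rw [hB]
  ring

/-! ### The family of rectangles and Borel-Cantelli -/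

lemma eu_family (v : V) (n u : ℕ) : ∃ R : Finset (Finset V), (∀ Q ∈ R, IsRect u Q) ∧
    (∀ Q ⊆ box v n, IsRect u Q → Q ∈ R) ∧ R.card ≤ (2 * n + 1) ^ 4 + 1 := by
  classical
  set I := Finset.Icc (v.1 - n) (v.1 + n) with hI
  set J := Finset.Icc (v.2 - n) (v.2 + n) with hJ
  have hIc : I.card = 2 * n + 1 := by
    rw [hI, Int.card_Icc]; omega
  have hJc : J.card = 2 * n + 1 := by
    rw [hJ, Int.card_Icc]; omega
  refine ⟨(insert ∅ ((I ×ˢ I ×ˢ J ×ˢ J).image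
    (fun q => rect q.1 q.2.1 q.2.2.1 q.2.2.2))).filter (IsRect u), ?_, ?_, ?_⟩
  · intro Q hQ
    exact (Finset.mem_filter.1 hQ).2
  · intro Q hQ hr
    rw [Finset.mem_filter]
    refine ⟨?_, hr⟩
    rcases Finset.eq_empty_or_nonempty Q with rfl | ⟨x, hx⟩
    · exact Finset.mem_insert_self _ _
    · apply Finset.mem_insert_of_mem
      obtain ⟨a, b, c, d, rfl, -, -⟩ := hr
      rw [mem_rect] at hx
      have h1 : (a, c) ∈ box v n := hQ (mem_rect.2 ⟨le_rfl, by linarith, le_rfl, by linarith⟩)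
      have h2 : (b, d) ∈ box v n := hQ (mem_rect.2 ⟨by linarith, le_rfl, by linarith, le_rfl⟩)
      unfold box at h1 h2
      rw [mem_rect] at h1 h2
      rw [Finset.mem_image]
      refine ⟨(a, b, c, d), ?_, rfl⟩
      simp only [Finset.mem_product, hI, hJ, Finset.mem_Icc]
      exact ⟨⟨h1.1, h1.2.1⟩, ⟨h2.1, h2.2.1⟩, ⟨h1.2.2.1, h1.2.2.2⟩, h2.2.2.1, h2.2.2.2⟩
  · refine (Finset.card_filter_le _ _).trans ((Finset.card_insert_le _ _).trans ?_)
    refine Nat.add_le_add_right (Finset.card_image_le.trans ?_) 1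
    rw [Finset.card_product, Finset.card_product, Finset.card_product, hIc, hJc]
    exact le_of_eq (by ring)

lemma eu_bc (p : unitInterval) (E : ℕ → Set Cfg) (N₀ : ℕ) (A : ℝ)
    (h : ∀ n, N₀ ≤ n → PR p (E n) ≤ A * ((n : ℝ) ^ 2)⁻¹) :
    ∀ᵐ ω ∂(perc p), ∀ᶠ n : ℕ in Filter.atTop, ω ∉ E n := by
  have hA : ∀ n : ℕ, N₀ ≤ n → (perc p) (E n) ≤ ENNReal.ofReal (|A| * ((n : ℝ) ^ 2)⁻¹) := by
    intro n hn
    have h1 : (perc p) (E n) = ENNReal.ofReal (PR p (E n)) := by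
      unfold PR
      exact (ofReal_measureReal).symm
    rw [h1]
    apply ENNReal.ofReal_le_ofReal
    refine (h n hn).trans ?_
    exact mul_le_mul_of_nonneg_right (le_abs_self A) (by positivity)
  have hs : Summable (fun n : ℕ => |A| * ((n : ℝ) ^ 2)⁻¹) :=
    (Real.summable_nat_pow_inv.2 (by norm_num)).mul_left _
  have h2 : ∑' n, (perc p) (if N₀ ≤ n then E n else ∅) ≠ ⊤ := by
    refine ne_top_of_le_ne_top ?_ (ENNReal.tsum_le_tsum (g := fun n : ℕ =>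
      ENNReal.ofReal (|A| * ((n : ℝ) ^ 2)⁻¹)) fun n => ?_)
    · rw [← ENNReal.ofReal_tsum_of_nonneg (fun n => by positivity) hs]
      exact ENNReal.ofReal_ne_top
    · split_ifs with hn
      · exact hA n hn
      · simp
  filter_upwards [ae_eventually_notMem h2] with ω hω
  filter_upwards [hω, Filter.eventually_ge_atTop N₀] with n hn hn'
  simpa [hn'] using hn

/-- The union bound is summable. -/
lemma eu_num {n j : ℕ} {C : ℝ} (hC : 0 ≤ C) (hn : 1 ≤ n) (hlt : n < 4096 ^ (j + 1)) :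
    (((2 * n + 1) ^ 4 + 1 : ℕ) : ℝ) * (C * (2 : ℝ)⁻¹ ^ (100 * j)) ≤
      82 * C * 2 ^ 72 * ((n : ℝ) ^ 2)⁻¹ := by
  have hn1 : (1 : ℝ) ≤ n := by exact_mod_cast hn
  have hn0 : (0 : ℝ) < n := by linarith
  have h1 : (((2 * n + 1) ^ 4 + 1 : ℕ) : ℝ) ≤ 82 * (n : ℝ) ^ 4 := by
    push_cast
    have h2 : (2 * (n : ℝ) + 1) ^ 4 ≤ (3 * (n : ℝ)) ^ 4 :=
      pow_le_pow_left₀ (by positivity) (by linarith) 4
    have h3 : (1 : ℝ) ≤ (n : ℝ) ^ 4 := one_le_pow₀ hn1
    have h4 : (3 * (n : ℝ)) ^ 4 = 81 * (n : ℝ) ^ 4 := by ring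
    linarith
  have h2 : (n : ℝ) ^ 6 ≤ 2 ^ (72 * j + 72) := by
    have h3 : (n : ℝ) ≤ (2 : ℝ) ^ (12 * j + 12) := by
      have h4 : n ≤ 2 ^ (12 * j + 12) := by
        refine hlt.le.trans (le_of_eq ?_)
        rw [show (4096 : ℕ) = 2 ^ 12 by norm_num, ← pow_mul]
        congr 1
      exact_mod_cast h4
    calc (n : ℝ) ^ 6 ≤ ((2 : ℝ) ^ (12 * j + 12)) ^ 6 := pow_le_pow_left₀ hn0.le h3 6
      _ = 2 ^ (72 * j + 72) := by rw [← pow_mul]; congr 1; ring
  have h3 : (2 : ℝ)⁻¹ ^ (100 * j) ≤ (2 : ℝ) ^ 72 * ((n : ℝ) ^ 6)⁻¹ := by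
    have h4 : (2 : ℝ)⁻¹ ^ (100 * j) ≤ (2 : ℝ)⁻¹ ^ (72 * j) :=
      pow_le_pow_of_le_one (by norm_num) (by norm_num) (by omega)
    refine h4.trans ?_
    rw [inv_pow, ← div_eq_mul_inv, le_div_iff₀ (by positivity), inv_mul_le_iff₀ (by positivity)]
    rw [← pow_add]
    exact h2
  calc (((2 * n + 1) ^ 4 + 1 : ℕ) : ℝ) * (C * (2 : ℝ)⁻¹ ^ (100 * j))
      ≤ (82 * (n : ℝ) ^ 4) * (C * ((2 : ℝ) ^ 72 * ((n : ℝ) ^ 6)⁻¹)) := by gcongr
    _ = 82 * C * 2 ^ 72 * ((n : ℝ) ^ 2)⁻¹ := by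
        field_simp

/-! ### The error terms -/

lemma eu_final {β ε : ℝ} (hβ : 0 ≤ β) (hε : 0 < ε) : ∃ J : ℕ, ∀ j, J ≤ j → ∀ n : ℕ,
    4096 ^ j ≤ n → n < 4096 ^ (j + 1) → ∀ c e b : ℝ, (4 : ℝ)⁻¹ ^ j ≤ e → e ≤ β → b + 4 * e ≤ c →
    (2 * (n : ℝ) + 1) ^ 2 * ((16 ^ j : ℕ) : ℝ) ^ 2 *
      Real.exp (4 * ((16 ^ j : ℕ) : ℝ) ^ 2 + e * 16 ^ j) *
      Real.exp (2 * (2 * (n : ℝ) + 1) ^ 2 * Real.exp (-(e * 16 ^ j))) *
      Real.exp ((b + 4 * (e * 16 ^ j) / ((16 ^ j : ℕ) : ℝ)) * n) ≤ Real.exp ((c + ε) * n) := by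
  set K : ℝ := 12288 ^ 2 + 16 + (4 + β) + 2 * 12288 ^ 2 * (Nat.factorial 12 : ℝ) with hK
  obtain ⟨J, hJ⟩ := exists_nat_ge (K / ε)
  refine ⟨J, fun j hj n hn1 hn2 c e b he1 he2 hc => ?_⟩
  set t : ℝ := (4 : ℝ) ^ j with ht
  have ht1 : 1 ≤ t := one_le_pow₀ (by norm_num)
  have ht0 : 0 < t := by linarith
  have h16 : (16 : ℝ) ^ j = t ^ 2 := by
    rw [ht, ← pow_mul, mul_comm, pow_mul]; norm_num
  have h16' : ((16 ^ j : ℕ) : ℝ) = t ^ 2 := by push_cast; exact h16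
  have h4096 : (4096 : ℝ) ^ j = t ^ 6 := by
    rw [ht, ← pow_mul, mul_comm, pow_mul]; norm_num
  have hnl : t ^ 6 ≤ (n : ℝ) := by
    rw [← h4096]; exact_mod_cast hn1
  have hnu : (n : ℝ) ≤ 4096 * t ^ 6 := by
    rw [← h4096, ← pow_succ']; exact_mod_cast hn2.le
  have ht6 : 1 ≤ t ^ 6 := one_le_pow₀ ht1
  have ht4 : 1 ≤ t ^ 4 := one_le_pow₀ ht1
  have htt4 : t ≤ t ^ 4 := le_self_pow₀ ht1 (by norm_num)
  have ht24 : t ^ 2 ≤ t ^ 4 := pow_le_pow_right₀ ht1 (by norm_num)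
  have h2n : 2 * (n : ℝ) + 1 ≤ 12288 * t ^ 6 := by linarith
  have h2n2 : (2 * (n : ℝ) + 1) ^ 2 ≤ 12288 ^ 2 * t ^ 12 := by
    calc (2 * (n : ℝ) + 1) ^ 2 ≤ (12288 * t ^ 6) ^ 2 := pow_le_pow_left₀ (by positivity) h2n 2
      _ = 12288 ^ 2 * t ^ 12 := by ring
  have hinv : (4 : ℝ)⁻¹ ^ j = t⁻¹ := by rw [ht, inv_pow]
  rw [hinv] at he1
  have hκl : t ≤ e * t ^ 2 := by
    have h1 := mul_le_mul_of_nonneg_right he1 (show 0 ≤ t ^ 2 by positivity)
    have h2 : t⁻¹ * t ^ 2 = t := by field_simp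
    linarith
  have hκu : e * t ^ 2 ≤ β * t ^ 4 := by
    calc e * t ^ 2 ≤ β * t ^ 2 := mul_le_mul_of_nonneg_right he2 (by positivity)
      _ ≤ β * t ^ 4 := mul_le_mul_of_nonneg_left ht24 hβ
  -- the four factors
  have f1 : (2 * (n : ℝ) + 1) ^ 2 * (t ^ 2) ^ 2 ≤ Real.exp ((12288 ^ 2 + 16) * t ^ 4) := by
    have h1 : (12288 : ℝ) ^ 2 ≤ Real.exp (12288 ^ 2) := by
      have := Real.add_one_le_exp ((12288 : ℝ) ^ 2); linarith
    have h2 : t ^ 16 ≤ Real.exp (16 * t) := by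
      have h3 : t ≤ Real.exp t := by have := Real.add_one_le_exp t; linarith
      calc t ^ 16 ≤ Real.exp t ^ 16 := pow_le_pow_left₀ ht0.le h3 16
        _ = Real.exp (16 * t) := by rw [← Real.exp_nat_mul]; norm_num
    calc (2 * (n : ℝ) + 1) ^ 2 * (t ^ 2) ^ 2 ≤ (12288 ^ 2 * t ^ 12) * (t ^ 2) ^ 2 := by gcongr
      _ = 12288 ^ 2 * t ^ 16 := by ring
      _ ≤ Real.exp (12288 ^ 2) * Real.exp (16 * t) := by gcongr
      _ = Real.exp (12288 ^ 2 + 16 * t) := by rw [Real.exp_add]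
      _ ≤ Real.exp ((12288 ^ 2 + 16) * t ^ 4) := by
          apply Real.exp_le_exp.2
          nlinarith
  have f2 : Real.exp (4 * (t ^ 2) ^ 2 + e * t ^ 2) ≤ Real.exp ((4 + β) * t ^ 4) := by
    apply Real.exp_le_exp.2
    have : (t ^ 2) ^ 2 = t ^ 4 := by ring
    rw [this]
    linarith
  have f3 : Real.exp (2 * (2 * (n : ℝ) + 1) ^ 2 * Real.exp (-(e * t ^ 2))) ≤
      Real.exp ((2 * 12288 ^ 2 * (Nat.factorial 12 : ℝ)) * t ^ 4) := by
    apply Real.exp_le_exp.2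
    have h1 : Real.exp (-(e * t ^ 2)) ≤ (Nat.factorial 12 : ℝ) * (t ^ 12)⁻¹ := by
      have h2 : Real.exp (-(e * t ^ 2)) ≤ Real.exp (-t) := Real.exp_le_exp.2 (by linarith)
      have h3 := Real.pow_div_factorial_le_exp t ht0.le 12
      rw [Real.exp_neg] at *
      rw [Real.exp_neg t] at h2
      refine h2.trans ?_
      rw [inv_le_comm₀ (Real.exp_pos _) (by positivity), mul_inv, inv_inv, mul_comm,
        ← div_eq_mul_inv]
      exact h3
    calc 2 * (2 * (n : ℝ) + 1) ^ 2 * Real.exp (-(e * t ^ 2))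
        ≤ 2 * (12288 ^ 2 * t ^ 12) * ((Nat.factorial 12 : ℝ) * (t ^ 12)⁻¹) := by gcongr
      _ = 2 * 12288 ^ 2 * (Nat.factorial 12 : ℝ) := by field_simp
      _ ≤ 2 * 12288 ^ 2 * (Nat.factorial 12 : ℝ) * t ^ 4 := by
          apply le_mul_of_one_le_right _ ht4
          positivity
  have f4 : Real.exp ((b + 4 * (e * t ^ 2) / t ^ 2) * n) ≤ Real.exp (c * n) := by
    apply Real.exp_le_exp.2
    apply mul_le_mul_of_nonneg_right _ (Nat.cast_nonneg n)
    have : 4 * (e * t ^ 2) / t ^ 2 = 4 * e := by field_simp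
    rw [this]
    exact hc
  rw [h16', h16]
  calc (2 * (n : ℝ) + 1) ^ 2 * (t ^ 2) ^ 2 * Real.exp (4 * (t ^ 2) ^ 2 + e * t ^ 2) *
      Real.exp (2 * (2 * (n : ℝ) + 1) ^ 2 * Real.exp (-(e * t ^ 2))) *
      Real.exp ((b + 4 * (e * t ^ 2) / t ^ 2) * n)
      ≤ Real.exp ((12288 ^ 2 + 16) * t ^ 4) * Real.exp ((4 + β) * t ^ 4) *
        Real.exp ((2 * 12288 ^ 2 * (Nat.factorial 12 : ℝ)) * t ^ 4) * Real.exp (c * n) := by
        gcongr
    _ = Real.exp (K * t ^ 4 + c * n) := by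
        rw [← Real.exp_add, ← Real.exp_add, ← Real.exp_add, hK]
        congr 1
        ring
    _ ≤ Real.exp ((c + ε) * n) := by
        apply Real.exp_le_exp.2
        have h1 : K ≤ ε * t ^ 2 := by
          rw [div_le_iff₀ hε] at hJ
          have h2 : (J : ℝ) ≤ t ^ 2 := by
            have h3 : J ≤ 16 ^ j := hj.trans (Nat.lt_pow_self (by norm_num)).le
            rw [← h16]
            exact_mod_cast h3
          nlinarith
        have h2 : K * t ^ 4 ≤ ε * n := by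
          calc K * t ^ 4 ≤ (ε * t ^ 2) * t ^ 4 := mul_le_mul_of_nonneg_right h1 (by positivity)
            _ = ε * t ^ 6 := by ring
            _ ≤ ε * n := mul_le_mul_of_nonneg_left hnl hε.le
        nlinarith

theorem end_U (p : unitInterval) {c β C : ℝ} {j₀ : ℕ} {eh bj : ℕ → ℝ}
    (h1 : ∀ j, j₀ ≤ j → (4 : ℝ)⁻¹ ^ j ≤ eh j) (h2 : ∀ j, j₀ ≤ j → eh j ≤ β)
    (h3 : ∀ j, j₀ ≤ j → 0 ≤ bj j) (h4 : ∀ j, j₀ ≤ j → bj j + 4 * eh j ≤ c)
    (h5 : ∀ j, j₀ ≤ j → ∀ Q, IsRect (16 ^ j) Q →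
      PR p {ω | 0 < Mf (Op ω) Q (bj j) (eh j * 16 ^ j)} ≤ C * (2 : ℝ)⁻¹ ^ (100 * j)) :
    UB p c := by
  have hβ : 0 ≤ β := by
    have h6 : (0 : ℝ) < (4 : ℝ)⁻¹ ^ j₀ := by positivity
    linarith [h1 j₀ le_rfl, h2 j₀ le_rfl]
  have hC : 0 ≤ C := by
    have h6 := h5 j₀ le_rfl ∅ ⟨0, -1, 0, -1, by simp [rect],
      by have : (0 : ℤ) ≤ ((16 ^ j₀ : ℕ) : ℤ) := Int.natCast_nonneg _
         linarith, by have : (0 : ℤ) ≤ ((16 ^ j₀ : ℕ) : ℤ) := Int.natCast_nonneg _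
                      linarith⟩
    have h7 := (PR_nonneg p _).trans h6
    have h8 : (0 : ℝ) < (2 : ℝ)⁻¹ ^ (100 * j₀) := by positivity
    exact nonneg_of_mul_nonneg_left h7 h8
  unfold UB
  rw [ae_all_iff]
  intro v
  choose R hR1 hR2 hR3 using fun n : ℕ => eu_family v n (16 ^ (Nat.log 4096 n))
  let E : ℕ → Set Cfg := fun n => ⋃ Q ∈ R n,
    {ω | 0 < Mf (Op ω) Q (bj (Nat.log 4096 n)) (eh (Nat.log 4096 n) * 16 ^ (Nat.log 4096 n))}
  have hlog : ∀ n, 4096 ^ j₀ ≤ n → j₀ ≤ Nat.log 4096 n := fun n hn =>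
    Nat.le_log_of_pow_le (by norm_num) hn
  have hbc : ∀ᵐ ω ∂(perc p), ∀ᶠ n : ℕ in Filter.atTop, ω ∉ E n := by
    refine eu_bc p E (4096 ^ j₀) (82 * C * 2 ^ 72) fun n hn => ?_
    have hj := hlog n hn
    have hn1 : 1 ≤ n := (Nat.one_le_pow _ _ (by norm_num)).trans hn
    refine (PR_biUnion_le p (R n) _).trans ?_
    refine (Finset.sum_le_card_nsmul _ _ (C * (2 : ℝ)⁻¹ ^ (100 * Nat.log 4096 n))
      (fun Q hQ => h5 _ hj Q (hR1 n Q hQ))).trans ?_
    rw [nsmul_eq_mul]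
    refine le_trans ?_ (eu_num hC hn1 (Nat.lt_pow_succ_log_self (by norm_num) n))
    apply mul_le_mul_of_nonneg_right _ (by positivity)
    exact_mod_cast hR3 n
  filter_upwards [hbc] with ω hω
  intro ε hε
  obtain ⟨J, hJ⟩ := eu_final hβ hε
  filter_upwards [hω, Filter.eventually_ge_atTop (4096 ^ j₀), Filter.eventually_ge_atTop (4096 ^ J)]
    with n hn hn0 hnJ
  have hj := hlog n hn0
  have hjJ : J ≤ Nat.log 4096 n := Nat.le_log_of_pow_le (by norm_num) hnJ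
  have hn1 : 1 ≤ n := (Nat.one_le_pow _ _ (by norm_num)).trans hn0
  have heh : 0 < eh (Nat.log 4096 n) := by
    have h6 : (0 : ℝ) < (4 : ℝ)⁻¹ ^ (Nat.log 4096 n) := by positivity
    linarith [h1 _ hj]
  have hb := sig_bound (ω := ω) (v := v) (n := n) (u := 16 ^ (Nat.log 4096 n)) hn1
    (Nat.one_le_pow _ _ (by norm_num)) (h3 _ hj)
    (κ := eh (Nat.log 4096 n) * 16 ^ (Nat.log 4096 n)) (by positivity) (fun Q' hQ' hr => by
      have h6 : Q' ∈ R n := hR2 n Q' hQ' hr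
      by_contra hne
      apply hn
      simp only [E, Set.mem_iUnion]
      exact ⟨Q', h6, lt_of_le_of_ne (Mf_nonneg _ _ _ _) (Ne.symm hne)⟩)
  exact hb.trans (hJ _ hjJ n (Nat.pow_log_le_self _ (by omega))
    (Nat.lt_pow_succ_log_self (by norm_num) n) c _ _ (h1 _ hj) (h2 _ hj) (h4 _ hj))

end Pool.Agent.SAWP
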