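import Mathlib

/-!
# SAWP, case U: iteration of the recursion (module U13; paper 3.5 (i), (ii))

Abstract numerical lemma.  `P j s` (paper `p_j(s)`): `0 ≤ P ≤ 1`, nonincreasing in `s`, `P j₀ s = 0` for `s ≥ 2·16^{2j₀}`,
`P (j+1) s ≤ 578 P j (s+g_j) + 2·289² P j 0 P j ((s+g_j)/289)` for `s ≥ 0`, `g_j ≥ 4^j`, and `P j 0 ≤ ρ := 289^{-201}` for `j₀ ≤ j ≤ 7j₀`.
(i) If `P i 0 ≤ ρ` for `j₀ ≤ i < j` then `P j s ≤ 1156^{j-j₀} (2·16^{2j₀}/s)^{200}` for `s > 0`.  (Step: `P (j+1) s ≤ 1156^{j-j₀} (2·16^{2j₀}/s)^{200} (578 + 2·289²·ρ·289^{200})`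
and `2·289²·289^{-201}·289^{200} = 578`.)
(ii) For `j ≥ 7j₀`, `L = j-j₀ ≥ 6j₀`: `P j (g_j) ≤ 1156^L (2·16^{2j₀}/4^j)^{200} = 1156^L 2^{200} 4^{200(3j₀-L)} ≤ 2^{11L+200-200L} ≤ 2^{200-160j}`
(using `3j₀ ≤ L/2`, `1156 ≤ 2^{11}`, `189 L ≥ 160 j` as `L ≥ (6/7) j`).
(iii) By induction `P j 0 ≤ ρ` for all `j ≥ j₀`: for `j ≥ 7j₀`: `P (j+1) 0 ≤ 578·2^{200-160j} + 2·289² ρ · ρ ≤ ρ` (`j₀ ≥ J`).
(iv) `P (j+1) 0 ≤ 578·2^{200}·2^{-160j} + (2·289² ρ) P j 0`, `2·289²·ρ ≤ 2^{-101}`: `P j 0 ≤ C 2^{-100j}` for all `j ≥ j₀`.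
(In the recursion the last factor `P j ((s+g_j)/289) ≤ P j 0` when used for (iii), (iv).)
-/

set_option autoImplicit false

namespace Pool.Agent.SAWP

namespace IterAux

lemma key1 (j₀ m : ℕ) : (1156 : ℝ) ^ (6 * j₀ + m) * (2 * 16 ^ (2 * j₀) / 4 ^ (7 * j₀ + m)) ^ 200 ≤
    2 ^ 200 * (2 : ℝ)⁻¹ ^ (160 * (7 * j₀ + m)) := by
  have h1 : (2 * 16 ^ (2 * j₀) / 4 ^ (7 * j₀ + m) : ℝ) = 2 * (2 : ℝ)⁻¹ ^ (6 * j₀ + 2 * m) := by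
    rw [div_eq_iff (by positivity)]
    have e1 : (16 : ℝ) ^ (2 * j₀) = 2 ^ (8 * j₀) := by
      rw [show (16 : ℝ) = 2 ^ 4 by norm_num, ← pow_mul]; congr 1; ring
    have e2 : (4 : ℝ) ^ (7 * j₀ + m) = 2 ^ (6 * j₀ + 2 * m) * 2 ^ (8 * j₀) := by
      rw [show (4 : ℝ) = 2 ^ 2 by norm_num, ← pow_mul, ← pow_add]; congr 1; ring
    have e3 : (2 : ℝ)⁻¹ ^ (6 * j₀ + 2 * m) * 2 ^ (6 * j₀ + 2 * m) = 1 := by
      rw [← mul_pow]; norm_num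
    rw [e1, e2]
    calc (2 : ℝ) * 2 ^ (8 * j₀) = 2 * 1 * 2 ^ (8 * j₀) := by ring
      _ = _ := by rw [← e3]; ring
  have h2 : (1156 : ℝ) ^ (6 * j₀ + m) ≤ 2 ^ (66 * j₀ + 11 * m) := by
    have : (2 : ℝ) ^ (66 * j₀ + 11 * m) = (2048 : ℝ) ^ (6 * j₀ + m) := by
      rw [show (2048 : ℝ) = 2 ^ 11 by norm_num, ← pow_mul]; congr 1; ring
    rw [this]
    exact pow_le_pow_left₀ (by norm_num) (by norm_num) _
  have h3 : (2 : ℝ) ^ (66 * j₀ + 11 * m) * (2 : ℝ)⁻¹ ^ (66 * j₀ + 11 * m) = 1 := by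
    rw [← mul_pow]; norm_num
  rw [h1]
  calc (1156 : ℝ) ^ (6 * j₀ + m) * (2 * (2 : ℝ)⁻¹ ^ (6 * j₀ + 2 * m)) ^ 200
      ≤ 2 ^ (66 * j₀ + 11 * m) * (2 * (2 : ℝ)⁻¹ ^ (6 * j₀ + 2 * m)) ^ 200 :=
        mul_le_mul_of_nonneg_right h2 (by positivity)
    _ = 2 ^ (66 * j₀ + 11 * m) * (2 ^ 200 * (2 : ℝ)⁻¹ ^ ((66 * j₀ + 11 * m) + (1134 * j₀ + 389 * m))) := by
        rw [mul_pow, ← pow_mul]; congr 3; ring
    _ = 2 ^ 200 * (2 : ℝ)⁻¹ ^ (1134 * j₀ + 389 * m) := by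
        rw [pow_add]
        calc _ = (2 : ℝ) ^ 200 * ((2 : ℝ) ^ (66 * j₀ + 11 * m) * (2 : ℝ)⁻¹ ^ (66 * j₀ + 11 * m)) *
              (2 : ℝ)⁻¹ ^ (1134 * j₀ + 389 * m) := by ring
          _ = _ := by rw [h3, mul_one]
    _ ≤ 2 ^ 200 * (2 : ℝ)⁻¹ ^ (160 * (7 * j₀ + m)) := by
        refine mul_le_mul_of_nonneg_left ?_ (by positivity)
        exact pow_le_pow_of_le_one (by norm_num) (by norm_num) (by omega)

lemma num1 : 2 * 289 * ((2 : ℝ) ^ 200 * (2 : ℝ)⁻¹ ^ 2240) +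
    2 * 289 ^ 2 * (289 : ℝ)⁻¹ ^ 201 * (289 : ℝ)⁻¹ ^ 201 ≤ (289 : ℝ)⁻¹ ^ 201 := by
  rw [show 2240 = 224 * 10 by norm_num, pow_mul]
  norm_num

lemma num2 : 2 * 289 ^ 2 * (289 : ℝ)⁻¹ ^ 201 ≤ (2 : ℝ)⁻¹ ^ 101 := by
  norm_num

lemma num3 : 2 * 289 ^ 2 * (289 : ℝ)⁻¹ ^ 201 * 289 ^ 200 = 578 := by
  norm_num

end IterAux

open IterAux in
theorem iter_numbers : ∃ J : ℕ, ∀ j₀ : ℕ, J ≤ j₀ → ∀ (P : ℕ → ℝ → ℝ) (g : ℕ → ℝ),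
    (∀ j s, 0 ≤ P j s) → (∀ j s, P j s ≤ 1) → (∀ j, Antitone (P j)) →
    (∀ s, 2 * (16 : ℝ) ^ (2 * j₀) ≤ s → P j₀ s = 0) →
    (∀ j, j₀ ≤ j → (4 : ℝ) ^ j ≤ g j) →
    (∀ j, j₀ ≤ j → ∀ s, 0 ≤ s →
      P (j + 1) s ≤ 2 * 289 * P j (s + g j) + 2 * 289 ^ 2 * P j 0 * P j ((s + g j) / 289)) →
    (∀ j, j₀ ≤ j → j ≤ 7 * j₀ → P j 0 ≤ (289 : ℝ)⁻¹ ^ 201) →
    ∃ C : ℝ, ∀ j, j₀ ≤ j → P j 0 ≤ C * (2 : ℝ)⁻¹ ^ (100 * j) := by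
  refine ⟨2, fun j₀ hJ P g h0 h1 hA hz hg hrec hρ => ?_⟩
  have hgpos : ∀ j, j₀ ≤ j → 0 < g j := fun j hj => lt_of_lt_of_le (by positivity) (hg j hj)
  -- (i)
  have hi : ∀ L, (∀ i, j₀ ≤ i → i < j₀ + L → P i 0 ≤ (289 : ℝ)⁻¹ ^ 201) → ∀ s, 0 < s →
      P (j₀ + L) s ≤ 1156 ^ L * (2 * 16 ^ (2 * j₀) / s) ^ 200 := by
    intro L
    induction L with
    | zero =>
      intro _ s hs
      rw [pow_zero, one_mul, add_zero]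
      by_cases hc : 2 * (16 : ℝ) ^ (2 * j₀) ≤ s
      · rw [hz s hc]; positivity
      · push Not at hc
        exact (h1 _ _).trans (one_le_pow₀ ((one_le_div hs).2 hc.le))
    | succ L ih =>
      intro hh s hs
      have ih' := ih (fun i h h' => hh i h (by omega))
      have hj : j₀ ≤ j₀ + L := by omega
      have r := hrec (j₀ + L) hj s hs.le
      have hg0 := hgpos _ hj
      have a1 : P (j₀ + L) (s + g (j₀ + L)) ≤ 1156 ^ L * (2 * 16 ^ (2 * j₀) / s) ^ 200 :=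
        (hA _ (by linarith)).trans (ih' s hs)
      have a2 : P (j₀ + L) ((s + g (j₀ + L)) / 289) ≤
          1156 ^ L * (2 * 16 ^ (2 * j₀) / s) ^ 200 * 289 ^ 200 := by
        have b1 : P (j₀ + L) ((s + g (j₀ + L)) / 289) ≤ P (j₀ + L) (s / 289) :=
          hA _ (by gcongr; linarith)
        refine b1.trans ((ih' (s / 289) (by positivity)).trans (le_of_eq ?_))
        rw [div_div_eq_mul_div, mul_div_right_comm, mul_pow]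
        ring
      have a3 : P (j₀ + L) 0 ≤ (289 : ℝ)⁻¹ ^ 201 := hh _ hj (by omega)
      have a4 : P (j₀ + L) 0 * P (j₀ + L) ((s + g (j₀ + L)) / 289) ≤
          (289 : ℝ)⁻¹ ^ 201 * (1156 ^ L * (2 * 16 ^ (2 * j₀) / s) ^ 200 * 289 ^ 200) :=
        mul_le_mul a3 a2 (h0 _ _) (by positivity)
      obtain ⟨Z, hZ⟩ : ∃ Z : ℝ, Z = 1156 ^ L * (2 * 16 ^ (2 * j₀) / s) ^ 200 := ⟨_, rfl⟩
      rw [← hZ] at a1 a4
      have e : (1156 : ℝ) ^ (L + 1) * (2 * 16 ^ (2 * j₀) / s) ^ 200 = 1156 * Z := by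
        rw [hZ, pow_succ]; ring
      rw [e, show j₀ + (L + 1) = j₀ + L + 1 by ring]
      have a5 : 2 * 289 ^ 2 * ((289 : ℝ)⁻¹ ^ 201 * (Z * 289 ^ 200)) = 578 * Z := by
        rw [← num3]; ring
      have a6 := mul_le_mul_of_nonneg_left a4 (show (0 : ℝ) ≤ 2 * 289 ^ 2 by norm_num)
      rw [a5] at a6
      calc P (j₀ + L + 1) s ≤ _ := r
        _ = 2 * 289 * P (j₀ + L) (s + g (j₀ + L)) +
            2 * 289 ^ 2 * (P (j₀ + L) 0 * P (j₀ + L) ((s + g (j₀ + L)) / 289)) := by ring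
        _ ≤ 2 * 289 * Z + 578 * Z := add_le_add (mul_le_mul_of_nonneg_left a1 (by norm_num)) a6
        _ = 1156 * Z := by ring
  -- (ii)
  have hii : ∀ m, (∀ i, j₀ ≤ i → i < 7 * j₀ + m → P i 0 ≤ (289 : ℝ)⁻¹ ^ 201) →
      P (7 * j₀ + m) (g (7 * j₀ + m)) ≤ 2 ^ 200 * (2 : ℝ)⁻¹ ^ (160 * (7 * j₀ + m)) := by
    intro m hh
    have e : 7 * j₀ + m = j₀ + (6 * j₀ + m) := by ring
    have b1 : P (7 * j₀ + m) (g (7 * j₀ + m)) ≤ P (7 * j₀ + m) ((4 : ℝ) ^ (7 * j₀ + m)) :=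
      hA _ (hg _ (by omega))
    have b2 := hi (6 * j₀ + m) (fun i h h' => hh i h (by omega)) ((4 : ℝ) ^ (7 * j₀ + m))
      (by positivity)
    rw [← e] at b2
    exact b1.trans (b2.trans (key1 j₀ m))
  -- (iii)
  have hiii : ∀ m, ∀ i, j₀ ≤ i → i ≤ 7 * j₀ + m → P i 0 ≤ (289 : ℝ)⁻¹ ^ 201 := by
    intro m
    induction m with
    | zero => intro i hi1 hi2; exact hρ i hi1 (by omega)
    | succ m ih =>
      intro i hi1 hi2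
      rcases Nat.lt_or_ge i (7 * j₀ + (m + 1)) with hlt | hge
      · exact ih i hi1 (by omega)
      · obtain rfl : i = 7 * j₀ + m + 1 := by omega
        have hj : j₀ ≤ 7 * j₀ + m := by omega
        have r := hrec (7 * j₀ + m) hj 0 le_rfl
        rw [zero_add] at r
        have c1 := hii m (fun i h h' => ih i h h'.le)
        have c2 : P (7 * j₀ + m) (g (7 * j₀ + m)) ≤ 2 ^ 200 * (2 : ℝ)⁻¹ ^ 2240 := by
          refine c1.trans (mul_le_mul_of_nonneg_left ?_ (by positivity))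
          exact pow_le_pow_of_le_one (by norm_num) (by norm_num) (by omega)
        have c3 := ih (7 * j₀ + m) hj le_rfl
        have c4 : P (7 * j₀ + m) (g (7 * j₀ + m) / 289) ≤ (289 : ℝ)⁻¹ ^ 201 :=
          (hA _ (by have := hgpos _ hj; positivity)).trans c3
        have c5 : P (7 * j₀ + m) 0 * P (7 * j₀ + m) (g (7 * j₀ + m) / 289) ≤
            (289 : ℝ)⁻¹ ^ 201 * (289 : ℝ)⁻¹ ^ 201 := mul_le_mul c3 c4 (h0 _ _) (by positivity)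
        have c6 := mul_le_mul_of_nonneg_left c5 (show (0 : ℝ) ≤ 2 * 289 ^ 2 by norm_num)
        have c7 := mul_le_mul_of_nonneg_left c2 (show (0 : ℝ) ≤ 2 * 289 by norm_num)
        calc P (7 * j₀ + m + 1) 0 ≤ _ := r
          _ = 2 * 289 * P (7 * j₀ + m) (g (7 * j₀ + m)) +
            2 * 289 ^ 2 * (P (7 * j₀ + m) 0 * P (7 * j₀ + m) (g (7 * j₀ + m) / 289)) := by ring
          _ ≤ 2 * 289 * ((2 : ℝ) ^ 200 * (2 : ℝ)⁻¹ ^ 2240) +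
              2 * 289 ^ 2 * ((289 : ℝ)⁻¹ ^ 201 * (289 : ℝ)⁻¹ ^ 201) := add_le_add c7 c6
          _ = 2 * 289 * ((2 : ℝ) ^ 200 * (2 : ℝ)⁻¹ ^ 2240) +
              2 * 289 ^ 2 * (289 : ℝ)⁻¹ ^ 201 * (289 : ℝ)⁻¹ ^ 201 := by rw [mul_assoc (2 * 289 ^ 2 : ℝ)]
          _ ≤ _ := num1
  -- (iv)
  refine ⟨2 ^ (700 * j₀) * 2 ^ 400, ?_⟩
  have hC : ∀ j, j ≤ 7 * j₀ → (1 : ℝ) ≤ 2 ^ (700 * j₀) * 2 ^ 400 * (2 : ℝ)⁻¹ ^ (100 * j) := by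
    intro j hj
    have e1 : (2 : ℝ) ^ (700 * j₀) * (2 : ℝ)⁻¹ ^ (700 * j₀) = 1 := by
      rw [← mul_pow]; norm_num
    have e2 : (2 : ℝ)⁻¹ ^ (700 * j₀) ≤ (2 : ℝ)⁻¹ ^ (100 * j) :=
      pow_le_pow_of_le_one (by norm_num) (by norm_num) (by omega)
    calc (1 : ℝ) = 2 ^ (700 * j₀) * 1 * (2 : ℝ)⁻¹ ^ (700 * j₀) := by rw [mul_one, e1]
      _ ≤ 2 ^ (700 * j₀) * 2 ^ 400 * (2 : ℝ)⁻¹ ^ (700 * j₀) := by
          gcongr; exact one_le_pow₀ (by norm_num)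
      _ ≤ _ := mul_le_mul_of_nonneg_left e2 (by positivity)
  have hiv : ∀ m, P (7 * j₀ + m) 0 ≤
      2 ^ (700 * j₀) * 2 ^ 400 * (2 : ℝ)⁻¹ ^ (100 * (7 * j₀ + m)) := by
    intro m
    induction m with
    | zero => exact (h1 _ _).trans (hC _ (by omega))
    | succ m ih =>
      have hj : j₀ ≤ 7 * j₀ + m := by omega
      have r := hrec (7 * j₀ + m) hj 0 le_rfl
      rw [zero_add] at r
      have c1 := hii m (fun i h h' => hiii m i h h'.le)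
      have c3 := hiii m (7 * j₀ + m) hj le_rfl
      have c4 : P (7 * j₀ + m) (g (7 * j₀ + m) / 289) ≤ P (7 * j₀ + m) 0 :=
        hA _ (by have := hgpos _ hj; positivity)
      have c5 : P (7 * j₀ + m) 0 * P (7 * j₀ + m) (g (7 * j₀ + m) / 289) ≤
          (289 : ℝ)⁻¹ ^ 201 * P (7 * j₀ + m) 0 := mul_le_mul c3 c4 (h0 _ _) (by positivity)
      have c6 := mul_le_mul_of_nonneg_left c5 (show (0 : ℝ) ≤ 2 * 289 ^ 2 by norm_num)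
      have c7 := mul_le_mul_of_nonneg_left c1 (show (0 : ℝ) ≤ 2 * 289 by norm_num)
      have c8 : 2 * 289 ^ 2 * ((289 : ℝ)⁻¹ ^ 201 * P (7 * j₀ + m) 0) ≤
          (2 : ℝ)⁻¹ ^ 101 * (2 ^ (700 * j₀) * 2 ^ 400 * (2 : ℝ)⁻¹ ^ (100 * (7 * j₀ + m))) := by
        rw [← mul_assoc]
        exact mul_le_mul num2 ih (h0 _ _) (by positivity)
      have c9 : 2 * 289 * ((2 : ℝ) ^ 200 * (2 : ℝ)⁻¹ ^ (160 * (7 * j₀ + m))) ≤
          (2 : ℝ)⁻¹ ^ 101 * (2 ^ (700 * j₀) * 2 ^ 400 * (2 : ℝ)⁻¹ ^ (100 * (7 * j₀ + m))) := by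
        have d1 : (2 : ℝ)⁻¹ ^ (160 * (7 * j₀ + m)) ≤ (2 : ℝ)⁻¹ ^ (100 * (7 * j₀ + m)) :=
          pow_le_pow_of_le_one (by norm_num) (by norm_num) (by omega)
        have d2 : (1 : ℝ) ≤ 2 ^ (700 * j₀) := one_le_pow₀ (by norm_num)
        obtain ⟨X, hX⟩ : ∃ X : ℝ, X = (2 : ℝ)⁻¹ ^ (100 * (7 * j₀ + m)) := ⟨_, rfl⟩
        rw [← hX] at d1 ⊢
        have hX0 : 0 ≤ X := by rw [hX]; positivity
        calc 2 * 289 * ((2 : ℝ) ^ 200 * (2 : ℝ)⁻¹ ^ (160 * (7 * j₀ + m))) ≤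
              2 * 289 * ((2 : ℝ) ^ 200 * X) := by gcongr
          _ = (2 * 289 * 2 ^ 200) * X := by ring
          _ ≤ ((2 : ℝ)⁻¹ ^ 101 * (1 * 2 ^ 400)) * X := by
              refine mul_le_mul_of_nonneg_right ?_ hX0
              rw [show 400 = 200 * 2 by norm_num, pow_mul]
              norm_num
          _ ≤ ((2 : ℝ)⁻¹ ^ 101 * (2 ^ (700 * j₀) * 2 ^ 400)) * X := by gcongr
          _ = _ := by ring
      calc P (7 * j₀ + (m + 1)) 0 ≤ _ := r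
        _ = 2 * 289 * P (7 * j₀ + m) (g (7 * j₀ + m)) +
            2 * 289 ^ 2 * (P (7 * j₀ + m) 0 * P (7 * j₀ + m) (g (7 * j₀ + m) / 289)) := by ring
        _ ≤ _ := add_le_add (c7.trans c9) (c6.trans c8)
        _ = _ := by
          rw [show 100 * (7 * j₀ + (m + 1)) = 100 * (7 * j₀ + m) + 100 by ring, pow_add]
          ring
  intro j hj
  rcases Nat.lt_or_ge j (7 * j₀) with hlt | hge
  · exact (h1 _ _).trans (hC j hlt.le)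
  · obtain ⟨m, rfl⟩ := Nat.exists_eq_add_of_le hge
    exact hiv m

end Pool.Agent.SAWP
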