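import Mathlib

/-!
# SAWP, case U: the sequences `ε̂_j`, `b_j` (module U12; paper 3.3)

`ε_j ≥ 0` with `∑_j ε_j ≤ β/16` (finite support in `[j₀,7j₀]`).  Define `ε̂_{j₀} = max ε_{j₀} 4^{-j₀}`, `ε̂_{j+1} = max (max ε_{j+1} (ε̂_j/4)) 4^{-(j+1)}`,
`b_{j₀} = b+β`, `b_{j+1} = b_j + 4 ε̂_j`.  Then `ε̂_{j+1} ≤ ε_{j+1} + ε̂_j/4 + 4^{-(j+1)}`, so
`∑_{j₀≤j<n} ε̂_j ≤ (4/3)(∑ ε_j + ∑_{j≥j₀} 4^{-j}) ≤ (4/3)(β/16 + (4/3) 4^{-j₀})` and `b_j ≤ b + β + β/3 + (64/9) 4^{-j₀} ≤ b+2β` when `4^{-j₀} ≤ β/16`.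
-/

set_option autoImplicit false

namespace Pool.Agent.SAWP

namespace SeqAux

/-- The sequence `ε̂`, shifted to start at `0`. -/
noncomputable def g (ε : ℕ → ℝ) (j₀ : ℕ) : ℕ → ℝ
  | 0 => max (ε j₀) ((4 : ℝ)⁻¹ ^ j₀)
  | n + 1 => max (max (ε (j₀ + (n + 1))) (g ε j₀ n / 4)) ((4 : ℝ)⁻¹ ^ (j₀ + (n + 1)))

lemma g_ge_eps (ε : ℕ → ℝ) (j₀ n : ℕ) : ε (j₀ + n) ≤ g ε j₀ n := by
  cases n with
  | zero => exact le_max_left _ _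
  | succ n => exact (le_max_left _ _).trans (le_max_left _ _)

lemma g_ge_pow (ε : ℕ → ℝ) (j₀ n : ℕ) : (4 : ℝ)⁻¹ ^ (j₀ + n) ≤ g ε j₀ n := by
  cases n with
  | zero => exact le_max_right _ _
  | succ n => exact le_max_right _ _

lemma g_pos (ε : ℕ → ℝ) (j₀ n : ℕ) : 0 < g ε j₀ n :=
  lt_of_lt_of_le (by positivity) (g_ge_pow ε j₀ n)

lemma g_quarter (ε : ℕ → ℝ) (j₀ n : ℕ) : g ε j₀ n / 4 ≤ g ε j₀ (n + 1) :=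
  (le_max_right _ _).trans (le_max_left _ _)

lemma g_succ_le {ε : ℕ → ℝ} (hε : ∀ j, 0 ≤ ε j) (j₀ n : ℕ) :
    g ε j₀ (n + 1) ≤ ε (j₀ + (n + 1)) + g ε j₀ n / 4 + (4 : ℝ)⁻¹ ^ (j₀ + (n + 1)) := by
  have h1 := hε (j₀ + (n + 1))
  have h2 := g_pos ε j₀ n
  have h3 : (0 : ℝ) < (4 : ℝ)⁻¹ ^ (j₀ + (n + 1)) := by positivity
  refine max_le (max_le ?_ ?_) ?_ <;> linarith

lemma g_zero_le {ε : ℕ → ℝ} (hε : ∀ j, 0 ≤ ε j) (j₀ : ℕ) :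
    g ε j₀ 0 ≤ ε j₀ + (4 : ℝ)⁻¹ ^ j₀ := by
  have h1 := hε j₀
  have h3 : (0 : ℝ) < (4 : ℝ)⁻¹ ^ j₀ := by positivity
  refine max_le ?_ ?_ <;> linarith

lemma main_sum {ε : ℕ → ℝ} (hε : ∀ j, 0 ≤ ε j) (j₀ n : ℕ) :
    ∑ i ∈ Finset.range n, g ε j₀ i + 4 / 3 * g ε j₀ n ≤
      4 / 3 * (∑ i ∈ Finset.range (n + 1), ε (j₀ + i) +
        ∑ i ∈ Finset.range (n + 1), (4 : ℝ)⁻¹ ^ (j₀ + i)) := by
  induction n with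
  | zero =>
    have := g_zero_le hε j₀
    simp only [Finset.range_zero, Finset.sum_empty, zero_add, Finset.sum_range_one, add_zero]
    linarith
  | succ n ih =>
    have := g_succ_le hε j₀ n
    rw [Finset.sum_range_succ _ n, Finset.sum_range_succ _ (n + 1),
      Finset.sum_range_succ _ (n + 1)]
    linarith

lemma sum_eps_le {ε : ℕ → ℝ} {β : ℝ} {j₀ : ℕ} (hε : ∀ j, 0 ≤ ε j)
    (hout : ∀ j, 7 * j₀ < j → ε j = 0)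
    (hsum : ∑ j ∈ Finset.Icc j₀ (7 * j₀), ε j ≤ β / 16) (n : ℕ) :
    ∑ i ∈ Finset.range n, ε (j₀ + i) ≤ β / 16 := by
  refine le_trans ?_ hsum
  have h1 : ∑ i ∈ Finset.range n, ε (j₀ + i) = ∑ j ∈ Finset.Ico j₀ (j₀ + n), ε j := by
    rw [Finset.sum_Ico_eq_sum_range, Nat.add_sub_cancel_left]
  rw [h1]
  have h2 : ∑ j ∈ Finset.Ico j₀ (j₀ + n), ε j =
      ∑ j ∈ (Finset.Ico j₀ (j₀ + n)).filter (fun j => j ≤ 7 * j₀), ε j := by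
    symm
    refine Finset.sum_subset (Finset.filter_subset _ _) ?_
    intro j hj hj'
    apply hout
    rw [Finset.mem_filter] at hj'
    by_contra h
    exact hj' ⟨hj, not_lt.1 h⟩
  rw [h2]
  refine Finset.sum_le_sum_of_subset_of_nonneg ?_ fun j _ _ => hε j
  intro j hj
  rw [Finset.mem_filter, Finset.mem_Ico] at hj
  rw [Finset.mem_Icc]
  exact ⟨hj.1.1, hj.2⟩

lemma sum_pow_le (j₀ n : ℕ) :
    ∑ i ∈ Finset.range n, (4 : ℝ)⁻¹ ^ (j₀ + i) ≤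
      4 / 3 * (4 : ℝ)⁻¹ ^ j₀ - 4 / 3 * (4 : ℝ)⁻¹ ^ (j₀ + n) := by
  induction n with
  | zero => simp
  | succ n ih =>
    rw [Finset.sum_range_succ]
    have : (4 : ℝ)⁻¹ ^ (j₀ + (n + 1)) = (4 : ℝ)⁻¹ ^ (j₀ + n) * 4⁻¹ := by
      rw [← add_assoc, pow_succ]
    rw [this]
    linarith

lemma total {ε : ℕ → ℝ} {β : ℝ} {j₀ : ℕ} (hj : (4 : ℝ)⁻¹ ^ j₀ ≤ β / 16) (hε : ∀ j, 0 ≤ ε j)
    (hout : ∀ j, 7 * j₀ < j → ε j = 0)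
    (hsum : ∑ j ∈ Finset.Icc j₀ (7 * j₀), ε j ≤ β / 16) (n : ℕ) :
    ∑ i ∈ Finset.range n, g ε j₀ i + 4 / 3 * g ε j₀ n ≤ 7 / 36 * β := by
  have h1 := main_sum hε j₀ n
  have h2 := sum_eps_le hε hout hsum (n + 1)
  have h3 := sum_pow_le j₀ (n + 1)
  have h4 : (0 : ℝ) < (4 : ℝ)⁻¹ ^ (j₀ + (n + 1)) := by positivity
  linarith

end SeqAux

open SeqAux in
theorem seq_exists {b β : ℝ} (hβ : 0 < β) {j₀ : ℕ} (hj : (4 : ℝ)⁻¹ ^ j₀ ≤ β / 16) (ε : ℕ → ℝ)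
    (hε : ∀ j, 0 ≤ ε j) (hout : ∀ j, 7 * j₀ < j → ε j = 0)
    (hsum : ∑ j ∈ Finset.Icc j₀ (7 * j₀), ε j ≤ β / 16) :
    ∃ eh bj : ℕ → ℝ, bj j₀ = b + β ∧ ∀ j, j₀ ≤ j →
      ε j ≤ eh j ∧ (4 : ℝ)⁻¹ ^ j ≤ eh j ∧ eh j / 4 ≤ eh (j + 1) ∧ eh j ≤ β ∧
      bj (j + 1) = bj j + 4 * eh j ∧ b + β ≤ bj j ∧ bj j ≤ b + 2 * β := by
  refine ⟨fun j => g ε j₀ (j - j₀),
    fun j => b + β + 4 * ∑ i ∈ Finset.range (j - j₀), g ε j₀ i, by simp, ?_⟩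
  intro j hj'
  obtain ⟨n, rfl⟩ := Nat.exists_eq_add_of_le hj'
  have e1 : j₀ + n - j₀ = n := by omega
  have e2 : j₀ + n + 1 - j₀ = n + 1 := by omega
  have hs0 : 0 ≤ ∑ i ∈ Finset.range n, g ε j₀ i :=
    Finset.sum_nonneg fun i _ => (g_pos ε j₀ i).le
  have hg0 := g_pos ε j₀ n
  have ht := total hj hε hout hsum n
  simp only [e1, e2]
  refine ⟨g_ge_eps ε j₀ n, g_ge_pow ε j₀ n, g_quarter ε j₀ n, by linarith, ?_, by linarith,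
    by linarith⟩
  rw [Finset.sum_range_succ]
  ring

end Pool.Agent.SAWP
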