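import Pool.Agent.SAWP.U.TypicalDet

/-!
# SAWP, case U: typical rectangles, probability (module U10; paper (3.3a))

`kbad_prob`: `P(KBad … (sq c (4·16^k))) = rho … k` for every corner `c` (translation invariance, `PR_perm`; `KBad b β A₀ w R` depends only on
the edges inside `R`: `dep_KBad`), in particular for `Rk k x`.
`typical_prob`: with `J` from `typical_det`: `{0 < Mf (Op ω) Q bj κ}` is contained in the union over `m ≤ k ≤ j` and over the distinct squares
`Rk k x`, `x ∈ bd Q`, of the K-bad events; the number of squares is at most the number of different values of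
`(x₁/16^k, x₂/16^k)` for `x ∈ bd Q`, at most `4 (16^{j-k}+1) ≤ 8·16^{j-k}` (each side of `Q` has `≤ 16^j` consecutive vertices).
-/

set_option autoImplicit false

open MeasureTheory

namespace Pool.Agent.SAWP

namespace TypProb

lemma gs_dep {ω ω' : Cfg} {R : Finset V} (h : ∀ e ∈ (↑(eF R) : Set Edge), ω e = ω' e) (b : ℝ)
    (Q : List V → Prop) (x y : V) : gs (Op ω) R b Q x y = gs (Op ω') R b Q x y := by
  have key : ∀ {ω ω' : Cfg}, (∀ e ∈ (↑(eF R) : Set Edge), ω e = ω' e) → ∀ l,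
      IsP (Op ω) x y l → (∀ z ∈ l, z ∈ R) → IsP (Op ω') x y l := by
    intro ω ω' h l hl hR
    have h1 := hl.restrict (R := (↑R : Set V)) (fun v hv => by exact_mod_cast hR v hv)
    refine h1.mono ?_
    rintro e ⟨he, heR⟩
    rw [← coe_eF] at heR
    have := h e heR
    simp only [Op, Set.mem_ofPred_eq] at he ⊢
    rw [← this]
    exact he
  refine gs_congr fun l => ⟨fun hl => ?_, fun hl => ?_⟩
  · exact ⟨key h l hl.1 hl.2.1, hl.2⟩
  · exact ⟨key (fun e he => (h e he).symm) l hl.1 hl.2.1, hl.2⟩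

/-- translation of a step -/
lemma step_tr {O O' : Set Edge} (c : V) (hO : ∀ (x : V) (t : Bool), ((x + c, t) : Edge) ∈ O' ↔ (x, t) ∈ O)
    (x y : V) : Step O' (x + c) (y + c) ↔ Step O x y := by
  have h1 : Adj (x + c) (y + c) ↔ Adj x y := by
    unfold Adj
    simp only [Prod.fst_add, Prod.snd_add, add_sub_add_right_eq_sub]
  have h2 : edgeOf (x + c) (y + c) = (((edgeOf x y).1 + c, (edgeOf x y).2) : Edge) := by
    unfold edgeOf
    ext
    · simp [min_add_add_right]
    · simp [min_add_add_right]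
    · simp
  unfold Step
  rw [h1, h2, hO]

lemma isP_tr {O O' : Set Edge} (c : V) (hO : ∀ (x : V) (t : Bool), ((x + c, t) : Edge) ∈ O' ↔ (x, t) ∈ O)
    (x y : V) (l : List V) : IsP O' (x + c) (y + c) (l.map (· + c)) ↔ IsP O x y l := by
  have hinj : Function.Injective (fun z : V => z + c) := fun a b h => add_right_cancel h
  unfold IsP IsW
  rw [List.isChain_map, List.head?_map, List.getLast?_map, List.nodup_map_iff hinj]
  have h1 : (l.IsChain fun a b => Step O' (a + c) (b + c)) ↔ l.IsChain (Step O) := by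
    have : (fun a b => Step O' (a + c) (b + c)) = Step O := by
      funext a b
      exact propext (step_tr c hO a b)
    rw [this]
  have h2 : Option.map (fun z : V => z + c) l.head? = some (x + c) ↔ l.head? = some x := by
    rw [← Option.map_some (f := fun z : V => z + c)]
    exact (Option.map_injective hinj).eq_iff
  have h3 : Option.map (fun z : V => z + c) l.getLast? = some (y + c) ↔ l.getLast? = some y := by
    rw [← Option.map_some (f := fun z : V => z + c)]
    exact (Option.map_injective hinj).eq_iff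
  rw [h1, h2, h3]

lemma gs_tr {O O' : Set Edge} (c : V) (hO : ∀ (x : V) (t : Bool), ((x + c, t) : Edge) ∈ O' ↔ (x, t) ∈ O)
    {R R' : Finset V} (hR : ∀ z : V, z + c ∈ R' ↔ z ∈ R) (b : ℝ) {Q Q' : List V → Prop}
    (hQ : ∀ l, Q' (l.map (· + c)) ↔ Q l) (x y : V) :
    gs O' R' b Q' (x + c) (y + c) = gs O R b Q x y := by
  classical
  unfold gs
  symm
  refine Finset.sum_bij' (fun l _ => l.map (· + c)) (fun l _ => l.map (· - c)) ?_ ?_ ?_ ?_ ?_
  · intro l hl
    rw [Finset.mem_filter, mem_saws] at hl ⊢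
    refine ⟨⟨(isP_tr c hO x y l).2 hl.1.1, ?_⟩, (hQ l).2 hl.2⟩
    intro z hz
    obtain ⟨w, hw, rfl⟩ := List.mem_map.1 hz
    exact (hR w).2 (hl.1.2 w hw)
  · intro l hl
    have e : (l.map (· - c)).map (· + c) = l := by
      rw [List.map_map]
      have : ((fun z : V => z + c) ∘ fun z : V => z - c) = id := by
        funext z
        simp
      rw [this, List.map_id]
    rw [Finset.mem_filter, mem_saws] at hl ⊢
    refine ⟨⟨(isP_tr c hO x y _).1 (by rw [e]; exact hl.1.1), ?_⟩, (hQ _).1 (by rw [e]; exact hl.2)⟩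
    intro z hz
    obtain ⟨w, hw, rfl⟩ := List.mem_map.1 hz
    rw [← hR, sub_add_cancel]
    exact hl.1.2 w hw
  · intro l _
    rw [List.map_map]
    have : ((fun z : V => z - c) ∘ fun z : V => z + c) = id := by
      funext z
      simp
    rw [this, List.map_id]
  · intro l _
    rw [List.map_map]
    have : ((fun z : V => z + c) ∘ fun z : V => z - c) = id := by
      funext z
      simp
    rw [this, List.map_id]
  · intro l _
    simp [len]

lemma exists_tr {R R' : Finset V} (c : V) (hR : ∀ z : V, z + c ∈ R' ↔ z ∈ R)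
    (P : V → Prop) : (∃ s ∈ R', P s) ↔ ∃ s ∈ R, P (s + c) := by
  constructor
  · rintro ⟨s, hs, h⟩
    refine ⟨s - c, ?_, ?_⟩
    · rw [← hR, sub_add_cancel]; exact hs
    · rw [sub_add_cancel]; exact h
  · rintro ⟨s, hs, h⟩
    exact ⟨s + c, (hR s).2 hs, h⟩

lemma kbad_tr (b β A₀ : ℝ) (w : ℕ) (c : V) {ω ω' : Cfg}
    (hω : ∀ (x : V) (t : Bool), ω' (x + c, t) = ω (x, t))
    {R R' : Finset V} (hR : ∀ z : V, z + c ∈ R' ↔ z ∈ R) :
    KBad b β A₀ w R' ω' ↔ KBad b β A₀ w R ω := by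
  have hO : ∀ (x : V) (t : Bool), ((x + c, t) : Edge) ∈ Op ω' ↔ (x, t) ∈ Op ω := by
    intro x t
    simp only [Op, Set.mem_ofPred_eq, hω]
  unfold KBad
  refine or_congr ?_ (or_congr ?_ ?_)
  · rw [exists_tr c hR]
    refine exists_congr fun s => and_congr_right fun _ => ?_
    rw [exists_tr c hR]
    refine exists_congr fun m => and_congr_right fun _ => ?_
    rw [gs_tr c hO hR b (Q := btw s m) (fun l => by
      simp only [btw, List.forall_mem_map, Prod.fst_add, min_add_add_right, max_add_add_right,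
        add_le_add_iff_right])]
    simp only [Prod.fst_add, add_sub_add_right_eq_sub]
  · rw [exists_tr c hR]
    refine exists_congr fun s => and_congr_right fun _ => ?_
    rw [exists_tr c hR]
    refine exists_congr fun m => and_congr_right fun _ => ?_
    rw [gs_tr c hO hR b (Q := vbtw s m) (fun l => by
      simp only [vbtw, List.forall_mem_map, Prod.snd_add, min_add_add_right, max_add_add_right,
        add_le_add_iff_right])]
    simp only [Prod.snd_add, add_sub_add_right_eq_sub]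
  · rw [exists_tr c hR]
    refine exists_congr fun s => and_congr_right fun _ => ?_
    rw [exists_tr c hR]
    refine exists_congr fun m => and_congr_right fun _ => ?_
    rw [gs_tr c hO hR b (Q := fun l => dlt w l ∧ hext s l ∧ vext m l) (fun l => by
      simp only [dlt, hext, vext, List.forall_mem_map, Prod.fst_add, Prod.snd_add,
        add_sub_add_right_eq_sub, add_le_add_iff_right])]

/-- the number of squares -/
lemma card_corners {j k : ℕ} (hkj : k ≤ j) {Q : Finset V} (hQ : IsRect (16 ^ j) Q) :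
    ((bd Q).image (fun x => (x.1 / (16 : ℤ) ^ k, x.2 / (16 : ℤ) ^ k))).card ≤
      8 * 16 ^ (j - k) := by
  classical
  obtain ⟨a, b, c, d, rfl, hb, hd⟩ := hQ
  have hp : (0 : ℤ) < 16 ^ k := by positivity
  have hpow : (16 : ℤ) ^ j = 16 ^ (j - k) * 16 ^ k := by
    rw [← pow_add]; congr 1; omega
  have key : ∀ s t : ℤ, t < s + ((16 ^ j : ℕ) : ℤ) → t / 16 ^ k ≤ s / 16 ^ k + 16 ^ (j - k) := by
    intro s t hst
    push_cast at hst
    have h1 : t / 16 ^ k ≤ (s + 16 ^ (j - k) * 16 ^ k) / 16 ^ k :=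
      Int.ediv_le_ediv hp (by rw [← hpow]; exact hst.le)
    rwa [Int.add_mul_ediv_right _ _ hp.ne'] at h1
  have k1 := key a b hb
  have k2 := key c d hd
  set S := Finset.Icc (a / (16 : ℤ) ^ k) (b / 16 ^ k) with hS
  set T := Finset.Icc (c / (16 : ℤ) ^ k) (d / 16 ^ k) with hT
  have hcS : S.card ≤ 16 ^ (j - k) + 1 := by
    rw [hS, Int.card_Icc]
    have : (b / (16 : ℤ) ^ k + 1 - a / 16 ^ k) ≤ ((16 ^ (j - k) + 1 : ℕ) : ℤ) := by
      push_cast; linarith
    exact Int.toNat_le.2 this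
  have hcT : T.card ≤ 16 ^ (j - k) + 1 := by
    rw [hT, Int.card_Icc]
    have : (d / (16 : ℤ) ^ k + 1 - c / 16 ^ k) ≤ ((16 ^ (j - k) + 1 : ℕ) : ℤ) := by
      push_cast; linarith
    exact Int.toNat_le.2 this
  have hsub : (bd (rect a b c d)).image (fun x => (x.1 / (16 : ℤ) ^ k, x.2 / (16 : ℤ) ^ k)) ⊆
      ((({a / 16 ^ k} : Finset ℤ) ×ˢ T) ∪ (({b / 16 ^ k} : Finset ℤ) ×ˢ T)) ∪
      ((S ×ˢ ({c / 16 ^ k} : Finset ℤ)) ∪ (S ×ˢ ({d / 16 ^ k} : Finset ℤ))) := by
    intro z hz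
    obtain ⟨x, hx, rfl⟩ := Finset.mem_image.1 hz
    obtain ⟨h1, h2⟩ := bd_rect hx
    rw [mem_rect] at h1
    have m1 : x.1 / (16 : ℤ) ^ k ∈ S := by
      rw [hS, Finset.mem_Icc]
      exact ⟨Int.ediv_le_ediv hp h1.1, Int.ediv_le_ediv hp h1.2.1⟩
    have m2 : x.2 / (16 : ℤ) ^ k ∈ T := by
      rw [hT, Finset.mem_Icc]
      exact ⟨Int.ediv_le_ediv hp h1.2.2.1, Int.ediv_le_ediv hp h1.2.2.2⟩
    simp only [Finset.mem_union, Finset.mem_product, Finset.mem_singleton]
    rcases h2 with h2 | h2 | h2 | h2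
    · exact Or.inl (Or.inl ⟨by rw [h2], m2⟩)
    · exact Or.inl (Or.inr ⟨by rw [h2], m2⟩)
    · exact Or.inr (Or.inl ⟨m1, by rw [h2]⟩)
    · exact Or.inr (Or.inr ⟨m1, by rw [h2]⟩)
  refine (Finset.card_le_card hsub).trans ?_
  refine (Finset.card_union_le _ _).trans ?_
  have h3 := Finset.card_union_le (({a / 16 ^ k} : Finset ℤ) ×ˢ T) (({b / 16 ^ k} : Finset ℤ) ×ˢ T)
  have h4 := Finset.card_union_le (S ×ˢ ({c / 16 ^ k} : Finset ℤ)) (S ×ˢ ({d / 16 ^ k} : Finset ℤ))
  rw [Finset.card_product, Finset.card_product, Finset.card_singleton, Finset.card_singleton]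
    at h3 h4
  have h5 : 1 ≤ 16 ^ (j - k) := Nat.one_le_pow _ _ (by norm_num)
  omega

end TypProb

open TypProb

theorem dep_KBad (b β A₀ : ℝ) (w : ℕ) (R : Finset V) :
    Dep (↑(eF R) : Set Edge) {ω | KBad b β A₀ w R ω} := by
  intro ω ω' h
  simp only [Set.mem_ofPred_eq, KBad]
  simp only [gs_dep h]

theorem kbad_prob (p : unitInterval) (b β A₀ : ℝ) (i₂ k : ℕ) (c : V) :
    PR p {ω | KBad b β A₀ (16 ^ (k - i₂)) (sq c (4 * 16 ^ k)) ω} = rho p b β A₀ i₂ k := by
  have hm := measurableSet_of_dep (dep_KBad b β A₀ (16 ^ (k - i₂)) (sq (0, 0) (4 * 16 ^ k)))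
  let σ : Edge ≃ Edge := Equiv.prodCongr (Equiv.addRight c) (Equiv.refl Bool)
  unfold rho
  rw [← PR_perm p σ hm]
  congr 1
  ext ω
  simp only [Set.mem_ofPred_eq]
  refine kbad_tr b β A₀ (16 ^ (k - i₂)) c (ω := fun e => ω (σ e)) (ω' := ω) (fun x t => rfl) ?_
  intro z
  rw [mem_sq, mem_sq]
  simp only [Prod.fst_add, Prod.snd_add]
  constructor
  · rintro ⟨h1, h2, h3, h4⟩
    exact ⟨by linarith, by linarith, by linarith, by linarith⟩
  · rintro ⟨h1, h2, h3, h4⟩
    exact ⟨by linarith, by linarith, by linarith, by linarith⟩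

theorem typical_prob (p : unitInterval) (b β A₀ : ℝ) (i₂ : ℕ) (hb : 0 ≤ b) (hβ : 0 < β)
    (hA : 1 ≤ A₀) (hi : A₀ ≤ β / 256 * 16 ^ i₂) : ∃ J : ℕ, ∀ m j : ℕ, J ≤ m → m ≤ j →
      ∀ Q : Finset V, IsRect (16 ^ j) Q → ∀ bj κ : ℝ, b + β ≤ bj → β / 64 * 16 ^ m ≤ κ →
      (4 : ℝ) ^ j ≤ κ →
      PR p {ω | 0 < Mf (Op ω) Q bj κ} ≤
        ∑ k ∈ Finset.Icc m j, 8 * 16 ^ (j - k) * rho p b β A₀ i₂ k := by
  classical
  obtain ⟨J, _, hdet⟩ := typical_det b β A₀ i₂ hb hβ hA hi
  refine ⟨J, fun m j hm hmj Q hQ bj κ hbj hκ1 hκ2 => ?_⟩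
  set corner : ℕ → ℤ × ℤ → V := fun k z => (16 ^ k * (z.1 - 1), 16 ^ k * (z.2 - 1)) with hcorner
  set I : ℕ → Finset (ℤ × ℤ) := fun k =>
    (bd Q).image (fun x => (x.1 / (16 : ℤ) ^ k, x.2 / (16 : ℤ) ^ k)) with hI
  have hsub : {ω : Cfg | 0 < Mf (Op ω) Q bj κ} ⊆ ⋃ k ∈ Finset.Icc m j, ⋃ z ∈ I k,
      {ω | KBad b β A₀ (16 ^ (k - i₂)) (sq (corner k z) (4 * 16 ^ k)) ω} := by
    intro ω hω
    by_contra hcon
    simp only [Set.mem_iUnion, not_exists] at hcon
    have h0 := hdet m j hm hmj ω Q hQ (fun k hk1 hk2 x hx hbad => by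
      refine hcon k (Finset.mem_Icc.2 ⟨hk1, hk2⟩) (x.1 / (16 : ℤ) ^ k, x.2 / (16 : ℤ) ^ k)
        (Finset.mem_image_of_mem _ hx) ?_
      exact hbad) bj κ hbj hκ1 hκ2
    simp only [Set.mem_ofPred_eq] at hω
    rw [h0] at hω
    exact lt_irrefl _ hω
  refine (PR_mono p hsub).trans ((PR_biUnion_le p _ _).trans ?_)
  refine Finset.sum_le_sum fun k hk => ?_
  rw [Finset.mem_Icc] at hk
  refine (PR_biUnion_le p _ _).trans ?_
  rw [Finset.sum_congr rfl fun z _ => kbad_prob p b β A₀ i₂ k (corner k z), Finset.sum_const,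
    nsmul_eq_mul]
  refine mul_le_mul_of_nonneg_right ?_ (PR_nonneg p _)
  have := card_corners hk.2 hQ
  exact_mod_cast this

end Pool.Agent.SAWP
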