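import Pool.Agent.SAWP.U.RecProb
import Pool.Agent.SAWP.U.TypicalProb
import Pool.Agent.SAWP.U.Arith
import Pool.Agent.SAWP.U.Seq
import Pool.Agent.SAWP.U.Iter
import Pool.Agent.SAWP.U.EndU

/-!
# SAWP, case U: assembly (module U15; paper section 3)

If `∑_{k=j₀}^{7j₀} rho k ≤ delta1` for arbitrarily large `j₀` then `UB p (b+2β)`.

Take `j₀` large (larger than the `J` of `typical_prob`, of `iter_numbers`, and such that `4^{-j₀} ≤ β/16`, `2(16·16^j)² ≤ e^{4^j}` and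
`3·4^j - 1 - 2 log 16^j ≥ 4^j` for `j ≥ j₀`).  `a_k = 8 rho_k · 289^{201}`, `∑ a_k ≤ 8·289^{201}·delta1 = 1/16`: `arith_lemma` gives `i_j`.
`ε_j = (β/64) 16^{-i_j}` for `j₀ ≤ j ≤ 7j₀`, `0` otherwise: `seq_exists`.  `κ_j = eh j · 16^j`: `κ_j ≥ 4^j`, `κ_j ≥ ε_j 16^j = (β/64) 16^{j-i_j}`,
`κ_{j+1} = 16 eh(j+1) 16^j ≥ 4 κ_j`, `bj (j+1) = bj j + 4 κ_j/16^j`.
`P j s := ⨆ Q : {Q // IsRect (16^j) Q}, PR p {ω | s < Mf (Op ω) Q (bj j) κ_j}` (bounded by 1, nonempty index),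
`g_j = κ_{j+1} - κ_j - 1 - 2 log 16^j ≥ (3/4) κ_{j+1} - … ≥ 3·4^j - 1 - 2 log 16^j ≥ 4^j` (`κ_{j+1} ≥ 4^{j+1}`).
Recursion: `rec_prob` with `u = 16^j`.  Base: `Mf_le_area`.  Small for `j₀ ≤ j ≤ 7j₀`: `typical_prob` with `m = j - i_j`, and
`∑_{k=m}^{j} 8·16^{j-k} rho_k = 289^{-201} ∑ 16^{j-k} a_k ≤ 289^{-201}`.  `iter_numbers`, `end_U` with `c = b+2β`.
-/

set_option autoImplicit false

open MeasureTheory

namespace Pool.Agent.SAWP

namespace CaseUAux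

/-- The supremum of the probabilities over rectangles of size `u`. -/
noncomputable def PS (p : unitInterval) (u : ℕ) (b κ s : ℝ) : ℝ :=
  ⨆ Q : {Q : Finset V // IsRect u Q}, PR p {ω | s < Mf (Op ω) Q.1 b κ}

instance (u : ℕ) : Nonempty {Q : Finset V // IsRect (16 ^ u) Q} := by
  refine ⟨⟨rect 0 0 0 0, 0, 0, 0, 0, rfl, ?_, ?_⟩⟩ <;> positivity

lemma bdd (p : unitInterval) (u : ℕ) (b κ s : ℝ) :
    BddAbove (Set.range fun Q : {Q : Finset V // IsRect u Q} =>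
      PR p {ω | s < Mf (Op ω) Q.1 b κ}) :=
  ⟨1, by rintro _ ⟨Q, rfl⟩; exact PR_le_one _ _⟩

lemma le_PS (p : unitInterval) {u : ℕ} (b κ s : ℝ) {Q : Finset V} (hQ : IsRect u Q) :
    PR p {ω | s < Mf (Op ω) Q b κ} ≤ PS p u b κ s :=
  le_ciSup (bdd p u b κ s) (⟨Q, hQ⟩ : {Q : Finset V // IsRect u Q})

lemma PS_le (p : unitInterval) {j : ℕ} {b κ s t : ℝ}
    (h : ∀ Q : Finset V, IsRect (16 ^ j) Q → PR p {ω | s < Mf (Op ω) Q b κ} ≤ t) :
    PS p (16 ^ j) b κ s ≤ t :=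
  ciSup_le fun Q => h Q.1 Q.2

lemma PS_nonneg (p : unitInterval) (u : ℕ) (b κ s : ℝ) : 0 ≤ PS p u b κ s :=
  Real.iSup_nonneg fun _ => PR_nonneg _ _

lemma PS_anti (p : unitInterval) (j : ℕ) (b κ : ℝ) : Antitone (PS p (16 ^ j) b κ) := by
  intro s t hst
  refine PS_le p fun Q hQ => ?_
  refine (PR_mono p ?_).trans (le_PS p b κ s hQ)
  intro ω hω
  exact lt_of_le_of_lt hst hω

/-- `1 + 2 j log 16 ≤ 2·4^j` eventually. -/
lemma ev_log : ∃ J : ℕ, ∀ j : ℕ, J ≤ j →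
    (4 : ℝ) ^ j ≤ 3 * 4 ^ j - 1 - 2 * Real.log ((16 : ℝ) ^ j) := by
  refine ⟨2, fun j hj => ?_⟩
  have h1 : Real.log ((16 : ℝ) ^ j) ≤ j * 3 := by
    rw [Real.log_pow]
    have : Real.log 16 ≤ 3 := by
      have h2 : Real.log 16 = 4 * Real.log 2 := by
        rw [show (16 : ℝ) = 2 ^ 4 by norm_num, Real.log_pow]; norm_num
      rw [h2]
      have := Real.log_two_lt_d9
      linarith
    exact mul_le_mul_of_nonneg_left this (Nat.cast_nonneg j)
  have h2 : (1 : ℝ) + 6 * j ≤ 2 * 4 ^ j := by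
    induction j, hj using Nat.le_induction with
    | base => norm_num
    | succ n hn ih =>
      have h3 := ih (by
        rw [Real.log_pow]
        have : Real.log 16 ≤ 3 := by
          have h2 : Real.log 16 = 4 * Real.log 2 := by
            rw [show (16 : ℝ) = 2 ^ 4 by norm_num, Real.log_pow]; norm_num
          rw [h2]
          have := Real.log_two_lt_d9
          linarith
        exact mul_le_mul_of_nonneg_left this (Nat.cast_nonneg n))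
      have h4 : (2 : ℝ) ≤ n := by exact_mod_cast hn
      push_cast
      rw [pow_succ]
      nlinarith
  linarith

/-- `2 (16·16^j)² ≤ exp (4^j)` eventually. -/
lemma ev_exp : ∃ J : ℕ, ∀ j : ℕ, J ≤ j →
    2 * (16 * (16 : ℝ) ^ j) ^ 2 ≤ Real.exp ((4 : ℝ) ^ j) := by
  refine ⟨3, fun j hj => ?_⟩
  have h1 : (16 : ℝ) ≤ Real.exp 3 := by
    have := Real.exp_one_gt_d9
    have h2 : Real.exp 3 = Real.exp 1 ^ 3 := by rw [← Real.exp_nat_mul]; norm_num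
    rw [h2]
    calc (16 : ℝ) ≤ 2.7 ^ 3 := by norm_num
      _ ≤ Real.exp 1 ^ 3 := pow_le_pow_left₀ (by norm_num) (by linarith) 3
  have h2 : (2 : ℝ) ≤ Real.exp 1 := by have := Real.exp_one_gt_d9; linarith
  have h3 : 2 * (16 * (16 : ℝ) ^ j) ^ 2 ≤ Real.exp (1 + 3 * (2 * (j + 1))) := by
    have e1 : 2 * (16 * (16 : ℝ) ^ j) ^ 2 = 2 * 16 ^ (2 * (j + 1)) := by
      rw [← pow_succ', ← pow_mul, mul_comm (j + 1) 2]
    have e2 : Real.exp (1 + 3 * (2 * ((j : ℝ) + 1))) = Real.exp 1 * Real.exp 3 ^ (2 * (j + 1)) := by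
      rw [Real.exp_add, ← Real.exp_nat_mul]
      congr 2
      push_cast
      ring
    rw [e1, e2]
    exact mul_le_mul h2 (pow_le_pow_left₀ (by norm_num) h1 _) (by positivity) (by positivity)
  refine h3.trans (Real.exp_le_exp.2 ?_)
  have h4 : (7 : ℝ) + 6 * j ≤ 4 ^ j := by
    induction j, hj using Nat.le_induction with
    | base => norm_num
    | succ n hn ih =>
      have h5 : (3 : ℝ) ≤ n := by exact_mod_cast hn
      have h6 := ih (by
        have e1 : 2 * (16 * (16 : ℝ) ^ n) ^ 2 = 2 * 16 ^ (2 * (n + 1)) := by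
          rw [← pow_succ', ← pow_mul, mul_comm (n + 1) 2]
        have e2 : Real.exp (1 + 3 * (2 * ((n : ℝ) + 1))) =
            Real.exp 1 * Real.exp 3 ^ (2 * (n + 1)) := by
          rw [Real.exp_add, ← Real.exp_nat_mul]
          congr 2
          push_cast
          ring
        rw [e1, e2]
        exact mul_le_mul h2 (pow_le_pow_left₀ (by norm_num) h1 _) (by positivity) (by positivity))
      push_cast
      rw [pow_succ]
      nlinarith
  linarith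

end CaseUAux

open CaseUAux

theorem caseU (p : unitInterval) {b β A₀ : ℝ} {i₂ : ℕ} (hb : 0 ≤ b) (hβ : 0 < β) (hA : 1 ≤ A₀)
    (hi : A₀ ≤ β / 256 * 16 ^ i₂)
    (h : ∀ J : ℕ, ∃ j₀ : ℕ, J ≤ j₀ ∧
      ∑ k ∈ Finset.Icc j₀ (7 * j₀), rho p b β A₀ i₂ k ≤ delta1) : UB p (b + 2 * β) := by
  obtain ⟨J₁, hJ₁⟩ := typical_prob p b β A₀ i₂ hb hβ hA hi
  obtain ⟨J₂, hJ₂⟩ := iter_numbers
  obtain ⟨J₃, hJ₃⟩ := ev_log
  obtain ⟨J₄, hJ₄⟩ := ev_exp
  obtain ⟨J₅, hJ₅⟩ : ∃ J₅ : ℕ, ∀ j : ℕ, J₅ ≤ j → (4 : ℝ)⁻¹ ^ j ≤ β / 16 := by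
    have h1 : Filter.Tendsto (fun j : ℕ => (4 : ℝ)⁻¹ ^ j) Filter.atTop (nhds 0) :=
      tendsto_pow_atTop_nhds_zero_of_lt_one (by norm_num) (by norm_num)
    have h2 := h1.eventually (Iic_mem_nhds (show (0 : ℝ) < β / 16 by positivity))
    obtain ⟨N, hN⟩ := Filter.eventually_atTop.1 h2
    exact ⟨N, fun j hj => hN j hj⟩
  obtain ⟨j₀, hj₀, hsum⟩ := h (J₁ + J₂ + J₃ + J₄ + J₅)
  have hr : ∀ k, 0 ≤ rho p b β A₀ i₂ k := fun k => PR_nonneg _ _
  -- the arithmetic lemma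
  set a : ℕ → ℝ := fun k => 8 * rho p b β A₀ i₂ k * 289 ^ 201 with ha_def
  have ha : ∀ k, 0 ≤ a k := fun k => by
    have := hr k
    simp only [ha_def]; positivity
  have has : ∑ k ∈ Finset.Icc j₀ (7 * j₀), a k ≤ 1 / 16 := by
    have e1 : ∑ k ∈ Finset.Icc j₀ (7 * j₀), a k =
        8 * 289 ^ 201 * ∑ k ∈ Finset.Icc j₀ (7 * j₀), rho p b β A₀ i₂ k := by
      rw [Finset.mul_sum]
      exact Finset.sum_congr rfl fun k _ => by simp only [ha_def]; ring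
    rw [e1]
    calc 8 * 289 ^ 201 * ∑ k ∈ Finset.Icc j₀ (7 * j₀), rho p b β A₀ i₂ k
        ≤ 8 * 289 ^ 201 * delta1 := mul_le_mul_of_nonneg_left hsum (by positivity)
      _ = 1 / 16 := by
        unfold delta1
        rw [inv_pow]
        have h9 : (289 : ℝ) ^ 201 ≠ 0 := by positivity
        field_simp
        norm_num
  obtain ⟨i, hi1, hi2⟩ := arith_lemma j₀ a ha has
  -- the sequences
  set ε : ℕ → ℝ := fun j => if j₀ ≤ j ∧ j ≤ 7 * j₀ then β / 64 * (16 : ℝ)⁻¹ ^ i j else 0 with hε_def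
  have hε0 : ∀ j, 0 ≤ ε j := by
    intro j
    simp only [hε_def]
    split_ifs
    · positivity
    · exact le_rfl
  have hε1 : ∀ j, 7 * j₀ < j → ε j = 0 := by
    intro j hj
    simp only [hε_def]
    rw [if_neg]
    omega
  have hε2 : ∑ j ∈ Finset.Icc j₀ (7 * j₀), ε j ≤ β / 16 := by
    have e1 : ∑ j ∈ Finset.Icc j₀ (7 * j₀), ε j =
        β / 64 * ∑ j ∈ Finset.Icc j₀ (7 * j₀), (16 : ℝ)⁻¹ ^ i j := by
      rw [Finset.mul_sum]
      refine Finset.sum_congr rfl fun j hj => ?_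
      simp only [hε_def]
      rw [if_pos (Finset.mem_Icc.1 hj)]
    rw [e1]
    calc β / 64 * ∑ j ∈ Finset.Icc j₀ (7 * j₀), (16 : ℝ)⁻¹ ^ i j ≤ β / 64 * 4 :=
          mul_le_mul_of_nonneg_left hi2 (by positivity)
      _ = β / 16 := by ring
  obtain ⟨eh, bj, hbj0, hseq⟩ := seq_exists (b := b) hβ (hJ₅ j₀ (by omega)) ε hε0 hε1 hε2
  set κ : ℕ → ℝ := fun j => eh j * 16 ^ j with hκ_def
  -- properties of κ
  have h416 : ∀ j : ℕ, (4 : ℝ)⁻¹ ^ j * 16 ^ j = 4 ^ j := by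
    intro j
    rw [← mul_pow]; norm_num
  have hκ4 : ∀ j, j₀ ≤ j → (4 : ℝ) ^ j ≤ κ j := by
    intro j hj
    rw [← h416 j]
    exact mul_le_mul_of_nonneg_right (hseq j hj).2.1 (by positivity)
  have hκ0 : ∀ j, j₀ ≤ j → 0 < κ j := fun j hj => lt_of_lt_of_le (by positivity) (hκ4 j hj)
  have hκs : ∀ j, j₀ ≤ j → 4 * κ j ≤ κ (j + 1) := by
    intro j hj
    have h1 := (hseq j hj).2.2.1
    simp only [hκ_def]
    have h2 : (16 : ℝ) ^ (j + 1) = 16 * 16 ^ j := by rw [pow_succ]; ring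
    rw [h2]
    have h3 : (0 : ℝ) < 16 ^ j := by positivity
    nlinarith [mul_le_mul_of_nonneg_right h1 h3.le]
  set g : ℕ → ℝ := fun j => κ (j + 1) - κ j - 1 - 2 * Real.log ((16 : ℝ) ^ j) with hg_def
  have hg4 : ∀ j, j₀ ≤ j → (4 : ℝ) ^ j ≤ g j := by
    intro j hj
    have h1 := hJ₃ j (by omega)
    have h2 := hκs j hj
    have h3 := hκ4 (j + 1) (by omega)
    rw [pow_succ] at h3
    simp only [hg_def]
    linarith
  have hbj : ∀ j, j₀ ≤ j → 0 ≤ bj j := fun j hj => by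
    have := (hseq j hj).2.2.2.2.2.1
    linarith
  -- the probabilities
  set P : ℕ → ℝ → ℝ := fun j s => PS p (16 ^ j) (bj j) (κ j) s with hP_def
  have hbase : ∀ s, 2 * (16 : ℝ) ^ (2 * j₀) ≤ s → P j₀ s = 0 := by
    intro s hs
    refine le_antisymm ?_ (PS_nonneg _ _ _ _ _)
    refine PS_le p fun Q hQ => ?_
    have h1 : {ω | s < Mf (Op ω) Q (bj j₀) (κ j₀)} = ∅ := by
      rw [Set.eq_empty_iff_forall_notMem]
      intro ω hω
      have h2 := Mf_le_area (O := Op ω) hQ (hbj j₀ le_rfl) (hκ0 j₀ le_rfl).le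
      have h3 : (2 : ℝ) * (((16 ^ j₀ : ℕ) : ℝ)) ^ 2 = 2 * 16 ^ (2 * j₀) := by
        push_cast
        rw [← pow_mul, mul_comm j₀ 2]
      rw [h3] at h2
      exact absurd (lt_of_lt_of_le hω h2) (not_lt.2 hs)
    rw [h1]
    simp [PR]
  have hrec : ∀ j, j₀ ≤ j → ∀ s, 0 ≤ s →
      P (j + 1) s ≤ 2 * 289 * P j (s + g j) + 2 * 289 ^ 2 * P j 0 * P j ((s + g j) / 289) := by
    intro j hj s hs
    have hu : 1 ≤ 16 ^ j := Nat.one_le_pow _ _ (by norm_num)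
    have hcast : (((16 ^ j : ℕ)) : ℝ) = 16 ^ j := by push_cast; rfl
    have hE : 2 * (16 * (((16 ^ j : ℕ)) : ℝ)) ^ 2 ≤ Real.exp (κ j) := by
      rw [hcast]
      exact (hJ₄ j (by omega)).trans (Real.exp_le_exp.2 (hκ4 j hj))
    have hκle : κ j ≤ κ (j + 1) := by
      have := hκs j hj
      have := hκ0 j hj
      linarith
    have hsg : 0 < s + g j := by
      have := hg4 j hj
      have : (0 : ℝ) < 4 ^ j := by positivity
      linarith
    have hbs : bj (j + 1) = bj j + 4 * κ j / (((16 ^ j : ℕ)) : ℝ) := by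
      rw [(hseq j hj).2.2.2.2.1, hcast]
      simp only [hκ_def]
      have : (16 : ℝ) ^ j ≠ 0 := by positivity
      field_simp
    refine PS_le p fun Q hQ => ?_
    rw [hbs]
    have hQ' : IsRect (16 * 16 ^ j) Q := by rwa [← pow_succ']
    exact rec_prob p hu (hbj j hj) (hκ0 j hj) hκle hE (π := P j) (x := P j 0) (g := g j)
      (by simp only [hg_def]; rw [hcast])
      (fun Q' hQ' t _ => le_PS p _ _ _ hQ') (fun Q' hQ' => le_PS p _ _ _ hQ') hQ' hs hsg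
  have hsmall : ∀ j, j₀ ≤ j → j ≤ 7 * j₀ → P j 0 ≤ (289 : ℝ)⁻¹ ^ 201 := by
    intro j hj hj7
    obtain ⟨h1, h2⟩ := hi1 j hj hj7
    refine PS_le p fun Q hQ => ?_
    have hκj : β / 64 * 16 ^ (j - i j) ≤ κ j := by
      have h3 := (hseq j hj).1
      have h4 : ε j = β / 64 * (16 : ℝ)⁻¹ ^ i j := by
        simp only [hε_def]; rw [if_pos ⟨hj, hj7⟩]
      rw [h4] at h3
      have h5 : (16 : ℝ) ^ j = 16 ^ (i j) * 16 ^ (j - i j) := by
        rw [← pow_add]; congr 1; omega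
      calc β / 64 * 16 ^ (j - i j) = β / 64 * (16 : ℝ)⁻¹ ^ i j * 16 ^ j := by
            rw [h5, inv_pow]
            have : (16 : ℝ) ^ (i j) ≠ 0 := by positivity
            field_simp
        _ ≤ κ j := mul_le_mul_of_nonneg_right h3 (by positivity)
    have h6 := hJ₁ (j - i j) j (by omega) (by omega) Q hQ (bj j) (κ j)
      (hseq j hj).2.2.2.2.2.1 hκj (hκ4 j hj)
    refine h6.trans ?_
    have h7 : ∑ k ∈ Finset.Icc (j - i j) j, 8 * (16 : ℝ) ^ (j - k) * rho p b β A₀ i₂ k =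
        (289 : ℝ)⁻¹ ^ 201 * ∑ k ∈ Finset.Icc (j - i j) j, (16 : ℝ) ^ (j - k) * a k := by
      rw [Finset.mul_sum]
      refine Finset.sum_congr rfl fun k _ => ?_
      simp only [ha_def]
      rw [inv_pow]
      have : (289 : ℝ) ^ 201 ≠ 0 := by positivity
      field_simp
    rw [h7]
    calc (289 : ℝ)⁻¹ ^ 201 * ∑ k ∈ Finset.Icc (j - i j) j, (16 : ℝ) ^ (j - k) * a k
        ≤ (289 : ℝ)⁻¹ ^ 201 * 1 := mul_le_mul_of_nonneg_left h2 (by positivity)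
      _ = _ := mul_one _
  obtain ⟨C, hC⟩ := hJ₂ j₀ (by omega) P g (fun j s => PS_nonneg _ _ _ _ _)
    (fun j s => PS_le p fun Q _ => PR_le_one _ _) (fun j => PS_anti p j _ _) hbase hg4 hrec hsmall
  refine end_U p (c := b + 2 * β) (β := β) (C := C) (j₀ := j₀) (eh := eh) (bj := bj)
    (fun j hj => (hseq j hj).2.1) (fun j hj => (hseq j hj).2.2.2.1) hbj ?_ ?_
  · intro j hj
    rw [← (hseq j hj).2.2.2.2.1]
    exact (hseq (j + 1) (by omega)).2.2.2.2.2.2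
  · intro j hj Q hQ
    exact (le_PS p _ _ _ hQ).trans (hC j hj)

end Pool.Agent.SAWP
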