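import Pool.Agent.SAWP.Basic

/-!
# SAWP, case U: corner bound (module U1; paper 3.1)

Let `R` be K-good (`¬ KBad b β A₀ w R ω`) and `4 |R| e^{-(β/4) w} ≤ 1`.  With
`X = max_{s,e∈R} gs (Op ω) R (b+β/2) (hext s ∧ vext e) s e`: `X ≤ 2 e^{A₀ w}`.

Proof.  Split the paths `l` from `s` to `e` counted by `X` into three classes.
(a) `dlt w l`: since `b+β/2 ≥ b`, their sum is `< e^{A₀ w}` (third clause of `KBad` fails).
(b) width `≥ w` (some `z,z' ∈ l` with `|z₁-z'₁| ≥ w`): let `m` be the first vertex of `l` at the H-extreme opposite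
to `s` (if `s₁` is the minimum, a vertex with maximal first coordinate, and vice versa; if `s₁` is both min and max the width is `0 < w`).
`IsP.split` at `m`: `l₁` from `s` to `m` satisfies `btw s m`, `|m₁-s₁| ≥ w`, `len l₁ ≥ w`; `l₂` from `m` to `e` satisfies
`hext m ∧ vext e`.  `gs_split`, `gs_decay` (`e^{-(β/2)w}`) and the first clause: contribution
`≤ ∑_{m∈R} e^{-(β/2)w} e^{(β/4)w} X ≤ |R| e^{-(β/4)w} X`.  (For `m` with `|m₁-s₁| < w` use the predicate
`Q₁ m l = btw s m l ∧ w ≤ |m₁-s₁|`, whose sum is `0`.)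
(c) width `< w`, height `≥ w`: `m` = a vertex at the V-extreme opposite to `e`; `l₁` from `s` to `m` satisfies
`hext s ∧ vext m`, `l₂` from `m` to `e` satisfies `vbtw m e` and `|e₂-m₂| ≥ w`: same bound with the second clause.
So `X ≤ 2|R|e^{-(β/4)w} X + e^{A₀w} ≤ X/2 + e^{A₀ w}`.
-/

set_option autoImplicit false

namespace Pool.Agent.SAWP

namespace CornerAux

lemma gs_or {O : Set Edge} {R : Finset V} {b : ℝ} {Q Q₁ Q₂ : List V → Prop} {x y : V}
    (h : ∀ l, IsP O x y l → Q l → Q₁ l ∨ Q₂ l) :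
    gs O R b Q x y ≤ gs O R b Q₁ x y + gs O R b Q₂ x y := by
  classical
  unfold gs
  rw [← Finset.sum_union_inter]
  have h1 : ∑ l ∈ (saws O R x y).filter Q, Real.exp (-(b * (len l : ℝ))) ≤
      ∑ l ∈ (saws O R x y).filter Q₁ ∪ (saws O R x y).filter Q₂,
        Real.exp (-(b * (len l : ℝ))) := by
    refine Finset.sum_le_sum_of_subset_of_nonneg ?_ fun _ _ _ => (Real.exp_pos _).le
    intro l hl
    rw [Finset.mem_filter] at hl
    rw [Finset.mem_union, Finset.mem_filter, Finset.mem_filter]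
    rcases h l (mem_saws.1 hl.1).1 hl.2 with h2 | h2
    · exact Or.inl ⟨hl.1, h2⟩
    · exact Or.inr ⟨hl.1, h2⟩
  have h2 : 0 ≤ ∑ l ∈ (saws O R x y).filter Q₁ ∩ (saws O R x y).filter Q₂,
      Real.exp (-(b * (len l : ℝ))) := Finset.sum_nonneg fun _ _ => (Real.exp_pos _).le
  linarith

lemma exists_max {l : List V} (hl : l ≠ []) (f : V → ℤ) : ∃ m ∈ l, ∀ z ∈ l, f z ≤ f m := by
  obtain ⟨m, hm, h⟩ := l.toFinset.exists_max_image f (by simpa using hl)
  exact ⟨m, List.mem_toFinset.1 hm, fun z hz => h z (List.mem_toFinset.2 hz)⟩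

lemma exists_min {l : List V} (hl : l ≠ []) (f : V → ℤ) : ∃ m ∈ l, ∀ z ∈ l, f m ≤ f z := by
  obtain ⟨m, hm, h⟩ := l.toFinset.exists_min_image f (by simpa using hl)
  exact ⟨m, List.mem_toFinset.1 hm, fun z hz => h z (List.mem_toFinset.2 hz)⟩

/-- A long piece (between `s` and `m`, `Q'` forces `w ≤ len`) has small weighted sum. -/
lemma long_piece {O : Set Edge} {R : Finset V} {b β : ℝ} {w : ℕ} (hβ : 0 < β)
    {Q Q' : List V → Prop} {x y : V} (P : Prop) (hQ : ∀ l, Q l ↔ Q' l ∧ P)
    (hlen : P → ∀ l, IsP O x y l → w ≤ len l)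
    (hb : P → gs O R b Q' x y < Real.exp (β / 4 * w)) :
    gs O R (b + β / 2) Q x y ≤ Real.exp (-(β / 4 * w)) := by
  by_cases hP : P
  · have h1 : gs O R (b + β / 2) Q x y ≤ Real.exp (-(β / 2 * w)) * gs O R b Q x y :=
      gs_decay (by positivity) fun l hl _ _ => hlen hP l hl
    have h2 : gs O R b Q x y ≤ gs O R b Q' x y :=
      gs_mono fun l h1 h2 h3 => ⟨h1, h2, ((hQ l).1 h3).1⟩
    have h3 : Real.exp (-(β / 2 * w)) * gs O R b Q x y ≤
        Real.exp (-(β / 2 * w)) * Real.exp (β / 4 * w) :=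
      mul_le_mul_of_nonneg_left (h2.trans (hb hP).le) (Real.exp_pos _).le
    refine h1.trans (h3.trans (le_of_eq ?_))
    rw [← Real.exp_add]
    congr 1
    ring
  · have h1 : gs O R (b + β / 2) Q x y ≤ 0 := by
      classical
      unfold gs
      refine le_of_eq (Finset.sum_eq_zero fun l hl => ?_)
      rw [Finset.mem_filter] at hl
      exact absurd ((hQ l).1 hl.2).2 hP
    exact h1.trans (Real.exp_pos _).le

lemma len_ge {O : Set Edge} {x y : V} {l : List V} (h : IsP O x y l) {w : ℕ}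
    (hw : (w : ℤ) ≤ |y.1 - x.1| ∨ (w : ℤ) ≤ |y.2 - x.2|) : w ≤ len l := by
  have h1 := h.1.nrm_le
  simp only [nrm, Prod.fst_sub, Prod.snd_sub] at h1
  have h2 := le_max_left (y.1 - x.1).natAbs (y.2 - x.2).natAbs
  have h3 := le_max_right (y.1 - x.1).natAbs (y.2 - x.2).natAbs
  rcases hw with hw | hw
  · rw [Int.abs_eq_natAbs] at hw
    omega
  · rw [Int.abs_eq_natAbs] at hw
    omega

end CornerAux

open CornerAux in
theorem corner_bound {ω : Cfg} {R : Finset V} {b β A₀ : ℝ} {w : ℕ} (hβ : 0 < β)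
    (hw : 1 ≤ w) (hgood : ¬ KBad b β A₀ w R ω)
    (hnum : 4 * (R.card : ℝ) * Real.exp (-(β / 4 * w)) ≤ 1) {s e : V} (hs : s ∈ R) (he : e ∈ R) :
    gs (Op ω) R (b + β / 2) (fun l => hext s l ∧ vext e l) s e ≤ 2 * Real.exp (A₀ * w) := by
  classical
  unfold KBad at hgood
  push Not at hgood
  obtain ⟨g1, g2, g3⟩ := hgood
  set f : V × V → ℝ := fun t => gs (Op ω) R (b + β / 2) (fun l => hext t.1 l ∧ vext t.2 l) t.1 t.2
    with hf
  obtain ⟨t, ht, hmax⟩ := (R ×ˢ R).exists_max_image f ⟨(s, e), Finset.mk_mem_product hs he⟩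
  set X := f t with hX
  have hle : ∀ s ∈ R, ∀ e ∈ R,
      gs (Op ω) R (b + β / 2) (fun l => hext s l ∧ vext e l) s e ≤ X :=
    fun s hs e he => hmax (s, e) (Finset.mk_mem_product hs he)
  have hX0 : 0 ≤ X := gs_nonneg _ _ _ _ _ _
  set E := Real.exp (-(β / 4 * w)) with hE
  have hE0 : 0 < E := Real.exp_pos _
  -- the bound for one pair
  have key : ∀ s ∈ R, ∀ e ∈ R,
      gs (Op ω) R (b + β / 2) (fun l => hext s l ∧ vext e l) s e ≤
        Real.exp (A₀ * w) + 2 * ((R.card : ℝ) * (E * X)) := by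
    intro s hs e he
    set Wd : List V → Prop := fun l => ∃ z ∈ l, ∃ z' ∈ l, (w : ℤ) ≤ z.1 - z'.1 with hWd
    set Tl : List V → Prop := fun l => ∃ z ∈ l, ∃ z' ∈ l, (w : ℤ) ≤ z.2 - z'.2 with hTl
    have h1 : gs (Op ω) R (b + β / 2) (fun l => hext s l ∧ vext e l) s e ≤
        gs (Op ω) R (b + β / 2) (fun l => dlt w l ∧ hext s l ∧ vext e l) s e +
        gs (Op ω) R (b + β / 2) (fun l => (Wd l ∧ hext s l ∧ vext e l) ∨
          (Tl l ∧ hext s l ∧ vext e l)) s e := by
      refine gs_or fun l _ hl => ?_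
      by_cases hd : dlt w l
      · exact Or.inl ⟨hd, hl⟩
      · right
        unfold dlt at hd
        push Not at hd
        obtain ⟨z, hz, z', hz', hzz⟩ := hd
        by_cases h2 : |z.1 - z'.1| < (w : ℤ)
        · have h3 := hzz h2
          right
          refine ⟨?_, hl⟩
          rcases le_abs.1 h3 with h4 | h4
          · exact ⟨z, hz, z', hz', h4⟩
          · exact ⟨z', hz', z, hz, by omega⟩
        · left
          refine ⟨?_, hl⟩
          rcases le_abs.1 (not_lt.1 h2) with h4 | h4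
          · exact ⟨z, hz, z', hz', h4⟩
          · exact ⟨z', hz', z, hz, by omega⟩
    have h2 : gs (Op ω) R (b + β / 2) (fun l => (Wd l ∧ hext s l ∧ vext e l) ∨
          (Tl l ∧ hext s l ∧ vext e l)) s e ≤
        gs (Op ω) R (b + β / 2) (fun l => Wd l ∧ hext s l ∧ vext e l) s e +
        gs (Op ω) R (b + β / 2) (fun l => Tl l ∧ hext s l ∧ vext e l) s e :=
      gs_or fun l _ hl => hl
    -- class (a)
    have ha : gs (Op ω) R (b + β / 2) (fun l => dlt w l ∧ hext s l ∧ vext e l) s e ≤
        Real.exp (A₀ * w) := by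
      have h3 : gs (Op ω) R (b + β / 2) (fun l => dlt w l ∧ hext s l ∧ vext e l) s e ≤
          Real.exp (-(β / 2 * ((0 : ℕ) : ℝ))) *
            gs (Op ω) R b (fun l => dlt w l ∧ hext s l ∧ vext e l) s e :=
        gs_decay (by positivity) fun l _ _ _ => Nat.zero_le _
      simp only [Nat.cast_zero, mul_zero, neg_zero, Real.exp_zero, one_mul] at h3
      exact h3.trans (g3 s hs e he).le
    -- class (b)
    have hb : gs (Op ω) R (b + β / 2) (fun l => Wd l ∧ hext s l ∧ vext e l) s e ≤
        (R.card : ℝ) * (E * X) := by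
      have h3 : gs (Op ω) R (b + β / 2) (fun l => Wd l ∧ hext s l ∧ vext e l) s e ≤
          ∑ m ∈ R, gs (Op ω) R (b + β / 2)
              (fun l => btw s m l ∧ (w : ℤ) ≤ |m.1 - s.1|) s m *
            gs (Op ω) R (b + β / 2) (fun l => hext m l ∧ vext e l) m e := by
        refine gs_split (Q₁ := fun m l => btw s m l ∧ (w : ℤ) ≤ |m.1 - s.1|)
          (Q₂ := fun m l => hext m l ∧ vext e l) ?_
        rintro l hl hlR ⟨⟨z, hz, z', hz', hzz⟩, hh, hv⟩
        have hv' : ∀ l₂ : List V, (∀ v ∈ l₂, v ∈ l) → vext e l₂ := by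
          intro l₂ h4
          rcases hv with hv | hv
          · exact Or.inl fun v hv' => hv v (h4 v hv')
          · exact Or.inr fun v hv' => hv v (h4 v hv')
        rcases hh with hh | hh
        · obtain ⟨m, hm, hmm⟩ := exists_max hl.1.ne_nil (fun z => z.1)
          obtain ⟨l₁, l₂, h5, h6, h7, -, h8, h9, -⟩ := hl.split hm
          have h10 := hmm z hz
          have h11 := hh z' hz'
          refine ⟨m, l₁, l₂, h5, h6, h7, fun v hv => hlR v (h8 v hv), fun v hv => hlR v (h9 v hv),
            ⟨?_, ?_⟩, ?_, hv' l₂ h9⟩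
          · intro v hv
            have h12 := hh v (h8 v hv)
            have h13 := hmm v (h8 v hv)
            constructor
            · exact (min_le_left _ _).trans h12
            · exact h13.trans (le_max_right _ _)
          · refine le_trans ?_ (le_abs_self _)
            omega
          · exact Or.inr fun v hv => hmm v (h9 v hv)
        · obtain ⟨m, hm, hmm⟩ := exists_min hl.1.ne_nil (fun z => z.1)
          obtain ⟨l₁, l₂, h5, h6, h7, -, h8, h9, -⟩ := hl.split hm
          have h10 := hmm z' hz'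
          have h11 := hh z hz
          refine ⟨m, l₁, l₂, h5, h6, h7, fun v hv => hlR v (h8 v hv), fun v hv => hlR v (h9 v hv),
            ⟨?_, ?_⟩, ?_, hv' l₂ h9⟩
          · intro v hv
            have h12 := hh v (h8 v hv)
            have h13 := hmm v (h8 v hv)
            constructor
            · exact (min_le_right _ _).trans h13
            · exact h12.trans (le_max_left _ _)
          · refine le_trans ?_ (neg_le_abs _)
            omega
          · exact Or.inl fun v hv => hmm v (h9 v hv)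
      refine h3.trans ?_
      have h4 : ∀ m ∈ R, gs (Op ω) R (b + β / 2)
            (fun l => btw s m l ∧ (w : ℤ) ≤ |m.1 - s.1|) s m *
          gs (Op ω) R (b + β / 2) (fun l => hext m l ∧ vext e l) m e ≤ E * X := by
        intro m hm
        refine mul_le_mul ?_ (hle m hm e he) (gs_nonneg _ _ _ _ _ _) hE0.le
        exact long_piece (Q' := btw s m) hβ ((w : ℤ) ≤ |m.1 - s.1|) (fun l => Iff.rfl)
          (fun hP l hl => len_ge hl (Or.inl hP)) (fun hP => g1 s hs m hm hP)
      calc _ ≤ ∑ m ∈ R, E * X := Finset.sum_le_sum h4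
        _ = (R.card : ℝ) * (E * X) := by rw [Finset.sum_const, nsmul_eq_mul]
    -- class (c)
    have hc : gs (Op ω) R (b + β / 2) (fun l => Tl l ∧ hext s l ∧ vext e l) s e ≤
        (R.card : ℝ) * (E * X) := by
      have h3 : gs (Op ω) R (b + β / 2) (fun l => Tl l ∧ hext s l ∧ vext e l) s e ≤
          ∑ m ∈ R, gs (Op ω) R (b + β / 2) (fun l => hext s l ∧ vext m l) s m *
            gs (Op ω) R (b + β / 2) (fun l => vbtw m e l ∧ (w : ℤ) ≤ |e.2 - m.2|) m e := by
        refine gs_split (Q₁ := fun m l => hext s l ∧ vext m l)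
          (Q₂ := fun m l => vbtw m e l ∧ (w : ℤ) ≤ |e.2 - m.2|) ?_
        rintro l hl hlR ⟨⟨z, hz, z', hz', hzz⟩, hh, hv⟩
        have hh' : ∀ l₂ : List V, (∀ v ∈ l₂, v ∈ l) → hext s l₂ := by
          intro l₂ h4
          rcases hh with hh | hh
          · exact Or.inl fun v hv' => hh v (h4 v hv')
          · exact Or.inr fun v hv' => hh v (h4 v hv')
        rcases hv with hv | hv
        · obtain ⟨m, hm, hmm⟩ := exists_max hl.1.ne_nil (fun z => z.2)
          obtain ⟨l₁, l₂, h5, h6, h7, -, h8, h9, -⟩ := hl.split hm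
          have h10 := hmm z hz
          have h11 := hv z' hz'
          refine ⟨m, l₁, l₂, h5, h6, h7, fun v hv => hlR v (h8 v hv), fun v hv => hlR v (h9 v hv),
            ⟨hh' l₁ h8, ?_⟩, ?_, ?_⟩
          · exact Or.inr fun v hv => hmm v (h8 v hv)
          · intro v hv'
            have h12 := hv v (h9 v hv')
            have h13 := hmm v (h9 v hv')
            constructor
            · exact (min_le_right _ _).trans h12
            · exact h13.trans (le_max_left _ _)
          · refine le_trans ?_ (neg_le_abs _)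
            omega
        · obtain ⟨m, hm, hmm⟩ := exists_min hl.1.ne_nil (fun z => z.2)
          obtain ⟨l₁, l₂, h5, h6, h7, -, h8, h9, -⟩ := hl.split hm
          have h10 := hmm z' hz'
          have h11 := hv z hz
          refine ⟨m, l₁, l₂, h5, h6, h7, fun v hv => hlR v (h8 v hv), fun v hv => hlR v (h9 v hv),
            ⟨hh' l₁ h8, ?_⟩, ?_, ?_⟩
          · exact Or.inl fun v hv => hmm v (h8 v hv)
          · intro v hv'
            have h12 := hv v (h9 v hv')
            have h13 := hmm v (h9 v hv')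
            constructor
            · exact (min_le_left _ _).trans h13
            · exact h12.trans (le_max_right _ _)
          · refine le_trans ?_ (le_abs_self _)
            omega
      refine h3.trans ?_
      have h4 : ∀ m ∈ R, gs (Op ω) R (b + β / 2) (fun l => hext s l ∧ vext m l) s m *
            gs (Op ω) R (b + β / 2) (fun l => vbtw m e l ∧ (w : ℤ) ≤ |e.2 - m.2|) m e ≤ E * X := by
        intro m hm
        rw [mul_comm E X]
        refine mul_le_mul (hle s hs m hm) ?_ (gs_nonneg _ _ _ _ _ _) hX0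
        exact long_piece (Q' := vbtw m e) hβ ((w : ℤ) ≤ |e.2 - m.2|) (fun l => Iff.rfl)
          (fun hP l hl => len_ge hl (Or.inr hP)) (fun hP => g2 m hm e he hP)
      calc _ ≤ ∑ m ∈ R, E * X := Finset.sum_le_sum h4
        _ = (R.card : ℝ) * (E * X) := by rw [Finset.sum_const, nsmul_eq_mul]
    linarith
  have ht' := Finset.mem_product.1 ht
  have h5 : X ≤ Real.exp (A₀ * w) + 2 * ((R.card : ℝ) * (E * X)) := key t.1 ht'.1 t.2 ht'.2
  have h6 : 4 * ((R.card : ℝ) * (E * X)) ≤ X := by
    have := mul_le_mul_of_nonneg_right hnum hX0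
    linarith
  have h7 := hle s hs e he
  linarith

end Pool.Agent.SAWP
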