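import Pool.Agent.SAWP.U.UDefs
import Pool.Agent.SAWP.U.Corner

/-!
# SAWP, case U: arcs from boundary to boundary (module U2; paper 3.2, first part)

`arc_bound`: let `Q` be a rectangle, `x, y ∈ bd Q`, `R` K-good.  The paths in `Q` from `x` to `y` all of whose
vertices are in `R` have `gs` at `b+β/2` at most `|R| (2e^{A₀w})²`.
Proof. `x ∈ bd Q` lies on a side of `Q`, so it is H-extreme or V-extreme for every path in `Q`; same for `y`.
If `x` is H- and `y` is V-extreme the path is a corner piece (`corner_bound`), if `x` is V- and `y` H-extreme its reverse is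
(`gs_reverse`).  If both are H-extreme, split at a V-extreme vertex `z` of the path (a vertex with maximal second
coordinate): `x → z` and the reverse of... `z → y` reversed is `y → z`, both corner pieces; both V-extreme: split at an H-extreme `z`.
`gs_split` (over `m ∈ R`; first pass from `gs (Op ω) Q … (l ⊆ R)` to `gs (Op ω) R …` by `gs_mono`).
`2e^{A₀w} ≥ 1` (A₀ ≥ 0), `|R| ≥ 1` if there is such a path.

`bd_rect`, `bd_card_le`: elementary.
-/

set_option autoImplicit false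

namespace Pool.Agent.SAWP

theorem bd_rect {a b c d : ℤ} {x : V} (hx : x ∈ bd (rect a b c d)) :
    x ∈ rect a b c d ∧ (x.1 = a ∨ x.1 = b ∨ x.2 = c ∨ x.2 = d) := by
  classical
  unfold bd at hx
  rw [Finset.mem_filter] at hx
  obtain ⟨hx, y, hadj, hy⟩ := hx
  refine ⟨hx, ?_⟩
  rw [mem_rect] at hx hy
  rcases adj_cases hadj with h | h | h | h
  · rw [h] at hy
    dsimp only at hy
    omega
  · rw [h] at hy
    dsimp only at hy
    omega
  · have h1 := congrArg Prod.fst h
    have h2 := congrArg Prod.snd h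
    dsimp only at h1 h2
    omega
  · have h1 := congrArg Prod.fst h
    have h2 := congrArg Prod.snd h
    dsimp only at h1 h2
    omega

theorem bd_card_le {u : ℕ} {Q : Finset V} (hQ : IsRect u Q) : (bd Q).card ≤ 4 * u := by
  classical
  obtain ⟨a, b, c, d, rfl, hb, hd⟩ := hQ
  have hsub : bd (rect a b c d) ⊆
      ((({a} : Finset ℤ) ×ˢ Finset.Icc c d) ∪ (({b} : Finset ℤ) ×ˢ Finset.Icc c d)) ∪
      ((Finset.Icc a b ×ˢ ({c} : Finset ℤ)) ∪ (Finset.Icc a b ×ˢ ({d} : Finset ℤ))) := by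
    intro x hx
    obtain ⟨h1, h2⟩ := bd_rect hx
    rw [mem_rect] at h1
    simp only [Finset.mem_union, Finset.mem_product, Finset.mem_singleton, Finset.mem_Icc]
    rcases h2 with h2 | h2 | h2 | h2
    · exact Or.inl (Or.inl ⟨h2, h1.2.2.1, h1.2.2.2⟩)
    · exact Or.inl (Or.inr ⟨h2, h1.2.2.1, h1.2.2.2⟩)
    · exact Or.inr (Or.inl ⟨⟨h1.1, h1.2.1⟩, h2⟩)
    · exact Or.inr (Or.inr ⟨⟨h1.1, h1.2.1⟩, h2⟩)
  have h1 : (Finset.Icc c d).card ≤ u := by rw [Int.card_Icc]; omega
  have h2 : (Finset.Icc a b).card ≤ u := by rw [Int.card_Icc]; omega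
  refine (Finset.card_le_card hsub).trans ?_
  refine (Finset.card_union_le _ _).trans ?_
  have h3 := Finset.card_union_le (({a} : Finset ℤ) ×ˢ Finset.Icc c d)
    (({b} : Finset ℤ) ×ˢ Finset.Icc c d)
  have h4 := Finset.card_union_le (Finset.Icc a b ×ˢ ({c} : Finset ℤ))
    (Finset.Icc a b ×ˢ ({d} : Finset ℤ))
  rw [Finset.card_product, Finset.card_product, Finset.card_singleton, Finset.card_singleton]
    at h3 h4
  omega

namespace ArcsAux

lemma gs_zero_of {O : Set Edge} {R : Finset V} {b : ℝ} {Q : List V → Prop} {x y : V}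
    (h : ∀ l, IsP O x y l → (∀ z ∈ l, z ∈ R) → Q l → False) : gs O R b Q x y = 0 := by
  classical
  unfold gs
  refine Finset.sum_eq_zero ?_
  intro l hl
  rw [Finset.mem_filter, mem_saws] at hl
  exact absurd hl.2 (fun h' => h l hl.1.1 hl.1.2 h')

lemma hext_reverse {s : V} {l : List V} (h : hext s l.reverse) : hext s l := by
  rcases h with h | h
  · exact Or.inl fun z hz => h z (List.mem_reverse.2 hz)
  · exact Or.inr fun z hz => h z (List.mem_reverse.2 hz)

lemma vext_reverse {s : V} {l : List V} (h : vext s l.reverse) : vext s l := by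
  rcases h with h | h
  · exact Or.inl fun z hz => h z (List.mem_reverse.2 hz)
  · exact Or.inr fun z hz => h z (List.mem_reverse.2 hz)

lemma hext_subset {s : V} {l l' : List V} (h : hext s l) (hl : ∀ z ∈ l', z ∈ l) : hext s l' := by
  rcases h with h | h
  · exact Or.inl fun z hz => h z (hl z hz)
  · exact Or.inr fun z hz => h z (hl z hz)

lemma vext_subset {s : V} {l l' : List V} (h : vext s l) (hl : ∀ z ∈ l', z ∈ l) : vext s l' := by
  rcases h with h | h
  · exact Or.inl fun z hz => h z (hl z hz)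
  · exact Or.inr fun z hz => h z (hl z hz)

lemma exists_vext {l : List V} (h : l ≠ []) : ∃ z ∈ l, vext z l := by
  classical
  obtain ⟨a, ha⟩ := List.exists_mem_of_ne_nil l h
  obtain ⟨z, hz, hz'⟩ := Finset.exists_max_image l.toFinset (fun z : V => z.2)
    ⟨a, List.mem_toFinset.2 ha⟩
  exact ⟨z, List.mem_toFinset.1 hz, Or.inr fun w hw => hz' w (List.mem_toFinset.2 hw)⟩

lemma exists_hext {l : List V} (h : l ≠ []) : ∃ z ∈ l, hext z l := by
  classical
  obtain ⟨a, ha⟩ := List.exists_mem_of_ne_nil l h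
  obtain ⟨z, hz, hz'⟩ := Finset.exists_max_image l.toFinset (fun z : V => z.1)
    ⟨a, List.mem_toFinset.2 ha⟩
  exact ⟨z, List.mem_toFinset.1 hz, Or.inr fun w hw => hz' w (List.mem_toFinset.2 hw)⟩

/-- The corner bound, both directions. -/
lemma corner_rev {ω : Cfg} {R : Finset V} {b β A₀ : ℝ} {w : ℕ}
    (hβ : 0 < β) (hw : 1 ≤ w) (hgood : ¬ KBad b β A₀ w R ω)
    (hnum : 4 * (R.card : ℝ) * Real.exp (-(β / 4 * w)) ≤ 1) {s e : V} (hs : s ∈ R) (he : e ∈ R) :
    gs (Op ω) R (b + β / 2) (fun l => vext s l ∧ hext e l) s e ≤ 2 * Real.exp (A₀ * w) := by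
  rw [gs_reverse]
  refine le_trans (gs_mono ?_) (corner_bound hβ hw hgood hnum he hs)
  intro l h1 h2 h3
  exact ⟨h1, h2, hext_reverse h3.2, vext_reverse h3.1⟩

lemma split_sum {ω : Cfg} {R : Finset V} {b C : ℝ} {Q₁ Q₂ : V → List V → Prop} {x y : V}
    (hC : 0 ≤ C)
    (h1 : ∀ m ∈ R, gs (Op ω) R b (Q₁ m) x m ≤ C) (h2 : ∀ m ∈ R, gs (Op ω) R b (Q₂ m) m y ≤ C) :
    ∑ m ∈ R, gs (Op ω) R b (Q₁ m) x m * gs (Op ω) R b (Q₂ m) m y ≤ (R.card : ℝ) * C ^ 2 := by
  have h3 : ∑ m ∈ R, gs (Op ω) R b (Q₁ m) x m * gs (Op ω) R b (Q₂ m) m y ≤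
      ∑ _m ∈ R, C ^ 2 := by
    refine Finset.sum_le_sum fun m hm => ?_
    rw [pow_two]
    exact mul_le_mul (h1 m hm) (h2 m hm) (gs_nonneg _ _ _ _ _ _) hC
  rw [Finset.sum_const, nsmul_eq_mul] at h3
  exact h3

end ArcsAux

open ArcsAux in
theorem arc_bound {ω : Cfg} {Q R : Finset V} {u : ℕ} (hQ : IsRect u Q) {b β A₀ : ℝ} {w : ℕ}
    (hβ : 0 < β) (hA : 0 ≤ A₀) (hw : 1 ≤ w) (hgood : ¬ KBad b β A₀ w R ω)
    (hnum : 4 * (R.card : ℝ) * Real.exp (-(β / 4 * w)) ≤ 1) {x y : V} (hx : x ∈ bd Q)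
    (hy : y ∈ bd Q) :
    gs (Op ω) Q (b + β / 2) (fun l => ∀ z ∈ l, z ∈ R) x y ≤
      (R.card : ℝ) * (2 * Real.exp (A₀ * w)) ^ 2 := by
  classical
  obtain ⟨a, a', c, c', rfl, -, -⟩ := hQ
  obtain ⟨-, hx2⟩ := bd_rect hx
  obtain ⟨-, hy2⟩ := bd_rect hy
  have hxHV : (∀ l : List V, (∀ z ∈ l, z ∈ rect a a' c c') → hext x l) ∨
      (∀ l : List V, (∀ z ∈ l, z ∈ rect a a' c c') → vext x l) := by
    rcases hx2 with h | h | h | h
    · left; intro l hl; left; intro z hz; have := mem_rect.1 (hl z hz); omega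
    · left; intro l hl; right; intro z hz; have := mem_rect.1 (hl z hz); omega
    · right; intro l hl; left; intro z hz; have := mem_rect.1 (hl z hz); omega
    · right; intro l hl; right; intro z hz; have := mem_rect.1 (hl z hz); omega
  have hyHV : (∀ l : List V, (∀ z ∈ l, z ∈ rect a a' c c') → hext y l) ∨
      (∀ l : List V, (∀ z ∈ l, z ∈ rect a a' c c') → vext y l) := by
    rcases hy2 with h | h | h | h
    · left; intro l hl; left; intro z hz; have := mem_rect.1 (hl z hz); omega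
    · left; intro l hl; right; intro z hz; have := mem_rect.1 (hl z hz); omega
    · right; intro l hl; left; intro z hz; have := mem_rect.1 (hl z hz); omega
    · right; intro l hl; right; intro z hz; have := mem_rect.1 (hl z hz); omega
  have hC1 : 1 ≤ 2 * Real.exp (A₀ * w) := by
    have : 1 ≤ Real.exp (A₀ * w) := Real.one_le_exp (by positivity)
    linarith
  have hC0 : 0 ≤ 2 * Real.exp (A₀ * w) := by linarith
  by_cases hxR : x ∈ R
  swap
  · rw [gs_zero_of (fun l h1 _ h3 => hxR (h3 x h1.1.left_mem))]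
    positivity
  by_cases hyR : y ∈ R
  swap
  · rw [gs_zero_of (fun l h1 _ h3 => hyR (h3 y h1.1.right_mem))]
    positivity
  have hcard : (1 : ℝ) ≤ (R.card : ℝ) := by
    exact_mod_cast Finset.card_pos.2 ⟨x, hxR⟩
  have hone : 2 * Real.exp (A₀ * w) ≤ (R.card : ℝ) * (2 * Real.exp (A₀ * w)) ^ 2 := by
    have h1 : 2 * Real.exp (A₀ * w) ≤ (2 * Real.exp (A₀ * w)) ^ 2 := by nlinarith
    have h2 : (2 * Real.exp (A₀ * w)) ^ 2 ≤ (R.card : ℝ) * (2 * Real.exp (A₀ * w)) ^ 2 := by
      nlinarith [sq_nonneg (2 * Real.exp (A₀ * w))]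
    linarith
  have hpass : gs (Op ω) (rect a a' c c') (b + β / 2) (fun l => ∀ z ∈ l, z ∈ R) x y ≤
      gs (Op ω) R (b + β / 2) (fun l => ∀ z ∈ l, z ∈ rect a a' c c') x y :=
    gs_mono fun l h1 h2 h3 => ⟨h1, h3, h2⟩
  refine hpass.trans ?_
  rcases hxHV with hxH | hxV
  · rcases hyHV with hyH | hyV
    · -- both horizontally extreme
      refine le_trans (gs_split (Q₁ := fun m l => hext x l ∧ vext m l)
        (Q₂ := fun m l => vext m l ∧ hext y l) ?_) (split_sum hC0 ?_ ?_)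
      · intro l h1 h2 h3
        obtain ⟨m, hm, hm'⟩ := exists_vext h1.1.ne_nil
        obtain ⟨l₁, l₂, h4, h5, h6, -, h7, h8, -⟩ := h1.split hm
        exact ⟨m, l₁, l₂, h4, h5, h6, fun z hz => h2 z (h7 z hz), fun z hz => h2 z (h8 z hz),
          ⟨hext_subset (hxH l h3) h7, vext_subset hm' h7⟩,
          ⟨vext_subset hm' h8, hext_subset (hyH l h3) h8⟩⟩
      · intro m hm
        exact corner_bound hβ hw hgood hnum hxR hm
      · intro m hm
        exact corner_rev hβ hw hgood hnum hm hyR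
    · refine le_trans (le_trans (gs_mono ?_) (corner_bound hβ hw hgood hnum hxR hyR)) hone
      intro l h1 h2 h3
      exact ⟨h1, h2, hxH l h3, hyV l h3⟩
  · rcases hyHV with hyH | hyV
    · refine le_trans (le_trans (gs_mono ?_) (corner_rev hβ hw hgood hnum hxR hyR)) hone
      intro l h1 h2 h3
      exact ⟨h1, h2, hxV l h3, hyH l h3⟩
    · -- both vertically extreme
      refine le_trans (gs_split (Q₁ := fun m l => vext x l ∧ hext m l)
        (Q₂ := fun m l => hext m l ∧ vext y l) ?_) (split_sum hC0 ?_ ?_)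
      · intro l h1 h2 h3
        obtain ⟨m, hm, hm'⟩ := exists_hext h1.1.ne_nil
        obtain ⟨l₁, l₂, h4, h5, h6, -, h7, h8, -⟩ := h1.split hm
        exact ⟨m, l₁, l₂, h4, h5, h6, fun z hz => h2 z (h7 z hz), fun z hz => h2 z (h8 z hz),
          ⟨vext_subset (hxV l h3) h7, hext_subset hm' h7⟩,
          ⟨hext_subset hm' h8, vext_subset (hyV l h3) h8⟩⟩
      · intro m hm
        exact corner_rev hβ hw hgood hnum hxR hm
      · intro m hm
        exact corner_bound hβ hw hgood hnum hm hyR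

end Pool.Agent.SAWP
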