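import Pool.Agent.SAWP.U.UDefs

/-!
# SAWP, case U: linear forests (module U3; paper 3.3)

(F1) Subsets of linear forests are linear forests.
(F2) Let `A ⊆ E(Q)` be a linear forest, `x ∈ lvs A`.  There are `y ∈ lvs A`, `y ≠ x`, and a path `l` from `x` to `y` in
`Q` whose edge set `pe l` is contained in `A`, such that `A \ pe l` is a linear forest with leaf set
`(lvs A).erase x |>.erase y`, and `|A| = len l + |A \ pe l|`.
Proof by strong induction on `|A|`: let `{x,x'}` be the edge at `x`, `A' = A \ {xx'}`.  If `deg A' x' = 0`: `y = x'`,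
`l = [x,x']`.  If `deg A' x' = 1`: `x'` is a leaf of `A'`; the induction hypothesis gives a path `l'` from `x'` to `y` in
`A'`; `x ∉ l'` as `deg A' x = 0` (and `x ≠ x'`); `l = x :: l'`.
(F3) `WW O (eF Q) b S ≤ ∑_{y ∈ S.erase x} gs O Q b ⊤ x y * WW O (eF Q) b ((S.erase x).erase y)` for `x ∈ S` (map
`A ↦ (y, l, A \ pe l)`, injective since `A = pe l ∪ (A \ pe l)`).
(F4) If `|bd Q| * gs O Q b ⊤ x y ≤ e^K` for all `x ≠ y` in `bd Q` (`K ≥ 0`) then `WW O (eF Q) b S ≤ e^{K |S|/2}` for `S ⊆ bd Q`
(strong induction on `|S|`; `WW … ∅ = 1`).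
(F5) `WW … S = 0` if `|S| = 1` (an edge set with exactly one leaf: by (F2) there is a second leaf).
(F6) the edge set of a path (`path_forest`): if `IsP O v w l`, `len l ≥ 1`, then `pe l` is a linear forest with leaf set `{v,w}`,
`|pe l| = len l`, `pe l ⊆ O`; and the path is determined by `v` and `pe l` (`path_unique`).
-/

set_option autoImplicit false

namespace Pool.Agent.SAWP

/-- The edges of a list walk. -/
def pe : List V → Finset Edge
  | a :: b :: t => insert (edgeOf a b) (pe (b :: t))
  | _ => ∅

/-! ### Degrees -/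

lemma inc_edgeOf {x y : V} (h : Adj x y) (z : V) :
    (src (edgeOf x y) = z ∨ tgt (edgeOf x y) = z) ↔ (z = x ∨ z = y) := by
  rcases edgeOf_ends h with ⟨h1, h2⟩ | ⟨h1, h2⟩
  · rw [h1, h2]; constructor
    · rintro (h | h)
      · exact Or.inl h.symm
      · exact Or.inr h.symm
    · rintro (h | h)
      · exact Or.inl h.symm
      · exact Or.inr h.symm
  · rw [h1, h2]; constructor
    · rintro (h | h)
      · exact Or.inr h.symm
      · exact Or.inl h.symm
    · rintro (h | h)
      · exact Or.inr h.symm
      · exact Or.inl h.symm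

lemma exists_edgeOf {e : Edge} {x : V} (h : src e = x ∨ tgt e = x) :
    ∃ y, Adj x y ∧ e = edgeOf x y := by
  rcases h with h | h
  · subst h
    exact ⟨tgt e, adj_src_tgt e, (edgeOf_src_tgt e).symm⟩
  · subst h
    exact ⟨src e, (adj_src_tgt e).symm, by rw [edgeOf_comm, edgeOf_src_tgt]⟩

lemma edgeOf_inj_right {x y z : V} (h : Adj x y) (h' : Adj x z) (he : edgeOf x y = edgeOf x z) :
    y = z := by
  have h1 := (inc_edgeOf h z).1 (by rw [he]; exact (inc_edgeOf h' z).2 (Or.inr rfl))
  rcases h1 with h1 | h1
  · exact absurd h1.symm h'.ne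
  · exact h1.symm

lemma deg_empty (x : V) : deg ∅ x = 0 := by simp [deg]

lemma deg_insert {A : Finset Edge} {e : Edge} (he : e ∉ A) (x : V) :
    deg (insert e A) x = deg A x + if src e = x ∨ tgt e = x then 1 else 0 := by
  unfold deg
  rw [Finset.filter_insert]
  split_ifs with h
  · rw [Finset.card_insert_of_notMem]
    intro h'
    exact he (Finset.mem_filter.1 h').1
  · rfl

lemma deg_erase {A : Finset Edge} {e : Edge} (he : e ∈ A) (x : V) :
    deg A x = deg (A.erase e) x + if src e = x ∨ tgt e = x then 1 else 0 := by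
  rw [← deg_insert (Finset.notMem_erase e A), Finset.insert_erase he]

lemma deg_mono {A B : Finset Edge} (h : B ⊆ A) (x : V) : deg B x ≤ deg A x :=
  Finset.card_le_card (Finset.filter_subset_filter _ h)

lemma exists_of_deg {A : Finset Edge} {x : V} (h : deg A x ≠ 0) :
    ∃ e ∈ A, src e = x ∨ tgt e = x := by
  unfold deg at h
  obtain ⟨e, he⟩ := Finset.card_ne_zero.1 h
  rw [Finset.mem_filter] at he
  exact ⟨e, he.1, he.2⟩

lemma deg_pos {A : Finset Edge} {e : Edge} {x : V} (he : e ∈ A) (hx : src e = x ∨ tgt e = x) :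
    1 ≤ deg A x := by
  rw [deg_erase he x, if_pos hx]
  omega

lemma mem_lvs {A : Finset Edge} {x : V} : x ∈ lvs A ↔ deg A x = 1 := by
  unfold lvs
  rw [Finset.mem_filter]
  refine ⟨fun h => h.2, fun h => ⟨?_, h⟩⟩
  obtain ⟨e, he, hx⟩ := exists_of_deg (A := A) (x := x) (by omega)
  unfold verts
  rw [Finset.mem_union, Finset.mem_image, Finset.mem_image]
  rcases hx with hx | hx
  · exact Or.inl ⟨e, he, hx⟩
  · exact Or.inr ⟨e, he, hx⟩

theorem IsLF.subset {A B : Finset Edge} (h : IsLF A) (hB : B ⊆ A) : IsLF B :=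
  ⟨fun x => (deg_mono hB x).trans (h.1 x), fun _ hC hne => h.2 _ (hC.trans hB) hne⟩

/-! ### Components of leaves -/

lemma pe_cons_cons (a b : V) (t : List V) : pe (a :: b :: t) = insert (edgeOf a b) (pe (b :: t)) :=
  rfl

lemma pe_single (a : V) : pe [a] = ∅ := rfl

lemma leaf_component_aux (n : ℕ) : ∀ (A : Finset Edge) (x : V), A.card = n → IsLF A → deg A x = 1 →
    ∃ y l, deg A y = 1 ∧ y ≠ x ∧ IsP (↑A : Set Edge) x y l ∧ pe l ⊆ A ∧
      A.card = len l + (A \ pe l).card ∧
      (∀ z ∈ l, deg A z ≠ 0 ∧ (deg A z = 1 → z = x ∨ z = y) ∧ deg (A \ pe l) z = 0) ∧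
      (∀ z, z ∉ l → deg (A \ pe l) z = deg A z) := by
  induction n with
  | zero =>
    intro A x hA _ hx
    rw [Finset.card_eq_zero.1 hA, deg_empty] at hx
    omega
  | succ n ih =>
    intro A x hA hLF hx
    obtain ⟨e, heA, hex⟩ := exists_of_deg (A := A) (x := x) (by omega)
    obtain ⟨x', hadj, rfl⟩ := exists_edgeOf hex
    have hd : ∀ z, deg A z = deg (A.erase (edgeOf x x')) z + if z = x ∨ z = x' then 1 else 0 := by
      intro z
      rw [deg_erase heA z]
      simp only [inc_edgeOf hadj z]
    have hcard : (A.erase (edgeOf x x')).card = n := by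
      rw [Finset.card_erase_of_mem heA, hA]; omega
    have hne : x ≠ x' := hadj.ne
    have hx0 : deg (A.erase (edgeOf x x')) x = 0 := by
      have := hd x
      rw [if_pos (Or.inl rfl)] at this
      omega
    have hx' := hd x'
    rw [if_pos (Or.inr rfl)] at hx'
    have h2 := hLF.1 x'
    have hstep : Step (↑A : Set Edge) x x' := ⟨hadj, heA⟩
    rcases Nat.lt_or_ge 0 (deg (A.erase (edgeOf x x')) x') with hpos | hzero
    · -- the leaf `x'` of the smaller forest
      obtain ⟨y, l, hy, hyx, hP, hpe, hc, hl1, hl2⟩ := ih (A.erase (edgeOf x x')) x' hcard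
        (hLF.subset (Finset.erase_subset _ _)) (by omega)
      have hxl : x ∉ l := by
        intro h
        exact (hl1 x h).1 hx0
      have hx'l : x' ∈ l := hP.1.left_mem
      have hyx2 : y ≠ x := by
        rintro rfl
        omega
      obtain ⟨t, rfl⟩ := hP.1.eq_cons
      have hsd : A \ pe (x :: x' :: t) = A.erase (edgeOf x x') \ pe (x' :: t) := by
        rw [pe_cons_cons]
        ext f
        simp only [Finset.mem_sdiff, Finset.mem_insert, Finset.mem_erase]
        tauto
      refine ⟨y, x :: x' :: t, ?_, hyx2, ⟨(hP.1.mono ?_).cons hstep, ?_⟩, ?_, ?_, ?_, ?_⟩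
      · rw [hd y, if_neg (by rintro (h | h); exacts [hyx2 h, hyx h]), hy]
      · intro f hf
        exact Finset.mem_of_mem_erase (Finset.mem_coe.1 hf)
      · exact List.nodup_cons.2 ⟨hxl, hP.2⟩
      · rw [pe_cons_cons]
        exact Finset.insert_subset heA (hpe.trans (Finset.erase_subset _ _))
      · rw [hsd, hA, ← hcard, hc]
        simp only [len, List.length_cons]
        omega
      · intro z hz
        rw [hsd]
        rcases List.mem_cons.1 hz with rfl | hz
        · refine ⟨by omega, fun _ => Or.inl rfl, ?_⟩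
          rw [hl2 z hxl, hx0]
        · obtain ⟨h3, h4, h5⟩ := hl1 z hz
          have h6 := hd z
          refine ⟨by omega, ?_, h5⟩
          intro h7
          by_cases hzx : z = x ∨ z = x'
          · rw [if_pos hzx] at h6
            omega
          · rw [if_neg hzx] at h6
            rcases h4 (by omega) with h8 | h8
            · exact absurd (Or.inr h8) hzx
            · exact Or.inr h8
      · intro z hz
        rw [List.mem_cons, not_or] at hz
        rw [hsd, hl2 z hz.2, hd z, if_neg, add_zero]
        rintro (h | h)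
        · exact hz.1 h
        · exact hz.2 (h ▸ hx'l)
    · -- an isolated edge
      have hsd : A \ pe [x, x'] = A.erase (edgeOf x x') := by
        rw [pe_cons_cons, pe_single]
        ext f
        simp only [Finset.mem_sdiff, Finset.mem_insert, Finset.mem_erase, Finset.notMem_empty,
          or_false]
        tauto
      refine ⟨x', [x, x'], by omega, hne.symm, ⟨(isW_singleton _ x').cons hstep, ?_⟩, ?_, ?_, ?_, ?_⟩
      · simp [hne]
      · rw [pe_cons_cons, pe_single]
        exact Finset.insert_subset heA (Finset.empty_subset _)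
      · rw [hsd, hcard, hA]
        simp [len]
        omega
      · intro z hz
        rw [hsd]
        have hz' : z = x ∨ z = x' := by simpa using hz
        have h6 := hd z
        rw [if_pos hz'] at h6
        refine ⟨by omega, fun _ => hz', ?_⟩
        rcases hz' with rfl | rfl
        · exact hx0
        · omega
      · intro z hz
        have hz' : ¬ (z = x ∨ z = x') := by simpa using hz
        rw [hsd, hd z, if_neg hz', add_zero]

theorem leaf_component {Q : Finset V} {A : Finset Edge} (hA : IsLF A) (hQ : A ⊆ eF Q) {x : V}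
    (hx : x ∈ lvs A) : ∃ y l, y ∈ lvs A ∧ y ≠ x ∧ IsP (↑A : Set Edge) x y l ∧ (∀ z ∈ l, z ∈ Q) ∧
      pe l ⊆ A ∧ lvs (A \ pe l) = ((lvs A).erase x).erase y ∧ A.card = len l + (A \ pe l).card := by
  obtain ⟨y, l, h1, h2, h3, h4, h5, h6, h7⟩ := leaf_component_aux A.card A x rfl hA (mem_lvs.1 hx)
  refine ⟨y, l, mem_lvs.2 h1, h2, h3, ?_, h4, ?_, h5⟩
  · intro z hz
    obtain ⟨e, he, hez⟩ := exists_of_deg (h6 z hz).1
    have := mem_eF.1 (hQ he)
    rcases hez with rfl | rfl
    · exact this.1
    · exact this.2
  · ext z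
    rw [mem_lvs, Finset.mem_erase, Finset.mem_erase, mem_lvs]
    constructor
    · intro hz
      have hzl : z ∉ l := by
        intro h
        rw [(h6 z h).2.2] at hz
        omega
      refine ⟨?_, ?_, by rw [← h7 z hzl]; exact hz⟩
      · rintro rfl; exact hzl h3.1.right_mem
      · rintro rfl; exact hzl h3.1.left_mem
    · rintro ⟨hzy, hzx, hz⟩
      have hzl : z ∉ l := by
        intro h
        rcases (h6 z h).2.1 hz with h8 | h8
        · exact hzx h8
        · exact hzy h8
      rw [h7 z hzl]
      exact hz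

/-! ### The weights -/

lemma isLF_empty : IsLF ∅ := by
  refine ⟨fun x => by rw [deg_empty]; omega, fun B hB hne => ?_⟩
  rw [Finset.subset_empty.1 hB] at hne
  exact absurd hne Finset.not_nonempty_empty

lemma lvs_empty : lvs ∅ = ∅ := by
  ext z
  rw [mem_lvs, deg_empty]
  simp

theorem WW_empty (O : Set Edge) (E : Finset Edge) (b : ℝ) : WW O E b ∅ = 1 := by
  classical
  unfold WW
  have h1 : E.powerset.filter (fun A : Finset Edge => (↑A : Set Edge) ⊆ O ∧ IsLF A ∧ lvs A = ∅) =
      {∅} := by
    ext A
    rw [Finset.mem_filter, Finset.mem_powerset, Finset.mem_singleton]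
    constructor
    · rintro ⟨-, -, hLF, hA⟩
      by_contra hne
      obtain ⟨x, hx⟩ := hLF.2 A (Finset.Subset.refl A) (Finset.nonempty_iff_ne_empty.2 hne)
      have := mem_lvs.2 hx
      rw [hA] at this
      exact absurd this (Finset.notMem_empty x)
    · rintro rfl
      refine ⟨Finset.empty_subset _, ?_, isLF_empty, lvs_empty⟩
      rw [Finset.coe_empty]
      exact Set.empty_subset _
  rw [h1]
  simp

lemma gs_true (O : Set Edge) (Q : Finset V) (b : ℝ) {P : List V → Prop} (hP : ∀ l, P l) (x y : V) :
    gs O Q b P x y = ∑ l ∈ saws O Q x y, Real.exp (-(b * (len l : ℝ))) := by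
  classical
  unfold gs
  rw [Finset.filter_true_of_mem fun l _ => hP l]

theorem WW_rec {O : Set Edge} {Q : Finset V} {b : ℝ} {S : Finset V} {x : V} (hx : x ∈ S) :
    WW O (eF Q) b S ≤ ∑ y ∈ S.erase x, gs O Q b (fun _ => True) x y *
      WW O (eF Q) b ((S.erase x).erase y) := by
  classical
  have h' : ∀ A : Finset Edge, ∃ t : V × (List V × Finset Edge), A ∈ (eF Q).powerset.filter
      (fun A : Finset Edge => (↑A : Set Edge) ⊆ O ∧ IsLF A ∧ lvs A = S) →
      t.1 ∈ S.erase x ∧ IsP O x t.1 t.2.1 ∧ (∀ z ∈ t.2.1, z ∈ Q) ∧ pe t.2.1 ⊆ A ∧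
      t.2.2 = A \ pe t.2.1 ∧ lvs t.2.2 = (S.erase x).erase t.1 ∧
      A.card = len t.2.1 + t.2.2.card := by
    intro A
    by_cases hA : A ∈ (eF Q).powerset.filter
      (fun A : Finset Edge => (↑A : Set Edge) ⊆ O ∧ IsLF A ∧ lvs A = S)
    · have hA' := hA
      rw [Finset.mem_filter, Finset.mem_powerset] at hA'
      obtain ⟨h1, h2, h3, h4⟩ := hA'
      obtain ⟨y, l, h5, h6, h7, h8, h9, h10, h11⟩ := leaf_component h3 h1
        (x := x) (by rw [h4]; exact hx)
      refine ⟨(y, l, A \ pe l), fun _ => ⟨?_, h7.mono h2, h8, h9, rfl, ?_, h11⟩⟩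
      · rw [Finset.mem_erase]
        exact ⟨h6, by rw [← h4]; exact h5⟩
      · rw [← h4]
        exact h10
    · exact ⟨((0, 0), [], ∅), fun h => absurd h hA⟩
  choose f hf using h'
  have hgs : ∀ y, gs O Q b (fun _ => True) x y = ∑ l ∈ saws O Q x y,
      Real.exp (-(b * (len l : ℝ))) := fun y => gs_true O Q b (fun _ => trivial) x y
  simp only [hgs]
  unfold WW
  have h1 : ∑ y ∈ S.erase x, (∑ l ∈ saws O Q x y,
        Real.exp (-(b * (len l : ℝ)))) *
      (∑ A ∈ (eF Q).powerset.filter (fun A : Finset Edge => (↑A : Set Edge) ⊆ O ∧ IsLF A ∧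
        lvs A = (S.erase x).erase y), Real.exp (-(b * (A.card : ℝ)))) =
      ∑ t ∈ (S.erase x).sigma (fun y => saws O Q x y ×ˢ
        (eF Q).powerset.filter (fun A : Finset Edge => (↑A : Set Edge) ⊆ O ∧ IsLF A ∧
        lvs A = (S.erase x).erase y)),
        Real.exp (-(b * (len t.2.1 : ℝ))) * Real.exp (-(b * (t.2.2.card : ℝ))) := by
    rw [Finset.sum_sigma]
    refine Finset.sum_congr rfl fun m _ => ?_
    rw [Finset.sum_mul_sum, Finset.sum_product]
  rw [h1]
  have h2 : ∑ A ∈ (eF Q).powerset.filter
        (fun A : Finset Edge => (↑A : Set Edge) ⊆ O ∧ IsLF A ∧ lvs A = S),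
        Real.exp (-(b * (A.card : ℝ))) =
      ∑ t ∈ ((eF Q).powerset.filter
        (fun A : Finset Edge => (↑A : Set Edge) ⊆ O ∧ IsLF A ∧ lvs A = S)).image
        (fun A => (⟨(f A).1, (f A).2⟩ : (_ : V) × (List V × Finset Edge))),
        Real.exp (-(b * (len t.2.1 : ℝ))) * Real.exp (-(b * (t.2.2.card : ℝ))) := by
    rw [Finset.sum_image]
    · refine Finset.sum_congr rfl fun A hA => ?_
      obtain ⟨-, -, -, -, -, -, h3⟩ := hf A hA
      rw [← Real.exp_add, h3]
      congr 1
      push_cast
      ring
    · intro A hA A' hA' hll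
      simp only [Sigma.mk.injEq, heq_eq_eq] at hll
      obtain ⟨-, -, -, h4, h5, -, -⟩ := hf A hA
      obtain ⟨-, -, -, h4', h5', -, -⟩ := hf A' hA'
      have h6 : A = pe (f A).2.1 ∪ (f A).2.2 := by
        rw [h5, Finset.union_sdiff_of_subset h4]
      have h7 : A' = pe (f A').2.1 ∪ (f A').2.2 := by
        rw [h5', Finset.union_sdiff_of_subset h4']
      rw [h6, h7, hll.2]
  rw [h2]
  refine Finset.sum_le_sum_of_subset_of_nonneg ?_ fun _ _ _ => by positivity
  intro t ht
  rw [Finset.mem_image] at ht
  obtain ⟨A, hA, rfl⟩ := ht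
  obtain ⟨h3, h4, h5, h6, h7, h8, h9⟩ := hf A hA
  rw [Finset.mem_filter, Finset.mem_powerset] at hA
  rw [Finset.mem_sigma]
  refine ⟨h3, ?_⟩
  rw [Finset.mem_product, mem_saws, Finset.mem_filter, Finset.mem_powerset]
  have h10 : (f A).2.2 ⊆ A := by rw [h7]; exact Finset.sdiff_subset
  exact ⟨⟨h4, h5⟩, h10.trans hA.1,
    (Finset.coe_subset.2 h10).trans hA.2.1, hA.2.2.1.subset h10, h8⟩

theorem WW_single {O : Set Edge} {Q : Finset V} {b : ℝ} {S : Finset V} (hS : S.card = 1) :
    WW O (eF Q) b S = 0 := by
  classical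
  obtain ⟨x, rfl⟩ := Finset.card_eq_one.1 hS
  unfold WW
  rw [Finset.filter_false_of_mem, Finset.sum_empty]
  rintro A hA ⟨-, hLF, hlv⟩
  obtain ⟨y, l, h1, h2, -⟩ := leaf_component hLF (Finset.mem_powerset.1 hA)
    (x := x) (by rw [hlv]; exact Finset.mem_singleton_self x)
  rw [hlv, Finset.mem_singleton] at h1
  exact h2 h1

theorem WW_le_of_arcs {O : Set Edge} {Q : Finset V} {b K : ℝ} (hK : 0 ≤ K)
    (h : ∀ x ∈ bd Q, ∀ y ∈ bd Q, x ≠ y →
      ((bd Q).card : ℝ) * gs O Q b (fun _ => True) x y ≤ Real.exp K)
    {S : Finset V} (hS : S ⊆ bd Q) : WW O (eF Q) b S ≤ Real.exp (K * S.card / 2) := by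
  classical
  induction hn : S.card using Nat.strong_induction_on generalizing S with
  | _ n ih =>
    rcases Nat.eq_zero_or_pos n with h0 | hpos
    · rw [h0, Finset.card_eq_zero] at hn
      rw [hn, WW_empty, h0]
      simp
    by_cases h1 : n = 1
    · rw [WW_single (by omega)]
      exact (Real.exp_pos _).le
    obtain ⟨x, hx⟩ := Finset.card_pos.1 (by omega : 0 < S.card)
    refine (WW_rec hx).trans ?_
    have hB : 0 < ((bd Q).card : ℝ) := by
      exact_mod_cast Finset.card_pos.2 ⟨x, hS hx⟩
    have hcE : (S.erase x).card = n - 1 := by rw [Finset.card_erase_of_mem hx, hn]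
    have key : ∀ y ∈ S.erase x, gs O Q b (fun _ => True) x y *
        WW O (eF Q) b ((S.erase x).erase y) ≤
        Real.exp K / (bd Q).card * Real.exp (K * (n - 2 : ℕ) / 2) := by
      intro y hy
      have hy' := Finset.mem_erase.1 hy
      have hc2 : ((S.erase x).erase y).card = n - 2 := by
        rw [Finset.card_erase_of_mem hy, hcE]; omega
      have hsub : (S.erase x).erase y ⊆ bd Q :=
        ((Finset.erase_subset _ _).trans (Finset.erase_subset _ _)).trans hS
      have h3 := ih (n - 2) (by omega) hsub hc2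
      have h4 : gs O Q b (fun _ => True) x y ≤ Real.exp K / (bd Q).card := by
        rw [le_div_iff₀ hB, mul_comm]
        exact h x (hS hx) y (hS hy'.2) hy'.1.symm
      refine mul_le_mul h4 h3 ?_ (by positivity)
      unfold WW
      exact Finset.sum_nonneg fun _ _ => (Real.exp_pos _).le
    refine (Finset.sum_le_sum key).trans ?_
    rw [Finset.sum_const, nsmul_eq_mul, hcE]
    have h5 : ((n - 1 : ℕ) : ℝ) ≤ ((bd Q).card : ℝ) := by
      have := Finset.card_le_card hS
      exact_mod_cast (by omega : n - 1 ≤ (bd Q).card)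
    calc ((n - 1 : ℕ) : ℝ) * (Real.exp K / (bd Q).card * Real.exp (K * (n - 2 : ℕ) / 2))
        = (((n - 1 : ℕ) : ℝ) / (bd Q).card) * (Real.exp K * Real.exp (K * (n - 2 : ℕ) / 2)) := by
          ring
      _ ≤ 1 * (Real.exp K * Real.exp (K * (n - 2 : ℕ) / 2)) := by
          refine mul_le_mul_of_nonneg_right ?_ (by positivity)
          rw [div_le_one hB]
          exact h5
      _ = Real.exp (K * n / 2) := by
          rw [one_mul, ← Real.exp_add]
          congr 1
          rw [Nat.cast_sub (by omega)]
          push_cast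
          ring

/-! ### Edge sets of paths -/

lemma pe_ends {O : Set Edge} {v w : V} {l : List V} (h : IsW O v w l) {e : Edge} (he : e ∈ pe l) :
    src e ∈ l ∧ tgt e ∈ l := by
  induction l generalizing v with
  | nil => exact absurd rfl h.ne_nil
  | cons a t ih =>
    cases t with
    | nil => rw [pe_single] at he; exact absurd he (Finset.notMem_empty e)
    | cons b t =>
      obtain ⟨rfl, hs, h2⟩ := isW_cons_cons.1 h
      rw [pe_cons_cons, Finset.mem_insert] at he
      rcases he with rfl | he
      · rcases edgeOf_ends hs.1 with ⟨h3, h4⟩ | ⟨h3, h4⟩ <;> rw [h3, h4] <;> simp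
      · have := ih h2 he
        exact ⟨List.mem_cons_of_mem _ this.1, List.mem_cons_of_mem _ this.2⟩

lemma edgeOf_notMem_pe {O : Set Edge} {a b w : V} {t : List V} (h : IsP O a w (a :: b :: t)) :
    edgeOf a b ∉ pe (b :: t) := by
  obtain ⟨-, hs, h2⟩ := isW_cons_cons.1 h.1
  intro he
  have h3 := pe_ends h2 he
  have h4 := (List.nodup_cons.1 h.2).1
  rcases edgeOf_ends hs.1 with ⟨h5, h6⟩ | ⟨h5, h6⟩
  · rw [h5] at h3; exact h4 h3.1
  · rw [h6] at h3; exact h4 h3.2

lemma IsP.tail {O : Set Edge} {a b v w : V} {t : List V} (h : IsP O v w (a :: b :: t)) :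
    IsP O b w (b :: t) := by
  obtain ⟨-, -, h2⟩ := isW_cons_cons.1 h.1
  exact ⟨h2, (List.nodup_cons.1 h.2).2⟩

lemma deg_pe_cons {O : Set Edge} {a b w : V} {t : List V} (h : IsP O a w (a :: b :: t)) (z : V) :
    deg (pe (a :: b :: t)) z = deg (pe (b :: t)) z + if z = a ∨ z = b then 1 else 0 := by
  obtain ⟨-, hs, h2⟩ := isW_cons_cons.1 h.1
  rw [pe_cons_cons, deg_insert (edgeOf_notMem_pe h)]
  simp only [inc_edgeOf hs.1 z]

lemma deg_pe {O : Set Edge} {v w : V} {l : List V} (h : IsP O v w l) (hl : 1 ≤ len l) (z : V) :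
    deg (pe l) z = if z ∈ l then (if z = v ∨ z = w then 1 else 2) else 0 := by
  induction l generalizing v with
  | nil => exact absurd rfl h.1.ne_nil
  | cons a t ih =>
    cases t with
    | nil => simp [len] at hl
    | cons b t =>
      obtain ⟨rfl, hs, h2⟩ := isW_cons_cons.1 h.1
      rw [deg_pe_cons h z]
      cases t with
      | nil =>
        obtain ⟨-, rfl⟩ := isW_single.1 h2
        rw [pe_single, deg_empty]
        by_cases hz : z = a ∨ z = b
        · rw [if_pos hz, if_pos (by simpa using hz), if_pos hz]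
        · rw [if_neg hz, if_neg (by simpa using hz)]
      | cons c t =>
        have hP := h.tail
        rw [ih hP (by simp [len])]
        have hnd := List.nodup_cons.1 h.2
        have hnd2 := List.nodup_cons.1 hnd.2
        have hwmem : w ∈ c :: t := (isW_cons_cons.1 hP.1).2.2.right_mem
        have hbw : b ≠ w := by rintro rfl; exact hnd2.1 hwmem
        have haw : a ≠ w := by rintro rfl; exact hnd.1 (List.mem_cons_of_mem _ hwmem)
        have hab : a ≠ b := by rintro rfl; exact hnd.1 List.mem_cons_self
        by_cases hza : z = a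
        · subst hza
          rw [if_neg hnd.1, if_pos (Or.inl rfl), if_pos List.mem_cons_self, if_pos (Or.inl rfl)]
        · by_cases hzb : z = b
          · subst hzb
            rw [if_pos List.mem_cons_self, if_pos (Or.inl rfl), if_pos (Or.inr rfl),
              if_pos (List.mem_cons_of_mem _ List.mem_cons_self), if_neg]
            rintro (h | h)
            · exact hza h
            · exact hbw h
          · rw [if_neg (by rintro (h | h); exacts [hza h, hzb h] : ¬ (z = a ∨ z = b)), add_zero]
            by_cases hzl : z ∈ b :: c :: t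
            · rw [if_pos hzl, if_pos (List.mem_cons_of_mem _ hzl)]
              by_cases hzw : z = w
              · rw [if_pos (Or.inr hzw), if_pos (Or.inr hzw)]
              · rw [if_neg, if_neg]
                · rintro (h | h)
                  exacts [hza h, hzw h]
                · rintro (h | h)
                  exacts [hzb h, hzw h]
            · rw [if_neg hzl, if_neg]
              intro h
              rcases List.mem_cons.1 h with h | h
              · exact hza h
              · exact hzl h

lemma path_ne {O : Set Edge} {v w : V} {l : List V} (h : IsP O v w l) (hl : 1 ≤ len l) : v ≠ w := by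
  obtain ⟨t, rfl⟩ := h.1.eq_cons
  cases t with
  | nil => simp [len] at hl
  | cons b t =>
    rintro rfl
    exact (List.nodup_cons.1 h.2).1 (isW_cons_cons.1 h.1).2.2.right_mem

lemma pe_isLF {O : Set Edge} {v w : V} {l : List V} (h : IsP O v w l) : IsLF (pe l) := by
  refine ⟨fun x => ?_, ?_⟩
  · rcases Nat.eq_zero_or_pos (len l) with h0 | hpos
    · obtain ⟨t, rfl⟩ := h.1.eq_cons
      cases t with
      | nil => rw [pe_single, deg_empty]; omega
      | cons b t => simp [len] at h0
    · rw [deg_pe h hpos]
      split_ifs <;> omega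
  · induction l generalizing v with
    | nil => exact absurd rfl h.1.ne_nil
    | cons a t ih =>
      cases t with
      | nil =>
        intro B hB hne
        rw [pe_single, Finset.subset_empty] at hB
        rw [hB] at hne
        exact absurd hne Finset.not_nonempty_empty
      | cons b t =>
        obtain ⟨rfl, hs, h2⟩ := isW_cons_cons.1 h.1
        intro B hB hne
        by_cases he : edgeOf a b ∈ B
        · refine ⟨a, ?_⟩
          have h3 : 1 ≤ deg B a := deg_pos he ((inc_edgeOf hs.1 a).2 (Or.inl rfl))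
          have h4 := deg_mono hB a
          rw [deg_pe h (by simp [len]), if_pos List.mem_cons_self, if_pos (Or.inl rfl)] at h4
          omega
        · refine ih h.tail B ?_ hne
          intro f hf
          have := hB hf
          rw [pe_cons_cons, Finset.mem_insert] at this
          rcases this with rfl | h5
          · exact absurd hf he
          · exact h5

lemma pe_card {O : Set Edge} {v w : V} {l : List V} (h : IsP O v w l) : (pe l).card = len l := by
  induction l generalizing v with
  | nil => exact absurd rfl h.1.ne_nil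
  | cons a t ih =>
    cases t with
    | nil => rfl
    | cons b t =>
      obtain ⟨rfl, hs, h2⟩ := isW_cons_cons.1 h.1
      rw [pe_cons_cons, Finset.card_insert_of_notMem (edgeOf_notMem_pe h), ih h.tail]
      simp [len]

lemma pe_subset {O : Set Edge} {v w : V} {l : List V} (h : IsW O v w l) :
    (↑(pe l) : Set Edge) ⊆ O := by
  induction l generalizing v with
  | nil => exact absurd rfl h.ne_nil
  | cons a t ih =>
    cases t with
    | nil => rw [pe_single, Finset.coe_empty]; exact Set.empty_subset _
    | cons b t =>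
      obtain ⟨rfl, hs, h2⟩ := isW_cons_cons.1 h
      rw [pe_cons_cons, Finset.coe_insert]
      exact Set.insert_subset hs.2 (ih h2)

theorem path_forest {O : Set Edge} {v w : V} {l : List V} (h : IsP O v w l) (hl : 1 ≤ len l) :
    IsLF (pe l) ∧ lvs (pe l) = {v, w} ∧ (pe l).card = len l ∧ (↑(pe l) : Set Edge) ⊆ O := by
  refine ⟨pe_isLF h, ?_, pe_card h, pe_subset h.1⟩
  ext z
  rw [mem_lvs, deg_pe h hl z, Finset.mem_insert, Finset.mem_singleton]
  constructor
  · intro h1
    by_contra h2
    rw [if_neg h2] at h1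
    split_ifs at h1 <;> omega
  · intro h1
    have h2 : z ∈ l := by
      rcases h1 with rfl | rfl
      · exact h.1.left_mem
      · exact h.1.right_mem
    rw [if_pos h2, if_pos h1]

theorem path_unique {O : Set Edge} {v w w' : V} {l l' : List V} (h : IsP O v w l)
    (h' : IsP O v w' l') (he : pe l = pe l') : l = l' := by
  induction l generalizing v l' with
  | nil => exact absurd rfl h.1.ne_nil
  | cons a t ih =>
    obtain ⟨t', rfl⟩ := h'.1.eq_cons
    cases t with
    | nil =>
      obtain ⟨rfl, -⟩ := isW_single.1 h.1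
      cases t' with
      | nil => rfl
      | cons b' t' =>
        rw [pe_single, pe_cons_cons] at he
        exact absurd he.symm (Finset.insert_ne_empty _ _)
    | cons b t =>
      obtain ⟨rfl, hs, h2⟩ := isW_cons_cons.1 h.1
      cases t' with
      | nil =>
        rw [pe_single, pe_cons_cons] at he
        exact absurd he (Finset.insert_ne_empty _ _)
      | cons b' t' =>
        obtain ⟨-, hs', h2'⟩ := isW_cons_cons.1 h'.1
        have h3 : edgeOf a b' ∈ pe (a :: b :: t) := by
          rw [he, pe_cons_cons]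
          exact Finset.mem_insert_self _ _
        have h4 : edgeOf a b' = edgeOf a b := by
          rw [pe_cons_cons, Finset.mem_insert] at h3
          rcases h3 with h3 | h3
          · exact h3
          · exfalso
            have h5 := pe_ends h2 h3
            have h6 := (List.nodup_cons.1 h.2).1
            rcases edgeOf_ends hs'.1 with ⟨h7, h8⟩ | ⟨h7, h8⟩
            · rw [h7] at h5; exact h6 h5.1
            · rw [h8] at h5; exact h6 h5.2
        obtain rfl := edgeOf_inj_right hs'.1 hs.1 h4
        have h5 : pe (b' :: t) = pe (b' :: t') := by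
          rw [pe_cons_cons, pe_cons_cons] at he
          have h6 := congrArg (fun s => s.erase (edgeOf a b')) he
          simpa [Finset.erase_insert (edgeOf_notMem_pe h), Finset.erase_insert
            (edgeOf_notMem_pe h')] using h6
        rw [ih h.tail h'.tail h5]

end Pool.Agent.SAWP
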