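import Pool.Agent.SAWP.U.Forest

/-!
# SAWP, case U: elementary facts on the functional `Mf` (module U4)

`Mf O Q b κ` is the maximum over `S ⊆ bd Q` of `max 0 (log (WW O (eF Q) b S) - |S|/2 κ)` (`log 0 = 0` in Lean).
-/

set_option autoImplicit false

open MeasureTheory

namespace Pool.Agent.SAWP

theorem Mf_nonneg (O : Set Edge) (Q : Finset V) (b κ : ℝ) : 0 ≤ Mf O Q b κ := by
  unfold Mf
  refine le_trans (le_max_left (0 : ℝ) (Real.log (WW O (eF Q) b ∅) - ((∅ : Finset V).card : ℝ) / 2 * κ)) ?_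
  exact Finset.le_sup' (fun S : Finset V => max 0 (Real.log (WW O (eF Q) b S) - (S.card : ℝ) / 2 * κ))
    (Finset.empty_mem_powerset _)

theorem WW_nonneg (O : Set Edge) (E : Finset Edge) (b : ℝ) (S : Finset V) : 0 ≤ WW O E b S := by
  unfold WW
  exact Finset.sum_nonneg fun _ _ => (Real.exp_pos _).le

/-- `W(S) ≤ e^{M + |S| κ/2}`. -/
theorem WW_le_Mf {O : Set Edge} {Q : Finset V} {b κ : ℝ} {S : Finset V} (hS : S ⊆ bd Q) :
    WW O (eF Q) b S ≤ Real.exp (Mf O Q b κ + S.card / 2 * κ) := by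
  rcases (WW_nonneg O (eF Q) b S).eq_or_lt with h0 | hpos
  · rw [← h0]; exact (Real.exp_pos _).le
  · rw [← Real.log_le_iff_le_exp hpos]
    have h1 : Real.log (WW O (eF Q) b S) - (S.card : ℝ) / 2 * κ ≤ Mf O Q b κ := by
      unfold Mf
      refine le_trans (le_max_right (0 : ℝ) _) ?_
      exact Finset.le_sup'
        (fun S : Finset V => max 0 (Real.log (WW O (eF Q) b S) - (S.card : ℝ) / 2 * κ))
        (Finset.mem_powerset.2 hS)
    linarith

theorem Mf_le {O : Set Edge} {Q : Finset V} {b κ t : ℝ} (hκ : 0 ≤ κ) (ht : 0 ≤ t)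
    (h : ∀ S ⊆ bd Q, WW O (eF Q) b S ≠ 0 →
      Real.log (WW O (eF Q) b S) - (S.card : ℝ) / 2 * κ ≤ t) : Mf O Q b κ ≤ t := by
  unfold Mf
  refine Finset.sup'_le _ _ fun S hS => max_le ht ?_
  by_cases h0 : WW O (eF Q) b S = 0
  · rw [h0, Real.log_zero]
    have : 0 ≤ (S.card : ℝ) / 2 * κ := by positivity
    linarith
  · exact h S (Finset.mem_powerset.1 hS) h0

/-- Crude bound for arbitrary leaf sets. -/
theorem WW_le_two_pow (O : Set Edge) (E : Finset Edge) {b : ℝ} (hb : 0 ≤ b) (S : Finset V) :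
    WW O E b S ≤ 2 ^ E.card := by
  classical
  unfold WW
  refine (Finset.sum_le_sum (g := fun _ => (1 : ℝ)) fun A _ => ?_).trans ?_
  · rw [Real.exp_le_one_iff]
    have : 0 ≤ b * (A.card : ℝ) := by positivity
    linarith
  · rw [Finset.sum_const, nsmul_eq_mul, mul_one]
    have h1 := Finset.card_le_card (Finset.filter_subset
      (fun A : Finset Edge => (↑A : Set Edge) ⊆ O ∧ IsLF A ∧ lvs A = S) E.powerset)
    rw [Finset.card_powerset] at h1
    exact_mod_cast h1

private lemma card_eF_le (Q : Finset V) : (eF Q).card ≤ 2 * Q.card := by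
  unfold eF
  refine (Finset.card_filter_le _ _).trans ?_
  rw [Finset.card_product, Finset.card_univ, Fintype.card_bool, mul_comm]

private lemma card_rect_le {u : ℕ} {Q : Finset V} (hQ : IsRect u Q) : Q.card ≤ u ^ 2 := by
  obtain ⟨a, b, c, d, rfl, h1, h2⟩ := hQ
  unfold rect
  rw [Finset.card_product, Int.card_Icc, Int.card_Icc, pow_two]
  exact Nat.mul_le_mul (by omega) (by omega)

/-- Area bound. -/
theorem Mf_le_area {O : Set Edge} {Q : Finset V} {u : ℕ} (hQ : IsRect u Q) {b κ : ℝ} (hb : 0 ≤ b)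
    (hκ : 0 ≤ κ) : Mf O Q b κ ≤ 2 * (u : ℝ) ^ 2 := by
  refine Mf_le hκ (by positivity) fun S _ h0 => ?_
  have hpos : 0 < WW O (eF Q) b S := lt_of_le_of_ne (WW_nonneg _ _ _ _) (Ne.symm h0)
  have h1 : Real.log (WW O (eF Q) b S) ≤ (eF Q).card * Real.log 2 := by
    rw [← Real.log_pow]
    exact Real.log_le_log hpos (WW_le_two_pow O (eF Q) hb S)
  have h2 : ((eF Q).card : ℝ) ≤ 2 * (u : ℝ) ^ 2 := by
    have h3 := (card_eF_le Q).trans (Nat.mul_le_mul_left 2 (card_rect_le hQ))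
    exact_mod_cast h3
  have h3 : Real.log 2 ≤ 1 := by
    have := Real.log_two_lt_d9
    linarith
  have h4 : 0 ≤ Real.log 2 := Real.log_nonneg (by norm_num)
  have h5 : 0 ≤ (S.card : ℝ) / 2 * κ := by positivity
  have h6 : ((eF Q).card : ℝ) * Real.log 2 ≤ 2 * (u : ℝ) ^ 2 * 1 :=
    mul_le_mul h2 h3 h4 (by positivity)
  linarith

private lemma WW_congr {O O' : Set Edge} {E : Finset Edge} (b : ℝ) (S : Finset V)
    (h : ∀ e ∈ E, (e ∈ O ↔ e ∈ O')) : WW O E b S = WW O' E b S := by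
  classical
  unfold WW
  refine Finset.sum_congr ?_ fun _ _ => rfl
  refine Finset.filter_congr fun A hA => ?_
  have hA' := Finset.mem_powerset.1 hA
  have h1 : (↑A : Set Edge) ⊆ O ↔ (↑A : Set Edge) ⊆ O' := by
    constructor
    · intro h2 e he
      exact (h e (hA' he)).1 (h2 he)
    · intro h2 e he
      exact (h e (hA' he)).2 (h2 he)
  rw [h1]

/-- The functional depends only on the edges inside `Q`. -/
theorem dep_Mf (Q : Finset V) (b κ t : ℝ) :
    Dep (↑(eF Q) : Set Edge) {ω | t < Mf (Op ω) Q b κ} := by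
  intro ω ω' h
  have h1 : ∀ S, WW (Op ω) (eF Q) b S = WW (Op ω') (eF Q) b S := by
    intro S
    refine WW_congr b S fun e he => ?_
    simp only [Op, Set.mem_ofPred_eq]
    rw [h e he]
  have h2 : Mf (Op ω) Q b κ = Mf (Op ω') Q b κ := by
    unfold Mf
    simp only [h1]
  simp only [Set.mem_ofPred_eq, h2]

/-- `W` is nonincreasing in `b`. -/
theorem WW_anti {O : Set Edge} {E : Finset Edge} {b b' : ℝ} (h : b ≤ b') (S : Finset V) :
    WW O E b' S ≤ WW O E b S := by
  unfold WW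
  refine Finset.sum_le_sum fun A _ => ?_
  rw [Real.exp_le_exp]
  have : b * (A.card : ℝ) ≤ b' * A.card := mul_le_mul_of_nonneg_right h (Nat.cast_nonneg _)
  linarith

end Pool.Agent.SAWP
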