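import Pool.Agent.SAWP.U.Func

/-!
# SAWP, case U: cutting a linear forest by a mesh (module U5; paper 3.4)

`u ≥ 1`, offset `o`, cells `cell Q u o z`, `z ∈ zs Q u o`, `cut u o A` = edges joining different cells.

(M1) `sum_cut`: every edge is cut by exactly `u` of the `u²` offsets (a horizontal edge `{x, x+e₁}` is cut iff
`x₁+1 ≡ o₁ mod u`), so `∑_{o ∈ offs u} |cut u o A| = u |A|`.
(M2) `cell_rect`: the cells of a rectangle are rectangles of size `≤ u`.
(M3) `zs_card`: a rectangle of size `≤ 16u` has at most `17² = 289` cells.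
(M4) `lvs_cell`: for a linear forest `A ⊆ eF Q` with leaf set `S` and `F = cut u o A`:
`lvs (A ∩ eF (cell Q u o z)) = Sc S F (cell Q u o z)` for `z ∈ zs Q u o`. (For `x` in the cell the edges of `A` at `x` are those of
`A ∩ eF (cell)` and those of `F`: `deg_{A_c} x = deg_A x - deg_F x`; `deg_A x ≤ 2`, and `x ∈ S ↔ deg_A x = 1`.)
(M5) `sum_Sc`: `∑_z |Sc S F (cell z)| ≤ |S| + 2|F|`.
(M6) `Sc_bd`: if `F ⊆ cut u o (eF Q)` and `S ∩ cell ⊆ bd cell` then `Sc S F cell ⊆ bd cell`.
(M7) `decomp` (paper 3.4a): for `F ⊆ cut u o (eF Q)`, `b ≥ 0`: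
`∑_{A LF, A ⊆ eF Q ∩ O, lvs A = S, cut u o A = F} e^{-b|A|} ≤ ∏_z WW O (eF (cell z)) b (Sc S F (cell z))`
(the map `A ↦ (A ∩ eF (cell z))_z` is injective, `A = F ∪ ⋃_z A ∩ eF(cell z)`, `|A| ≥ ∑_z |A ∩ eF (cell z)|`;
`Finset.prod_univ_sum` / `Finset.sum_prod_piFinset`-type expansion of the product).
-/

set_option autoImplicit false

namespace Pool.Agent.SAWP

/-- exactly one offset cuts a given unit step -/
lemma mesh_one {u : ℕ} (hu : 1 ≤ u) (t : ℤ) :
    ((Finset.Ico (0 : ℤ) u).filter (fun o => (t - o) / (u : ℤ) ≠ (t + 1 - o) / (u : ℤ))).card = 1 := by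
  have hu' : (0 : ℤ) < u := by exact_mod_cast hu
  rw [Finset.card_eq_one]
  refine ⟨(t + 1) % u, ?_⟩
  ext o
  rw [Finset.mem_filter, Finset.mem_Ico, Finset.mem_singleton]
  have h1 := Int.emod_nonneg (t + 1) hu'.ne'
  have h2 := Int.emod_lt_of_pos (t + 1) hu'
  have h3 := Int.emod_add_mul_ediv (t + 1) u
  set q := (t + 1) / (u : ℤ) with hq
  set r := (t + 1) % (u : ℤ) with hr
  constructor
  · rintro ⟨⟨ho0, ho1⟩, hne⟩
    by_contra hor
    apply hne
    rcases lt_or_gt_of_ne hor with h | h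
    · -- o < r
      have e1 : (t - o) / (u : ℤ) = q := by
        rw [Int.ediv_eq_iff_of_pos hu']
        constructor <;> nlinarith
      have e2 : (t + 1 - o) / (u : ℤ) = q := by
        rw [Int.ediv_eq_iff_of_pos hu']
        constructor <;> nlinarith
      rw [e1, e2]
    · have e1 : (t - o) / (u : ℤ) = q - 1 := by
        rw [Int.ediv_eq_iff_of_pos hu']
        constructor <;> nlinarith
      have e2 : (t + 1 - o) / (u : ℤ) = q - 1 := by
        rw [Int.ediv_eq_iff_of_pos hu']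
        constructor <;> nlinarith
      rw [e1, e2]
  · rintro rfl
    refine ⟨⟨h1, h2⟩, ?_⟩
    have e1 : (t - r) / (u : ℤ) = q - 1 := by
      rw [Int.ediv_eq_iff_of_pos hu']
      constructor <;> nlinarith
    have e2 : (t + 1 - r) / (u : ℤ) = q := by
      rw [Int.ediv_eq_iff_of_pos hu']
      constructor <;> nlinarith
    rw [e1, e2]
    omega

lemma mesh_edge {u : ℕ} (hu : 1 ≤ u) (e : Edge) :
    ((offs u).filter (fun o => idx u o (src e) ≠ idx u o (tgt e))).card = u := by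
  classical
  obtain ⟨⟨x, y⟩, b⟩ := e
  have hcard : (Finset.Ico (0 : ℤ) u).card = u := by simp
  cases b
  · -- horizontal
    have h : (offs u).filter (fun o => idx u o (src ((x, y), false)) ≠ idx u o (tgt ((x, y), false))) =
        ((Finset.Ico (0 : ℤ) u).filter (fun o => (x - o) / (u : ℤ) ≠ (x + 1 - o) / (u : ℤ))) ×ˢ
          Finset.Ico (0 : ℤ) u := by
      ext ⟨o₁, o₂⟩
      simp only [offs, src, tgt, idx, Finset.mem_filter, Finset.mem_product, ne_eq, Prod.mk.injEq,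
        Bool.false_eq_true, if_false, and_true]
      tauto
    rw [h, Finset.card_product, mesh_one hu, hcard, one_mul]
  · have h : (offs u).filter (fun o => idx u o (src ((x, y), true)) ≠ idx u o (tgt ((x, y), true))) =
        Finset.Ico (0 : ℤ) u ×ˢ
        ((Finset.Ico (0 : ℤ) u).filter (fun o => (y - o) / (u : ℤ) ≠ (y + 1 - o) / (u : ℤ))) := by
      ext ⟨o₁, o₂⟩
      simp only [offs, src, tgt, idx, Finset.mem_filter, Finset.mem_product, ne_eq, Prod.mk.injEq,
        if_true, true_and]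
      tauto
    rw [h, Finset.card_product, mesh_one hu, hcard, mul_one]

theorem sum_cut {u : ℕ} (hu : 1 ≤ u) (A : Finset Edge) :
    ∑ o ∈ offs u, (cut u o A).card = u * A.card := by
  classical
  have h1 : ∀ o ∈ offs u, (cut u o A).card =
      ∑ e ∈ A, if idx u o (src e) ≠ idx u o (tgt e) then 1 else 0 := by
    intro o _
    rw [cut, Finset.card_filter]
  rw [Finset.sum_congr rfl h1, Finset.sum_comm]
  have h2 : ∀ e ∈ A, (∑ o ∈ offs u, if idx u o (src e) ≠ idx u o (tgt e) then 1 else 0) = u := by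
    intro e _
    rw [← Finset.card_filter, mesh_edge hu]
  rw [Finset.sum_congr rfl h2, Finset.sum_const, smul_eq_mul, mul_comm]

theorem cell_rect {u v : ℕ} (hu : 1 ≤ u) {Q : Finset V} (hQ : IsRect v Q) (o z : V) :
    IsRect u (cell Q u o z) := by
  obtain ⟨a, b, c, d, rfl, -, -⟩ := hQ
  have hu' : (0 : ℤ) < u := by exact_mod_cast hu
  refine ⟨max a (o.1 + u * z.1), min b (o.1 + u * z.1 + u - 1), max c (o.2 + u * z.2),
    min d (o.2 + u * z.2 + u - 1), ?_, ?_, ?_⟩
  · ext ⟨x, y⟩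
    simp only [cell, rect, idx, Finset.mem_filter, Finset.mem_product, Finset.mem_Icc, Prod.ext_iff]
    rw [Int.ediv_eq_iff_of_pos hu', Int.ediv_eq_iff_of_pos hu']
    constructor
    · rintro ⟨⟨⟨h1, h2⟩, h3, h4⟩, ⟨h5, h6⟩, h7, h8⟩
      refine ⟨⟨?_, ?_⟩, ?_, ?_⟩
      · rw [max_le_iff]; constructor <;> linarith
      · rw [le_min_iff]; constructor <;> linarith
      · rw [max_le_iff]; constructor <;> linarith
      · rw [le_min_iff]; constructor <;> linarith
    · rintro ⟨⟨h1, h2⟩, h3, h4⟩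
      rw [max_le_iff] at h1 h3
      rw [le_min_iff] at h2 h4
      refine ⟨⟨⟨h1.1, h2.1⟩, h3.1, h4.1⟩, ⟨?_, ?_⟩, ?_, ?_⟩ <;> linarith
  · have h1 := min_le_right b (o.1 + u * z.1 + u - 1)
    have h2 := le_max_right a (o.1 + u * z.1)
    linarith
  · have h1 := min_le_right d (o.2 + u * z.2 + u - 1)
    have h2 := le_max_right c (o.2 + u * z.2)
    linarith

theorem zs_card {u : ℕ} (hu : 1 ≤ u) {Q : Finset V} (hQ : IsRect (16 * u) Q) (o : V) :
    (zs Q u o).card ≤ 289 := by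
  obtain ⟨a, b, c, d, rfl, hb, hd⟩ := hQ
  have hu' : (0 : ℤ) < u := by exact_mod_cast hu
  push_cast at hb hd
  have key : ∀ a b t o : ℤ, a ≤ t → t ≤ b → b < a + 16 * u →
      (t - o) / (u : ℤ) ∈ Finset.Icc ((a - o) / (u : ℤ)) ((a - o) / (u : ℤ) + 16) := by
    intro a b t o h1 h2 h3
    rw [Finset.mem_Icc]
    constructor
    · exact Int.ediv_le_ediv hu' (by linarith)
    · have h4 : (t - o) / (u : ℤ) ≤ ((a - o) + 16 * u) / (u : ℤ) :=
        Int.ediv_le_ediv hu' (by linarith)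
      rwa [Int.add_mul_ediv_right _ _ hu'.ne'] at h4
  have hsub : zs (rect a b c d) u o ⊆
      Finset.Icc ((a - o.1) / (u : ℤ)) ((a - o.1) / (u : ℤ) + 16) ×ˢ
        Finset.Icc ((c - o.2) / (u : ℤ)) ((c - o.2) / (u : ℤ) + 16) := by
    intro z hz
    rw [zs, Finset.mem_image] at hz
    obtain ⟨⟨x, y⟩, hxy, rfl⟩ := hz
    simp only [rect, Finset.mem_product, Finset.mem_Icc] at hxy
    rw [Finset.mem_product]
    exact ⟨key a b x o.1 hxy.1.1 hxy.1.2 hb, key c d y o.2 hxy.2.1 hxy.2.2 hd⟩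
  refine (Finset.card_le_card hsub).trans ?_
  rw [Finset.card_product, Int.card_Icc, Int.card_Icc]
  have e1 : ∀ m : ℤ, (m + 16 + 1 - m).toNat = 17 := by
    intro m
    have : m + 16 + 1 - m = 17 := by ring
    rw [this]; rfl
  rw [e1, e1]

lemma mesh_mem_eF {R : Finset V} {e : Edge} : e ∈ eF R ↔ src e ∈ R ∧ tgt e ∈ R := by
  simp [eF, src]

lemma mesh_mem_cell {Q : Finset V} {u : ℕ} {o z x : V} :
    x ∈ cell Q u o z ↔ x ∈ Q ∧ idx u o x = z := by
  simp [cell]

lemma mesh_deg_split {u : ℕ} {Q : Finset V} {o z x : V} {A : Finset Edge} (hAQ : A ⊆ eF Q)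
    (hx : x ∈ cell Q u o z) :
    deg A x = deg (A ∩ eF (cell Q u o z)) x + deg (cut u o A) x := by
  classical
  unfold deg
  rw [← Finset.card_union_of_disjoint]
  · congr 1
    ext e
    simp only [Finset.mem_filter, Finset.mem_union, Finset.mem_inter, cut]
    constructor
    · rintro ⟨heA, hex⟩
      by_cases hc : idx u o (src e) = idx u o (tgt e)
      · left
        have h1 := mesh_mem_eF.1 (hAQ heA)
        have hz := (mesh_mem_cell.1 hx).2
        refine ⟨⟨heA, mesh_mem_eF.2 ⟨mesh_mem_cell.2 ⟨h1.1, ?_⟩, mesh_mem_cell.2 ⟨h1.2, ?_⟩⟩⟩, hex⟩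
        · rcases hex with h | h
          · rw [h]; exact hz
          · rw [hc, h]; exact hz
        · rcases hex with h | h
          · rw [← hc, h]; exact hz
          · rw [h]; exact hz
      · right
        exact ⟨⟨heA, hc⟩, hex⟩
    · rintro (⟨⟨h1, -⟩, h2⟩ | ⟨⟨h1, -⟩, h2⟩)
      · exact ⟨h1, h2⟩
      · exact ⟨h1, h2⟩
  · rw [Finset.disjoint_left]
    intro e h1 h2
    simp only [Finset.mem_filter, Finset.mem_inter, cut] at h1 h2
    have h3 := mesh_mem_eF.1 h1.1.2
    apply h2.1.2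
    rw [(mesh_mem_cell.1 h3.1).2, (mesh_mem_cell.1 h3.2).2]

lemma mesh_mem_lvs {A : Finset Edge} {x : V} : x ∈ lvs A ↔ deg A x = 1 := by
  classical
  unfold lvs
  rw [Finset.mem_filter]
  refine ⟨fun h => h.2, fun h => ⟨?_, h⟩⟩
  have h1 : 0 < deg A x := by omega
  unfold deg at h1
  rw [Finset.card_pos] at h1
  obtain ⟨e, he⟩ := h1
  rw [Finset.mem_filter] at he
  unfold verts
  rw [Finset.mem_union, Finset.mem_image, Finset.mem_image]
  rcases he.2 with h2 | h2
  · exact Or.inl ⟨e, he.1, h2⟩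
  · exact Or.inr ⟨e, he.1, h2⟩

lemma mesh_deg_zero {Q : Finset V} {A : Finset Edge} {x : V} (hx : x ∉ Q) :
    deg (A ∩ eF Q) x = 0 := by
  classical
  unfold deg
  rw [Finset.card_eq_zero, Finset.filter_eq_empty_iff]
  intro e he h
  have h1 := mesh_mem_eF.1 (Finset.mem_inter.1 he).2
  rcases h with h | h
  · exact hx (h ▸ h1.1)
  · exact hx (h ▸ h1.2)

theorem lvs_cell {u : ℕ} {Q : Finset V} {o z : V} {A : Finset Edge} (hA : IsLF A)
    (hAQ : A ⊆ eF Q) :
    lvs (A ∩ eF (cell Q u o z)) = Sc (lvs A) (cut u o A) (cell Q u o z) := by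
  classical
  ext x
  rw [mesh_mem_lvs, Sc, Finset.mem_filter]
  by_cases hx : x ∈ cell Q u o z
  · have h1 := mesh_deg_split hAQ hx
    have h2 := hA.1 x
    rw [mesh_mem_lvs]
    constructor
    · intro h
      refine ⟨hx, ?_⟩
      rcases Nat.eq_zero_or_pos (deg (cut u o A) x) with h3 | h3
      · left; exact ⟨h3, by omega⟩
      · right; exact ⟨by omega, by omega⟩
    · rintro ⟨-, ⟨h3, h4⟩ | ⟨h3, h4⟩⟩
      · omega
      · omega
  · constructor
    · intro h
      rw [mesh_deg_zero hx] at h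
      exact absurd h (by omega)
    · exact fun h => absurd h.1 hx

theorem sum_Sc {u : ℕ} {Q : Finset V} {o : V} (S : Finset V) (F : Finset Edge) :
    ∑ z ∈ zs Q u o, (Sc S F (cell Q u o z)).card ≤ S.card + 2 * F.card := by
  classical
  have hdisj : ∀ z ∈ zs Q u o, ∀ z' ∈ zs Q u o, z ≠ z' →
      Disjoint (Sc S F (cell Q u o z)) (Sc S F (cell Q u o z')) := by
    intro z _ z' _ hne
    rw [Finset.disjoint_left]
    intro x h1 h2
    unfold Sc at h1 h2
    rw [Finset.mem_filter] at h1 h2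
    exact hne ((mesh_mem_cell.1 h1.1).2.symm.trans (mesh_mem_cell.1 h2.1).2)
  rw [← Finset.card_biUnion hdisj]
  have hsub : (zs Q u o).biUnion (fun z => Sc S F (cell Q u o z)) ⊆ S ∪ verts F := by
    intro x hx
    rw [Finset.mem_biUnion] at hx
    obtain ⟨z, _, hx⟩ := hx
    unfold Sc at hx
    rw [Finset.mem_filter] at hx
    rw [Finset.mem_union]
    rcases hx.2 with h | h
    · exact Or.inl h.2
    · right
      exact (Finset.mem_filter.1 (mesh_mem_lvs.2 h.1)).1
  refine (Finset.card_le_card hsub).trans ((Finset.card_union_le _ _).trans ?_)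
  have h1 : (verts F).card ≤ 2 * F.card := by
    unfold verts
    refine (Finset.card_union_le _ _).trans ?_
    have h2 : (F.image src).card ≤ F.card := Finset.card_image_le
    have h3 : (F.image tgt).card ≤ F.card := Finset.card_image_le
    omega
  omega

lemma mesh_adj (e : Edge) : Adj (src e) (tgt e) ∧ Adj (tgt e) (src e) := by
  obtain ⟨⟨x, y⟩, b⟩ := e
  cases b <;> simp [Adj, src, tgt]

theorem Sc_bd {u : ℕ} {Q : Finset V} {o z : V} {S : Finset V} {F : Finset Edge}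
    (hF : F ⊆ cut u o (eF Q)) (hS : ∀ x ∈ S, x ∈ cell Q u o z → x ∈ bd (cell Q u o z)) :
    Sc S F (cell Q u o z) ⊆ bd (cell Q u o z) := by
  classical
  intro x hx
  unfold Sc at hx
  rw [Finset.mem_filter] at hx
  obtain ⟨hxc, h⟩ := hx
  rcases h with h | h
  · exact hS x h.2 hxc
  · have h1 : 0 < deg F x := by omega
    unfold deg at h1
    rw [Finset.card_pos] at h1
    obtain ⟨e, he⟩ := h1
    rw [Finset.mem_filter] at he
    have h2 := hF he.1
    unfold cut at h2
    rw [Finset.mem_filter] at h2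
    unfold bd
    rw [Finset.mem_filter]
    refine ⟨hxc, ?_⟩
    have hz := (mesh_mem_cell.1 hxc).2
    rcases he.2 with h3 | h3
    · refine ⟨tgt e, h3 ▸ (mesh_adj e).1, fun h4 => h2.2 ?_⟩
      rw [h3, hz, (mesh_mem_cell.1 h4).2]
    · refine ⟨src e, h3 ▸ (mesh_adj e).2, fun h4 => h2.2 ?_⟩
      rw [h3, hz, (mesh_mem_cell.1 h4).2]

/-- A boundary vertex of `Q` is a boundary vertex of its cell. -/
theorem bd_cell {u : ℕ} {Q : Finset V} {o z x : V} (hx : x ∈ bd Q) (hz : x ∈ cell Q u o z) :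
    x ∈ bd (cell Q u o z) := by
  classical
  unfold bd at hx ⊢
  rw [Finset.mem_filter] at hx ⊢
  obtain ⟨y, h1, h2⟩ := hx.2
  exact ⟨hz, y, h1, fun h => h2 (mesh_mem_cell.1 h).1⟩

open Classical in
theorem decomp {O : Set Edge} {Q : Finset V} {u : ℕ} {o : V} {b : ℝ} (hb : 0 ≤ b) (S : Finset V)
    {F : Finset Edge} (hF : F ⊆ cut u o (eF Q)) :
    ∑ A ∈ (eF Q).powerset.filter
        (fun A : Finset Edge => ((↑A : Set Edge) ⊆ O ∧ IsLF A ∧ lvs A = S) ∧ cut u o A = F),
      Real.exp (-(b * (A.card : ℝ))) ≤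
    ∏ z ∈ zs Q u o, WW O (eF (cell Q u o z)) b (Sc S F (cell Q u o z)) := by
  set D := (eF Q).powerset.filter
        (fun A : Finset Edge => ((↑A : Set Edge) ⊆ O ∧ IsLF A ∧ lvs A = S) ∧ cut u o A = F) with hD
  have hDm : ∀ A ∈ D, A ⊆ eF Q ∧ (↑A : Set Edge) ⊆ O ∧ IsLF A ∧ lvs A = S ∧ cut u o A = F := by
    intro A hA
    rw [hD, Finset.mem_filter, Finset.mem_powerset] at hA
    exact ⟨hA.1, hA.2.1.1, hA.2.1.2.1, hA.2.1.2.2, hA.2.2⟩
  let φ : Finset Edge → (∀ z ∈ zs Q u o, Finset Edge) := fun A z _ => A ∩ eF (cell Q u o z)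
  let T : V → Finset (Finset Edge) := fun z => (eF (cell Q u o z)).powerset.filter
    (fun A : Finset Edge => (↑A : Set Edge) ⊆ O ∧ IsLF A ∧ lvs A = Sc S F (cell Q u o z))
  have hWW : ∀ z, WW O (eF (cell Q u o z)) b (Sc S F (cell Q u o z)) =
      ∑ A ∈ T z, Real.exp (-(b * (A.card : ℝ))) := fun z => rfl
  simp only [hWW]
  rw [Finset.prod_sum]
  have hφT : ∀ A ∈ D, φ A ∈ (zs Q u o).pi T := by
    intro A hA
    obtain ⟨h1, h2, h3, h4, h5⟩ := hDm A hA
    rw [Finset.mem_pi]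
    intro z _
    change A ∩ eF (cell Q u o z) ∈ T z
    rw [Finset.mem_filter, Finset.mem_powerset]
    refine ⟨Finset.inter_subset_right, ?_, h3.subset Finset.inter_subset_left, ?_⟩
    · refine Set.Subset.trans ?_ h2
      exact_mod_cast Finset.inter_subset_left
    · rw [lvs_cell h3 h1, h4, h5]
  have hinj : Set.InjOn φ (↑D : Set (Finset Edge)) := by
    have key : ∀ A ∈ D, ∀ A' ∈ D, φ A = φ A' → A ⊆ A' := by
      intro A hA A' hA' he e heA
      obtain ⟨h1, h2, h3, h4, h5⟩ := hDm A hA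
      obtain ⟨h1', h2', h3', h4', h5'⟩ := hDm A' hA'
      by_cases hc : idx u o (src e) = idx u o (tgt e)
      · have h6 := mesh_mem_eF.1 (h1 heA)
        have hz : idx u o (src e) ∈ zs Q u o := Finset.mem_image_of_mem _ h6.1
        have h7 := congrFun (congrFun he (idx u o (src e))) hz
        change A ∩ eF (cell Q u o (idx u o (src e))) = A' ∩ eF (cell Q u o (idx u o (src e))) at h7
        have h8 : e ∈ A ∩ eF (cell Q u o (idx u o (src e))) :=
          Finset.mem_inter.2 ⟨heA, mesh_mem_eF.2 ⟨mesh_mem_cell.2 ⟨h6.1, rfl⟩, mesh_mem_cell.2 ⟨h6.2, hc.symm⟩⟩⟩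
        rw [h7] at h8
        exact (Finset.mem_inter.1 h8).1
      · have h6 : e ∈ cut u o A := Finset.mem_filter.2 ⟨heA, hc⟩
        rw [h5, ← h5'] at h6
        exact (Finset.mem_filter.1 h6).1
    intro A hA A' hA' he
    exact Finset.Subset.antisymm (key A hA A' hA' he) (key A' hA' A hA he.symm)
  have hle : ∀ A ∈ D, Real.exp (-(b * (A.card : ℝ))) ≤
      ∏ x ∈ (zs Q u o).attach, Real.exp (-(b * (((φ A x.1 x.2).card : ℕ) : ℝ))) := by
    intro A hA
    rw [← Real.exp_sum]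
    apply Real.exp_le_exp.2
    rw [Finset.sum_neg_distrib, neg_le_neg_iff, ← Finset.mul_sum]
    refine mul_le_mul_of_nonneg_left ?_ hb
    rw [Finset.sum_attach (zs Q u o) (fun z => ((A ∩ eF (cell Q u o z)).card : ℝ))]
    have h1 : ∑ z ∈ zs Q u o, (A ∩ eF (cell Q u o z)).card ≤ A.card := by
      rw [← Finset.card_biUnion]
      · refine Finset.card_le_card fun e he => ?_
        rw [Finset.mem_biUnion] at he
        obtain ⟨z, _, he⟩ := he
        exact (Finset.mem_inter.1 he).1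
      · intro z _ z' _ hne
        change Disjoint (A ∩ eF (cell Q u o z)) (A ∩ eF (cell Q u o z'))
        rw [Finset.disjoint_left]
        intro e h1 h2
        have h3 := mesh_mem_eF.1 (Finset.mem_inter.1 h1).2
        have h4 := mesh_mem_eF.1 (Finset.mem_inter.1 h2).2
        exact hne ((mesh_mem_cell.1 h3.1).2.symm.trans (mesh_mem_cell.1 h4.1).2)
    exact_mod_cast h1
  calc ∑ A ∈ D, Real.exp (-(b * (A.card : ℝ)))
      ≤ ∑ A ∈ D, ∏ x ∈ (zs Q u o).attach, Real.exp (-(b * (((φ A x.1 x.2).card : ℕ) : ℝ))) :=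
        Finset.sum_le_sum hle
    _ = ∑ p ∈ D.image φ, ∏ x ∈ (zs Q u o).attach, Real.exp (-(b * (((p x.1 x.2).card : ℕ) : ℝ))) :=
        (Finset.sum_image (f := fun p : (∀ z ∈ zs Q u o, Finset Edge) =>
          ∏ x ∈ (zs Q u o).attach, Real.exp (-(b * (((p x.1 x.2).card : ℕ) : ℝ)))) hinj).symm
    _ ≤ ∑ p ∈ (zs Q u o).pi T, ∏ x ∈ (zs Q u o).attach,
          Real.exp (-(b * (((p x.1 x.2).card : ℕ) : ℝ))) := by
        refine Finset.sum_le_sum_of_subset_of_nonneg ?_ fun p _ _ =>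
          Finset.prod_nonneg fun _ _ => (Real.exp_pos _).le
        intro p hp
        rw [Finset.mem_image] at hp
        obtain ⟨A, hA, rfl⟩ := hp
        exact hφT A hA

end Pool.Agent.SAWP
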