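import Pool.Agent.SAWP.U.Mesh

/-!
# SAWP, case U: the mesh lemma (module U6; paper 3.4, LEMMA)

Let `κ > 0`, `b ≥ 0`, let `Off ⊆ offs u` contain at least half of the offsets, and suppose for `o ∈ Off` and all
`F ⊆ cut u o (eF Q)`: `∏_z WW O (eF (cell z)) b (Sc S F (cell z)) ≤ exp (q + (|S|+2|F|) κ/2)`.  Then
`WW O (eF Q) (b+4κ/u) S ≤ u² exp(q + |S| κ/2) exp(|eF Q| e^{-κ})`.

Proof. For each `A` counted on the left there is `o ∈ Off` with `u |cut u o A| ≤ 2|A|`: otherwise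
`∑_{o∈Off} u |cut u o A| > 2 |A| |Off| ≥ u² |A|`, contradicting `sum_cut` (for `A = ∅` trivial). For such `o`, with `F = cut u o A`,
`e^{-(b+4κ/u)|A|} ≤ e^{-b|A|} e^{-2κ|F|}`.  Sum over `o ∈ Off` and `F ⊆ cut u o (eF Q)`, use `decomp` and the hypothesis:
`≤ ∑_{o∈Off} ∑_F e^{-2κ|F| + q + (|S|+2|F|)κ/2} = ∑_o e^{q+|S|κ/2} ∑_F e^{-κ|F|} ≤ u² e^{q+|S|κ/2} (1+e^{-κ})^{|eF Q|}`, and
`1 + x ≤ e^x`.
-/

set_option autoImplicit false

namespace Pool.Agent.SAWP

/-- A good offset: the average over `Off` of the number of cut edges is at most `2|A|/u`. -/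
lemma mesh_good_offset {u : ℕ} (hu : 1 ≤ u) {Off : Finset V} (hOff : Off ⊆ offs u)
    (hcard : (u : ℝ) ^ 2 ≤ 2 * (Off.card : ℝ)) (A : Finset Edge) :
    ∃ o ∈ Off, (u : ℝ) * ((cut u o A).card : ℝ) ≤ 2 * (A.card : ℝ) := by
  have hu0 : (0 : ℝ) < u := by exact_mod_cast hu
  have hOffpos : 0 < (Off.card : ℝ) := by
    have : (0 : ℝ) < (u : ℝ) ^ 2 := by positivity
    linarith
  have hne : Off.Nonempty := by
    rw [← Finset.card_pos]; exact_mod_cast hOffpos
  by_contra hcon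
  push Not at hcon
  have h1 : ∑ o ∈ Off, (2 * (A.card : ℝ)) < ∑ o ∈ Off, (u : ℝ) * ((cut u o A).card : ℝ) :=
    Finset.sum_lt_sum_of_nonempty hne hcon
  have h2 : ∑ o ∈ Off, (u : ℝ) * ((cut u o A).card : ℝ) ≤
      ∑ o ∈ offs u, (u : ℝ) * ((cut u o A).card : ℝ) :=
    Finset.sum_le_sum_of_subset_of_nonneg hOff fun _ _ _ => by positivity
  have h3 : ∑ o ∈ offs u, (u : ℝ) * ((cut u o A).card : ℝ) = (u : ℝ) ^ 2 * A.card := by
    rw [← Finset.mul_sum]
    have h4 := sum_cut hu A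
    have h5 : ∑ o ∈ offs u, ((cut u o A).card : ℝ) = (u : ℝ) * A.card := by exact_mod_cast h4
    rw [h5]; ring
  rw [Finset.sum_const, nsmul_eq_mul] at h1
  have h6 : (u : ℝ) ^ 2 * A.card ≤ 2 * (Off.card : ℝ) * A.card :=
    mul_le_mul_of_nonneg_right hcard (by positivity)
  nlinarith

lemma mesh_sum_powerset (T : Finset Edge) (κ : ℝ) :
    ∑ F ∈ T.powerset, Real.exp (-(κ * (F.card : ℝ))) ≤ Real.exp ((T.card : ℝ) * Real.exp (-κ)) := by
  have h1 : ∑ F ∈ T.powerset, Real.exp (-(κ * (F.card : ℝ))) = (1 + Real.exp (-κ)) ^ T.card := by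
    have h2 := Finset.prod_one_add (f := fun _ : Edge => Real.exp (-κ)) T
    rw [Finset.prod_const] at h2
    rw [h2]
    refine Finset.sum_congr rfl fun F _ => ?_
    rw [Finset.prod_const, ← Real.exp_nat_mul]
    congr 1; ring
  rw [h1, Real.exp_nat_mul]
  refine pow_le_pow_left₀ (by positivity) ?_ _
  rw [add_comm]; exact Real.add_one_le_exp _

theorem mesh_lemma {O : Set Edge} {Q : Finset V} {u : ℕ} (hu : 1 ≤ u) {b κ q : ℝ} (hb : 0 ≤ b)
    (hκ : 0 < κ) (S : Finset V) {Off : Finset V} (hOff : Off ⊆ offs u)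
    (hcard : (u : ℝ) ^ 2 ≤ 2 * (Off.card : ℝ))
    (hprod : ∀ o ∈ Off, ∀ F ⊆ cut u o (eF Q),
      ∏ z ∈ zs Q u o, WW O (eF (cell Q u o z)) b (Sc S F (cell Q u o z)) ≤
        Real.exp (q + ((S.card : ℝ) + 2 * F.card) * κ / 2)) :
    WW O (eF Q) (b + 4 * κ / u) S ≤
      (u : ℝ) ^ 2 * Real.exp (q + S.card * κ / 2) * Real.exp ((eF Q).card * Real.exp (-κ)) := by
  classical
  have hu0 : (0 : ℝ) < u := by exact_mod_cast hu
  set 𝒜 := (eF Q).powerset.filter
    (fun A : Finset Edge => (↑A : Set Edge) ⊆ O ∧ IsLF A ∧ lvs A = S) with h𝒜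
  have hW : WW O (eF Q) (b + 4 * κ / u) S =
      ∑ A ∈ 𝒜, Real.exp (-((b + 4 * κ / u) * (A.card : ℝ))) := by
    rw [WW, h𝒜]
  rw [hW]
  -- step 1: pointwise bound
  have h1 : ∀ A ∈ 𝒜, Real.exp (-((b + 4 * κ / u) * (A.card : ℝ))) ≤
      ∑ o ∈ Off, Real.exp (-(b * (A.card : ℝ))) * Real.exp (-(2 * κ * ((cut u o A).card : ℝ))) := by
    intro A _
    obtain ⟨o, ho, hoA⟩ := mesh_good_offset hu hOff hcard A
    refine le_trans ?_ (Finset.single_le_sum
      (f := fun o => Real.exp (-(b * (A.card : ℝ))) * Real.exp (-(2 * κ * ((cut u o A).card : ℝ))))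
      (fun _ _ => by positivity) ho)
    rw [← Real.exp_add]
    apply Real.exp_le_exp.2
    have h2 : ((cut u o A).card : ℝ) ≤ 2 * (A.card : ℝ) / u := by
      rw [le_div_iff₀ hu0]; linarith
    have h3 : 2 * κ * ((cut u o A).card : ℝ) ≤ 4 * κ / u * (A.card : ℝ) := by
      calc 2 * κ * ((cut u o A).card : ℝ) ≤ 2 * κ * (2 * (A.card : ℝ) / u) :=
            mul_le_mul_of_nonneg_left h2 (by positivity)
        _ = 4 * κ / u * (A.card : ℝ) := by ring
    nlinarith
  -- step 2: for each offset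
  have h2 : ∀ o ∈ Off, ∑ A ∈ 𝒜, Real.exp (-(b * (A.card : ℝ))) *
      Real.exp (-(2 * κ * ((cut u o A).card : ℝ))) ≤
      Real.exp (q + S.card * κ / 2) * Real.exp ((eF Q).card * Real.exp (-κ)) := by
    intro o ho
    have hmaps : ∀ A ∈ 𝒜, cut u o A ∈ (cut u o (eF Q)).powerset := by
      intro A hA
      rw [h𝒜, Finset.mem_filter, Finset.mem_powerset] at hA
      rw [Finset.mem_powerset]
      exact Finset.filter_subset_filter _ hA.1
    rw [← Finset.sum_fiberwise_of_maps_to hmaps]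
    have h3 : ∀ F ∈ (cut u o (eF Q)).powerset,
        ∑ A ∈ 𝒜 with cut u o A = F, Real.exp (-(b * (A.card : ℝ))) *
          Real.exp (-(2 * κ * ((cut u o A).card : ℝ))) ≤
        Real.exp (q + S.card * κ / 2) * Real.exp (-(κ * (F.card : ℝ))) := by
      intro F hF
      rw [Finset.mem_powerset] at hF
      have h4 : ∑ A ∈ 𝒜 with cut u o A = F, Real.exp (-(b * (A.card : ℝ))) *
          Real.exp (-(2 * κ * ((cut u o A).card : ℝ))) =
          (∑ A ∈ 𝒜 with cut u o A = F, Real.exp (-(b * (A.card : ℝ)))) *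
            Real.exp (-(2 * κ * (F.card : ℝ))) := by
        rw [Finset.sum_mul]
        refine Finset.sum_congr rfl fun A hA => ?_
        rw [(Finset.mem_filter.1 hA).2]
      have h5 := decomp (O := O) (Q := Q) (u := u) (o := o) hb S hF
      have h6 : ∑ A ∈ 𝒜 with cut u o A = F, Real.exp (-(b * (A.card : ℝ))) ≤
          Real.exp (q + ((S.card : ℝ) + 2 * F.card) * κ / 2) := by
        refine le_trans (le_of_eq ?_) (h5.trans (hprod o ho F hF))
        refine Finset.sum_congr ?_ fun _ _ => rfl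
        ext A
        simp only [h𝒜, Finset.mem_filter]
        tauto
      rw [h4]
      calc (∑ A ∈ 𝒜 with cut u o A = F, Real.exp (-(b * (A.card : ℝ)))) *
            Real.exp (-(2 * κ * (F.card : ℝ)))
          ≤ Real.exp (q + ((S.card : ℝ) + 2 * F.card) * κ / 2) *
            Real.exp (-(2 * κ * (F.card : ℝ))) :=
            mul_le_mul_of_nonneg_right h6 (Real.exp_pos _).le
        _ = Real.exp (q + S.card * κ / 2) * Real.exp (-(κ * (F.card : ℝ))) := by
            rw [← Real.exp_add, ← Real.exp_add]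
            congr 1; ring
    refine (Finset.sum_le_sum h3).trans ?_
    rw [← Finset.mul_sum]
    refine mul_le_mul_of_nonneg_left ?_ (Real.exp_pos _).le
    refine (mesh_sum_powerset _ κ).trans ?_
    apply Real.exp_le_exp.2
    refine mul_le_mul_of_nonneg_right ?_ (Real.exp_pos _).le
    exact_mod_cast Finset.card_le_card (Finset.filter_subset _ _)
  calc ∑ A ∈ 𝒜, Real.exp (-((b + 4 * κ / u) * (A.card : ℝ)))
      ≤ ∑ A ∈ 𝒜, ∑ o ∈ Off, Real.exp (-(b * (A.card : ℝ))) *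
          Real.exp (-(2 * κ * ((cut u o A).card : ℝ))) := Finset.sum_le_sum h1
    _ = ∑ o ∈ Off, ∑ A ∈ 𝒜, Real.exp (-(b * (A.card : ℝ))) *
          Real.exp (-(2 * κ * ((cut u o A).card : ℝ))) := Finset.sum_comm
    _ ≤ ∑ o ∈ Off, Real.exp (q + S.card * κ / 2) * Real.exp ((eF Q).card * Real.exp (-κ)) :=
        Finset.sum_le_sum h2
    _ = (Off.card : ℝ) * (Real.exp (q + S.card * κ / 2) *
          Real.exp ((eF Q).card * Real.exp (-κ))) := by
        rw [Finset.sum_const, nsmul_eq_mul]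
    _ ≤ (u : ℝ) ^ 2 * (Real.exp (q + S.card * κ / 2) *
          Real.exp ((eF Q).card * Real.exp (-κ))) := by
        refine mul_le_mul_of_nonneg_right ?_ (by positivity)
        have h7 := Finset.card_le_card hOff
        have h8 : (offs u).card = u * u := by
          simp [offs]
        rw [h8] at h7
        have h9 : (Off.card : ℝ) ≤ (u : ℝ) * u := by exact_mod_cast h7
        nlinarith
    _ = _ := by ring

end Pool.Agent.SAWP
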