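import Pool.Agent.SAWP.U.MeshLemma

/-!
# SAWP, case U: deterministic recursion (module U7; paper 3.5, first part)

If at least half of the offsets satisfy `SS O Q u o b κ ≤ q` then
`Mf O Q (b+4κ/u) κ' ≤ max 0 (q - g)`, `g = κ' - κ - 1 - 2 log u`.

Proof. `Mf_le` with `t = max 0 (q-g)`. `S = ∅`: `WW = 1`, `log 1 - 0 = 0 ≤ t`.  `|S| = 1`: `WW = 0` (`WW_single`), excluded.  `|S| ≥ 2`:
apply `mesh_lemma` with `Off = {o ∈ offs u : SS ≤ q}`; the hypothesis `hprod` holds since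
`WW O (eF cell) b (Sc …) ≤ exp (Mf O cell b κ + |Sc| κ/2)` (`WW_le_Mf`, `Sc_bd`, `bd_cell`), product over the cells, `sum_Sc`.
`|eF Q| ≤ 2 (16u)² ≤ e^κ`.  So `log WW ≤ 2 log u + q + |S|κ/2 + 1` and
`log WW - |S|/2 κ' ≤ 2 log u + q + 1 - (|S|/2)(κ'-κ) ≤ q - g`.
-/

set_option autoImplicit false

namespace Pool.Agent.SAWP

/-- A rectangle with at most `v` vertices in each direction has at most `v²` vertices. -/
lemma recdet_card_rect {v : ℕ} {Q : Finset V} (hQ : IsRect v Q) : Q.card ≤ v ^ 2 := by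
  obtain ⟨a, b, c, d, rfl, h1, h2⟩ := hQ
  unfold rect
  rw [Finset.card_product, Int.card_Icc, Int.card_Icc, pow_two]
  apply Nat.mul_le_mul <;> omega

/-- The product hypothesis of the mesh lemma. -/
lemma recdet_prod {O : Set Edge} {Q : Finset V} {u : ℕ} {o : V} {b κ q : ℝ} (hκ : 0 < κ)
    {S : Finset V} (hS : S ⊆ bd Q) (hq : SS O Q u o b κ ≤ q) {F : Finset Edge}
    (hF : F ⊆ cut u o (eF Q)) :
    ∏ z ∈ zs Q u o, WW O (eF (cell Q u o z)) b (Sc S F (cell Q u o z)) ≤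
        Real.exp (q + ((S.card : ℝ) + 2 * F.card) * κ / 2) := by
  have h1 : ∀ z ∈ zs Q u o, WW O (eF (cell Q u o z)) b (Sc S F (cell Q u o z)) ≤
      Real.exp (Mf O (cell Q u o z) b κ + (Sc S F (cell Q u o z)).card / 2 * κ) := by
    intro z _
    exact WW_le_Mf (Sc_bd hF fun x hx hz => bd_cell (hS hx) hz)
  refine (Finset.prod_le_prod (fun z _ => WW_nonneg O _ b _) h1).trans ?_
  rw [← Real.exp_sum]
  apply Real.exp_le_exp.2
  rw [Finset.sum_add_distrib]
  have h2 : ∑ z ∈ zs Q u o, ((Sc S F (cell Q u o z)).card : ℝ) / 2 * κ ≤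
      ((S.card : ℝ) + 2 * F.card) * κ / 2 := by
    have h3 : ∑ z ∈ zs Q u o, ((Sc S F (cell Q u o z)).card : ℝ) / 2 * κ =
        (∑ z ∈ zs Q u o, ((Sc S F (cell Q u o z)).card : ℝ)) * (κ / 2) := by
      rw [Finset.sum_mul]
      exact Finset.sum_congr rfl fun z _ => by ring
    have h4 : (∑ z ∈ zs Q u o, ((Sc S F (cell Q u o z)).card : ℝ)) ≤
        (S.card : ℝ) + 2 * F.card := by
      exact_mod_cast sum_Sc (u := u) (Q := Q) (o := o) S F
    rw [h3]
    calc (∑ z ∈ zs Q u o, ((Sc S F (cell Q u o z)).card : ℝ)) * (κ / 2)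
        ≤ ((S.card : ℝ) + 2 * F.card) * (κ / 2) :=
          mul_le_mul_of_nonneg_right h4 (by positivity)
      _ = ((S.card : ℝ) + 2 * F.card) * κ / 2 := by ring
  have h5 : ∑ z ∈ zs Q u o, Mf O (cell Q u o z) b κ ≤ q := hq
  linarith

open Classical in
theorem rec_det {O : Set Edge} {u : ℕ} (hu : 1 ≤ u) {Q : Finset V} (hQ : IsRect (16 * u) Q)
    {b κ κ' : ℝ} (hb : 0 ≤ b) (hκ : 0 < κ) (hκ' : κ ≤ κ')
    (hE : 2 * (16 * (u : ℝ)) ^ 2 ≤ Real.exp κ) {q : ℝ}
    (hq : (u : ℝ) ^ 2 ≤ 2 * (((offs u).filter (fun o => SS O Q u o b κ ≤ q)).card : ℝ)) :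
    Mf O Q (b + 4 * κ / u) κ' ≤ max 0 (q - (κ' - κ - 1 - 2 * Real.log u)) := by
  have hu0 : (0 : ℝ) < u := by exact_mod_cast hu
  refine Mf_le (hκ.le.trans hκ') (le_max_left _ _) ?_
  intro S hS hne
  rcases Nat.lt_or_ge S.card 2 with hc | hc
  · rcases Nat.eq_zero_or_pos S.card with h0 | h0
    · rw [Finset.card_eq_zero] at h0
      subst h0
      rw [WW_empty]
      simp
    · exact absurd (WW_single (O := O) (Q := Q) (b := b + 4 * κ / u) (S := S) (by omega)) hne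
  · refine le_trans ?_ (le_max_right _ _)
    have hmesh := mesh_lemma (O := O) (Q := Q) (q := q) hu hb hκ S
      (Off := (offs u).filter (fun o => SS O Q u o b κ ≤ q)) (Finset.filter_subset _ _) hq
      (fun o ho F hF => recdet_prod hκ hS (Finset.mem_filter.1 ho).2 hF)
    have hpos : 0 < WW O (eF Q) (b + 4 * κ / u) S :=
      lt_of_le_of_ne (WW_nonneg _ _ _ _) (Ne.symm hne)
    have hlog := Real.log_le_log hpos hmesh
    rw [Real.log_mul (by positivity) (by positivity), Real.log_mul (by positivity) (by positivity),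
      Real.log_exp, Real.log_exp, Real.log_pow] at hlog
    have hcardE : ((eF Q).card : ℝ) ≤ Real.exp κ := by
      refine le_trans ?_ hE
      have h1 : (eF Q).card ≤ 2 * (16 * u) ^ 2 :=
        (eF_card_le Q).trans (Nat.mul_le_mul_left 2 (recdet_card_rect hQ))
      exact_mod_cast h1
    have hone : ((eF Q).card : ℝ) * Real.exp (-κ) ≤ 1 := by
      calc ((eF Q).card : ℝ) * Real.exp (-κ) ≤ Real.exp κ * Real.exp (-κ) :=
            mul_le_mul_of_nonneg_right hcardE (Real.exp_pos _).le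
        _ = 1 := by rw [← Real.exp_add]; simp
    have hc2 : (2 : ℝ) ≤ (S.card : ℝ) := by exact_mod_cast hc
    have h6 : (κ' - κ) ≤ (S.card : ℝ) / 2 * (κ' - κ) := by
      have h7 : (1 : ℝ) ≤ (S.card : ℝ) / 2 := by linarith
      nlinarith [sub_nonneg.2 hκ']
    push_cast at hlog
    nlinarith

end Pool.Agent.SAWP
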