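import Pool.Agent.SAWP.U.RecDet

/-!
# SAWP, case U: probabilistic recursion (module U8; paper 3.5, (3.5a))

Proof. By `rec_det` (with `q = s+g`) the event `{s < Mf (Op ω) Q b' κ'}` is contained in
`{ #{o ∈ offs u : SS > s+g} > u²/2 }`; Markov (`#{..} = ∑_o 1[SS > s+g]`; sum of probabilities):
its probability is `≤ (2/u²) ∑_o P(SS (Op ω) Q u o b κ > s+g)`.  For fixed `o` put `t = s+g > 0`; if `SS > t`
then either some cell has `Mf > t`, or (if two cells have `Mf > 0`) the largest value is `> t/289` and another cell has `Mf > 0`: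
`P(SS > t) ≤ ∑_z P(Mf_z > t) + ∑_{z ≠ z'} P(Mf_z > t/289, Mf_{z'} > 0) ≤ 289 π(t) + 289² π(t/289) x`
(the edge sets of different cells are disjoint: `PR_indep`, `dep_Mf`; `cell_rect`, `zs_card`).
-/

set_option autoImplicit false

open MeasureTheory

namespace Pool.Agent.SAWP

namespace RecProb

lemma Mf_congr {Q : Finset V} {b κ : ℝ} {ω ω' : Cfg} (h : ∀ e ∈ (↑(eF Q) : Set Edge), ω e = ω' e) :
    Mf (Op ω) Q b κ = Mf (Op ω') Q b κ := by
  apply le_antisymm
  · by_contra hc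
    have h1 := (dep_Mf Q b κ (Mf (Op ω') Q b κ) ω ω' h).1 (not_le.1 hc)
    exact lt_irrefl _ (show Mf (Op ω') Q b κ < Mf (Op ω') Q b κ from h1)
  · by_contra hc
    have h1 := (dep_Mf Q b κ (Mf (Op ω) Q b κ) ω ω' h).2 (not_le.1 hc)
    exact lt_irrefl _ (show Mf (Op ω) Q b κ < Mf (Op ω) Q b κ from h1)

lemma cell_subset (Q : Finset V) (u : ℕ) (o z : V) : cell Q u o z ⊆ Q := Finset.filter_subset _ _

lemma eF_mono {R R' : Finset V} (h : R ⊆ R') : eF R ⊆ eF R' := by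
  intro e he
  rw [mem_eF] at he ⊢
  exact ⟨h he.1, h he.2⟩

lemma dep_SS (Q : Finset V) (u : ℕ) (o : V) (b κ t : ℝ) :
    Dep (↑(eF Q) : Set Edge) {ω | t < SS (Op ω) Q u o b κ} := by
  intro ω ω' h
  have : SS (Op ω) Q u o b κ = SS (Op ω') Q u o b κ := by
    unfold SS
    refine Finset.sum_congr rfl fun z _ => Mf_congr fun e he => h e ?_
    exact eF_mono (cell_subset Q u o z) he
  simp only [Set.mem_ofPred_eq, this]

lemma disj_cells (Q : Finset V) (u : ℕ) (o : V) {z z' : V} (h : z ≠ z') :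
    Disjoint (↑(eF (cell Q u o z)) : Set Edge) ↑(eF (cell Q u o z')) := by
  rw [Set.disjoint_left]
  intro e he he'
  have h1 := (Finset.mem_filter.1 (mem_eF.1 (Finset.mem_coe.1 he)).1).2
  have h2 := (Finset.mem_filter.1 (mem_eF.1 (Finset.mem_coe.1 he')).1).2
  exact h (h1.symm.trans h2)

lemma offs_card (u : ℕ) : (offs u).card = u ^ 2 := by
  unfold offs
  rw [Finset.card_product, Int.card_Ico]
  simp only [sub_zero, Int.toNat_natCast]
  ring

/-- Markov's inequality for a finite family of events. -/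
lemma markov (p : unitInterval) {ι : Type*} (s : Finset ι) (A : ι → Set Cfg) (hA : ∀ i ∈ s, FD (A i))
    {B : Set Cfg} {c : ℝ} (hc : 0 < c) (hB : ∀ ω ∈ B, c ≤ ∑ i ∈ s, (A i).indicator (fun _ => (1 : ℝ)) ω) :
    c * PR p B ≤ ∑ i ∈ s, PR p (A i) := by
  have hint : ∀ i ∈ s, Integrable ((A i).indicator (fun _ => (1 : ℝ))) (perc p) := fun i hi =>
    (integrable_const 1).indicator (hA i hi).measurableSet
  set f : Cfg → ℝ := fun ω => ∑ i ∈ s, (A i).indicator (fun _ => (1 : ℝ)) ω with hf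
  have hfi : Integrable f (perc p) := integrable_finsetSum s hint
  have hf0 : ∀ ω, 0 ≤ f ω := fun ω => Finset.sum_nonneg fun i _ =>
    Set.indicator_nonneg (fun _ _ => zero_le_one) ω
  have h1 : ∫ ω, f ω ∂(perc p) = ∑ i ∈ s, PR p (A i) := by
    rw [hf, integral_finsetSum s hint]
    refine Finset.sum_congr rfl fun i hi => ?_
    rw [integral_indicator (hA i hi).measurableSet]
    simp [PR]
  rw [← h1]
  have h2 := mul_meas_ge_le_integral_of_nonneg (μ := perc p) (Filter.Eventually.of_forall hf0) hfi c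
  refine le_trans ?_ h2
  refine mul_le_mul_of_nonneg_left ?_ hc.le
  exact measureReal_mono fun ω hω => hB ω hω

lemma split_sum {ι : Type*} [DecidableEq ι] {s : Finset ι} {f : ι → ℝ} (hf : ∀ i ∈ s, 0 ≤ f i)
    {t : ℝ} (ht : 0 < t) (hcard : s.card ≤ 289) (h : t < ∑ i ∈ s, f i) :
    (∃ i ∈ s, t < f i) ∨ ∃ i ∈ s, ∃ j ∈ s, i ≠ j ∧ t / 289 < f i ∧ 0 < f j := by
  have hne : s.Nonempty := by
    rw [Finset.nonempty_iff_ne_empty]
    rintro rfl
    rw [Finset.sum_empty] at h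
    linarith
  obtain ⟨i, hi, hmax⟩ := Finset.exists_max_image s f hne
  by_cases hj : ∃ j ∈ s, i ≠ j ∧ 0 < f j
  · obtain ⟨j, hj, hij, hfj⟩ := hj
    right
    refine ⟨i, hi, j, hj, hij, ?_, hfj⟩
    have h1 : ∑ k ∈ s, f k ≤ s.card * f i := by
      have := Finset.sum_le_card_nsmul s f (f i) hmax
      rwa [nsmul_eq_mul] at this
    have h2 : (s.card : ℝ) * f i ≤ 289 * f i := by
      refine mul_le_mul_of_nonneg_right ?_ (hf i hi)
      exact_mod_cast hcard
    rw [div_lt_iff₀ (by norm_num)]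
    linarith
  · push Not at hj
    left
    refine ⟨i, hi, ?_⟩
    have h1 : ∑ k ∈ s, f k = f i := by
      refine Finset.sum_eq_single_of_mem i hi fun j hjs hji => ?_
      exact le_antisymm (hj j hjs (Ne.symm hji)) (hf j hjs)
    rwa [h1] at h

lemma one_offset (p : unitInterval) {u : ℕ} (hu : 1 ≤ u) {b κ : ℝ} {π : ℝ → ℝ} {x : ℝ}
    (hπ : ∀ Q, IsRect u Q → ∀ t, 0 < t → PR p {ω | t < Mf (Op ω) Q b κ} ≤ π t)
    (hx : ∀ Q, IsRect u Q → PR p {ω | 0 < Mf (Op ω) Q b κ} ≤ x)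
    {Q : Finset V} (hQ : IsRect (16 * u) Q) (o : V) {t : ℝ} (ht : 0 < t) :
    PR p {ω | t < SS (Op ω) Q u o b κ} ≤ 289 * π t + 289 ^ 2 * x * π (t / 289) := by
  classical
  have hemp : IsRect u (rect 0 (-1) 0 (-1)) := ⟨0, -1, 0, -1, rfl, by omega, by omega⟩
  have hx0 : 0 ≤ x := (PR_nonneg p _).trans (hx _ hemp)
  have hπ0 : ∀ t, 0 < t → 0 ≤ π t := fun t ht => (PR_nonneg p _).trans (hπ _ hemp t ht)
  have ht' : 0 < t / 289 := by positivity
  set Z := zs Q u o with hZ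
  have hZc : Z.card ≤ 289 := zs_card hu hQ o
  have hZr : (Z.card : ℝ) ≤ 289 := by exact_mod_cast hZc
  have hcr : ∀ z, IsRect u (cell Q u o z) := fun z => cell_rect hu hQ o z
  have hsub : {ω | t < SS (Op ω) Q u o b κ} ⊆
      (⋃ z ∈ Z, {ω | t < Mf (Op ω) (cell Q u o z) b κ}) ∪
      ⋃ w ∈ (Z ×ˢ Z).filter (fun w => w.1 ≠ w.2),
        ({ω | t / 289 < Mf (Op ω) (cell Q u o w.1) b κ} ∩
          {ω | 0 < Mf (Op ω) (cell Q u o w.2) b κ}) := by
    intro ω hω
    have h1 := split_sum (s := Z) (f := fun z => Mf (Op ω) (cell Q u o z) b κ)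
      (fun z _ => Mf_nonneg _ _ _ _) ht hZc hω
    rcases h1 with ⟨z, hz, h⟩ | ⟨z, hz, z', hz', hne, h, h'⟩
    · left
      simp only [Set.mem_iUnion]
      exact ⟨z, hz, h⟩
    · right
      simp only [Set.mem_iUnion]
      exact ⟨(z, z'), Finset.mem_filter.2 ⟨Finset.mem_product.2 ⟨hz, hz'⟩, hne⟩, h, h'⟩
  refine (PR_mono p hsub).trans ((PR_union_le p _ _).trans (add_le_add ?_ ?_))
  · refine (PR_biUnion_le p Z _).trans ?_
    calc ∑ z ∈ Z, PR p {ω | t < Mf (Op ω) (cell Q u o z) b κ}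
        ≤ ∑ _z ∈ Z, π t := Finset.sum_le_sum fun z _ => hπ _ (hcr z) t ht
      _ = Z.card * π t := by rw [Finset.sum_const, nsmul_eq_mul]
      _ ≤ 289 * π t := mul_le_mul_of_nonneg_right hZr (hπ0 t ht)
  · refine (PR_biUnion_le p _ _).trans ?_
    calc ∑ w ∈ (Z ×ˢ Z).filter (fun w => w.1 ≠ w.2),
          PR p ({ω | t / 289 < Mf (Op ω) (cell Q u o w.1) b κ} ∩
          {ω | 0 < Mf (Op ω) (cell Q u o w.2) b κ})
        ≤ ∑ _w ∈ (Z ×ˢ Z).filter (fun w => w.1 ≠ w.2), π (t / 289) * x := by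
          refine Finset.sum_le_sum fun w hw => ?_
          rw [PR_indep p (dep_Mf _ b κ _) (dep_Mf _ b κ _)
            (disj_cells Q u o (Finset.mem_filter.1 hw).2) ⟨_, dep_Mf _ b κ _⟩
            ⟨_, dep_Mf _ b κ _⟩]
          exact mul_le_mul (hπ _ (hcr _) _ ht') (hx _ (hcr _)) (PR_nonneg p _)
            (hπ0 _ ht')
      _ = ((Z ×ˢ Z).filter (fun w => w.1 ≠ w.2)).card * (π (t / 289) * x) := by
          rw [Finset.sum_const, nsmul_eq_mul]
      _ ≤ 289 ^ 2 * (π (t / 289) * x) := by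
          refine mul_le_mul_of_nonneg_right ?_ (mul_nonneg (hπ0 _ ht') hx0)
          have h1 : ((Z ×ˢ Z).filter (fun w => w.1 ≠ w.2)).card ≤ Z.card * Z.card := by
            rw [← Finset.card_product]; exact Finset.card_filter_le _ _
          have h2 : Z.card * Z.card ≤ 289 ^ 2 := by nlinarith
          exact_mod_cast h1.trans h2
      _ = 289 ^ 2 * x * π (t / 289) := by ring

end RecProb

open RecProb in
theorem rec_prob (p : unitInterval) {u : ℕ} (hu : 1 ≤ u) {b κ κ' : ℝ} (hb : 0 ≤ b) (hκ : 0 < κ)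
    (hκ' : κ ≤ κ') (hE : 2 * (16 * (u : ℝ)) ^ 2 ≤ Real.exp κ) {π : ℝ → ℝ} {x g : ℝ}
    (hg : g = κ' - κ - 1 - 2 * Real.log u)
    (hπ : ∀ Q, IsRect u Q → ∀ t, 0 < t → PR p {ω | t < Mf (Op ω) Q b κ} ≤ π t)
    (hx : ∀ Q, IsRect u Q → PR p {ω | 0 < Mf (Op ω) Q b κ} ≤ x)
    {Q : Finset V} (hQ : IsRect (16 * u) Q) {s : ℝ} (hs : 0 ≤ s) (hsg : 0 < s + g) :
    PR p {ω | s < Mf (Op ω) Q (b + 4 * κ / u) κ'} ≤
      2 * 289 * π (s + g) + 2 * 289 ^ 2 * x * π ((s + g) / 289) := by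
  classical
  have hu' : (0 : ℝ) < u := by exact_mod_cast hu
  set t := s + g with ht
  set A : V → Set Cfg := fun o => {ω | t < SS (Op ω) Q u o b κ} with hA
  have hFD : ∀ o ∈ offs u, FD (A o) := fun o _ => ⟨eF Q, dep_SS Q u o b κ t⟩
  have hmk : (u : ℝ) ^ 2 / 2 * PR p {ω | s < Mf (Op ω) Q (b + 4 * κ / u) κ'}
      ≤ ∑ o ∈ offs u, PR p (A o) := by
    refine markov p (offs u) A hFD (by positivity) fun ω hω => ?_
    by_contra hcon
    push Not at hcon
    have hsum : ∑ o ∈ offs u, (A o).indicator (fun _ => (1 : ℝ)) ω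
        = (((offs u).filter (fun o => ¬ SS (Op ω) Q u o b κ ≤ t)).card : ℝ) := by
      rw [Finset.card_filter]
      push_cast
      refine Finset.sum_congr rfl fun o _ => ?_
      by_cases h : SS (Op ω) Q u o b κ ≤ t
      · rw [Set.indicator_of_notMem (by simpa [hA] using h), if_neg (not_not.2 h)]
      · rw [Set.indicator_of_mem (by simpa [hA] using h), if_pos h]
    have hcard : (((offs u).filter (fun o => SS (Op ω) Q u o b κ ≤ t)).card : ℝ)
        + (((offs u).filter (fun o => ¬ SS (Op ω) Q u o b κ ≤ t)).card : ℝ) = (u : ℝ) ^ 2 := by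
      have h1 := Finset.card_filter_add_card_filter_not (s := offs u)
        (fun o => SS (Op ω) Q u o b κ ≤ t)
      rw [offs_card] at h1
      exact_mod_cast h1
    rw [hsum] at hcon
    have hq : (u : ℝ) ^ 2 ≤ 2 * (((offs u).filter (fun o => SS (Op ω) Q u o b κ ≤ t)).card : ℝ) := by
      linarith
    have h2 := rec_det (O := Op ω) hu hQ hb hκ hκ' hE hq
    rw [← hg, ht, add_sub_cancel_right, max_eq_right hs] at h2
    exact absurd hω (not_lt.2 h2)
  have hsum2 : ∑ o ∈ offs u, PR p (A o) ≤ (u : ℝ) ^ 2 *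
      (289 * π t + 289 ^ 2 * x * π (t / 289)) := by
    calc ∑ o ∈ offs u, PR p (A o)
        ≤ ∑ _o ∈ offs u, (289 * π t + 289 ^ 2 * x * π (t / 289)) :=
          Finset.sum_le_sum fun o _ => one_offset p hu hπ hx hQ o hsg
      _ = _ := by
          rw [Finset.sum_const, offs_card, nsmul_eq_mul]; push_cast; ring
  have h3 := hmk.trans hsum2
  have h4 : (u : ℝ) ^ 2 * (PR p {ω | s < Mf (Op ω) Q (b + 4 * κ / u) κ'} / 2)
      ≤ (u : ℝ) ^ 2 * (289 * π t + 289 ^ 2 * x * π (t / 289)) := by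
    refine le_trans (le_of_eq ?_) h3
    ring
  have h5 := le_of_mul_le_mul_left h4 (by positivity)
  linarith

end Pool.Agent.SAWP
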