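import Pool.Agent.SAWP.U.Arcs
import Pool.Agent.SAWP.U.Func

/-!
# SAWP, case U: typical rectangles, deterministic part (module U9; paper 3.2)

Parameters `b ≥ 0`, `β > 0`, `A₀ ≥ 1`, `A₀ ≤ β/256 · 16^{i₂}`, `w_k = 16^{k-i₂}`.
There is `J` such that: if `J ≤ m ≤ j`, `Q` has size `≤ 16^j`, and the squares `Rk k x` are K-good at width `16^{k-i₂}` for all
`x ∈ bd Q` and `m ≤ k ≤ j`, `bj ≥ b+β`, `κ ≥ (β/64) 16^m`, `κ ≥ 4^j`, then `Mf (Op ω) Q bj κ = 0`.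

Proof. By `WW_le_of_arcs` with `K = κ` (and `log WW ≤ κ|S|/2`) it suffices that for `x ≠ y` in `bd Q`:
`|bd Q| gs (Op ω) Q bj ⊤ x y ≤ e^κ`.  Classify the paths `l` in `Q` from `x` to `y` by the least `k`, `m ≤ k ≤ j`, with `dlt (16^k) l`:
(m) `dlt (16^m) l`: `l ⊆ Rk m x`, `arc_bound`: `≤ 16·16^{2m}·4 e^{2A₀ w_m}`, and `2A₀ w_m ≤ (β/128) 16^m`;
(k) `dlt (16^k) l`, not `dlt (16^(k-1)) l`, `m < k ≤ j`: `l ⊆ Rk k x`, `len l ≥ 16^{k-1}`: with `gs_decay` (from `b+β/2` to `b+β ≤ bj`):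
`≤ e^{-(β/2)16^{k-1}} · 64·16^{2k} e^{(β/128)16^k} = 64·16^{2k} e^{-(3β/128)16^k} ≤ 1`.
`|bd Q| ≤ 4·16^j`.  Total `≤ 4·16^j (64·16^{2m} e^{(β/128)16^m} + j) ≤ 260·16^{3j} e^{(β/128)16^m} ≤ e^{4^j/2 + (β/64)16^m/2} ≤ e^κ` for `j ≥ J`.
-/

set_option autoImplicit false

open MeasureTheory

namespace Pool.Agent.SAWP

namespace TypDet

lemma num_aux (C c : ℝ) (n : ℕ) (hc : 0 < c) :
    ∃ T : ℕ, ∀ t : ℝ, (T : ℝ) ≤ t → C * t ^ n * Real.exp (-(c * t)) ≤ 1 := by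
  have h1 := Real.tendsto_pow_mul_exp_neg_atTop_nhds_zero n
  have h2 : Filter.Tendsto (fun t : ℝ => c * t) Filter.atTop Filter.atTop :=
    Filter.tendsto_id.const_mul_atTop hc
  have h3 := (h1.comp h2).const_mul (C / c ^ n)
  rw [mul_zero] at h3
  have h4 : ∀ᶠ t : ℝ in Filter.atTop,
      C / c ^ n * ((fun x : ℝ => x ^ n * Real.exp (-x)) ∘ fun t => c * t) t < 1 :=
    h3.eventually (gt_mem_nhds one_pos)
  obtain ⟨T, hT⟩ := Filter.eventually_atTop.1 h4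
  refine ⟨⌈T⌉₊, fun t ht => ?_⟩
  have h5 := hT t ((Nat.le_ceil T).trans ht)
  have h6 : C / c ^ n * ((c * t) ^ n * Real.exp (-(c * t))) = C * t ^ n * Real.exp (-(c * t)) := by
    have : c ^ n ≠ 0 := pow_ne_zero _ hc.ne'
    rw [mul_pow]
    field_simp
  simp only [Function.comp] at h5
  rw [h6] at h5
  exact h5.le

lemma le_pow16 (n : ℕ) : (n : ℝ) ≤ (16 : ℝ) ^ n := by
  have h : n < 16 ^ n := Nat.lt_pow_self (by norm_num)
  exact_mod_cast h.le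

lemma le_pow4 (n : ℕ) : (n : ℝ) ≤ (4 : ℝ) ^ n := by
  have h : n < 4 ^ n := Nat.lt_pow_self (by norm_num)
  exact_mod_cast h.le

/-- the three numerical conditions -/
lemma numerics (β : ℝ) (i₂ : ℕ) (hβ : 0 < β) : ∃ J : ℕ, i₂ ≤ J ∧
    (∀ k, J ≤ k → 4 * ((16 : ℝ) * 16 ^ (2 * k)) * Real.exp (-(β / 4 * (16 : ℝ) ^ (k - i₂))) ≤ 1) ∧
    (∀ k, J ≤ k → 64 * (16 : ℝ) ^ (2 * k) * Real.exp (-(3 * β / 128 * (16 : ℝ) ^ k)) ≤ 1) ∧
    (∀ j, J ≤ j → 260 * (16 : ℝ) ^ (3 * j) ≤ Real.exp ((4 : ℝ) ^ j / 2)) := by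
  obtain ⟨T1, h1⟩ := num_aux (64 * 16 ^ (2 * i₂)) (β / 4) 2 (by positivity)
  obtain ⟨T2, h2⟩ := num_aux 64 (3 * β / 128) 2 (by positivity)
  obtain ⟨T3, h3⟩ := num_aux 260 (1 / 2) 6 (by norm_num)
  refine ⟨i₂ + T1 + T2 + T3, by omega, fun k hk => ?_, fun k hk => ?_, fun j hj => ?_⟩
  · have h4 := h1 ((16 : ℝ) ^ (k - i₂)) (le_trans (by exact_mod_cast (by omega : T1 ≤ k - i₂))
      (le_pow16 (k - i₂)))
    have h5 : (16 : ℝ) ^ (2 * k) = 16 ^ (2 * i₂) * ((16 : ℝ) ^ (k - i₂)) ^ 2 := by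
      rw [← pow_mul, ← pow_add]
      congr 1
      omega
    calc 4 * ((16 : ℝ) * 16 ^ (2 * k)) * Real.exp (-(β / 4 * (16 : ℝ) ^ (k - i₂)))
        = 64 * 16 ^ (2 * i₂) * ((16 : ℝ) ^ (k - i₂)) ^ 2 *
            Real.exp (-(β / 4 * (16 : ℝ) ^ (k - i₂))) := by rw [h5]; ring
      _ ≤ 1 := h4
  · have h4 := h2 ((16 : ℝ) ^ k) (le_trans (by exact_mod_cast (by omega : T2 ≤ k)) (le_pow16 k))
    rwa [← pow_mul, mul_comm k 2] at h4
  · have h4 := h3 ((4 : ℝ) ^ j) (le_trans (by exact_mod_cast (by omega : T3 ≤ j)) (le_pow4 j))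
    have h5 : ((4 : ℝ) ^ j) ^ 6 = (16 : ℝ) ^ (3 * j) := by
      rw [← pow_mul, show (16 : ℝ) = 4 ^ 2 by norm_num, ← pow_mul]
      congr 1
      ring
    rw [h5, Real.exp_neg, mul_inv_le_iff₀ (Real.exp_pos _), one_mul] at h4
    have h6 : (1 : ℝ) / 2 * 4 ^ j = 4 ^ j / 2 := by ring
    rwa [h6] at h4

lemma mem_Rk {k : ℕ} {x z : V} (h1 : |z.1 - x.1| < (16 : ℤ) ^ k) (h2 : |z.2 - x.2| < (16 : ℤ) ^ k) :
    z ∈ Rk k x := by
  rw [Rk, mem_sq]
  have key : ∀ s t : ℤ, |t - s| < (16 : ℤ) ^ k →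
      16 ^ k * (s / 16 ^ k - 1) ≤ t ∧ t < 16 ^ k * (s / 16 ^ k - 1) + 4 * 16 ^ k := by
    intro s t hst
    have hp : (0 : ℤ) < 16 ^ k := by positivity
    have e1 := Int.emod_nonneg s hp.ne'
    have e2 := Int.emod_lt_of_pos s hp
    have e3 := Int.emod_add_mul_ediv s (16 ^ k)
    rw [abs_lt] at hst
    constructor
    · linarith
    · linarith
  have a1 := key _ _ h1
  have a2 := key _ _ h2
  push_cast
  exact ⟨a1.1, a1.2, a2.1, a2.2⟩

lemma card_Rk (k : ℕ) (x : V) : ((Rk k x).card : ℝ) = 16 * 16 ^ (2 * k) := by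
  rw [Rk, sq_card]
  push_cast
  rw [mul_pow, ← pow_mul, mul_comm k 2]
  norm_num

lemma dlt_of_rect {u : ℕ} {Q : Finset V} (hQ : IsRect u Q) {l : List V} (hl : ∀ z ∈ l, z ∈ Q) :
    dlt u l := by
  obtain ⟨a, b, c, d, rfl, hb, hd⟩ := hQ
  intro z hz z' hz'
  have h1 := mem_rect.1 (hl z hz)
  have h2 := mem_rect.1 (hl z' hz')
  constructor <;> rw [abs_lt] <;> constructor <;> omega

lemma diam_le {O : Set Edge} {x y : V} {l : List V} (h : IsW O x y l) {z z' : V} (hz : z ∈ l)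
    (hz' : z' ∈ l) : nrm (z' - z) ≤ len l := by
  obtain ⟨l₁, l₂, h1, h2, h3⟩ := h.split hz
  have h4 := len_append_tail h1 h2
  rw [h3] at hz' ⊢
  rcases mem_append_tail hz' with h5 | h5
  · obtain ⟨l₃, l₄, h6, h7, h8⟩ := h1.split h5
    have h9 := len_append_tail h6 h7
    have h10 := h7.reverse.nrm_le
    rw [len_reverse] at h10
    rw [← h8] at h9
    omega
  · obtain ⟨l₃, l₄, h6, h7, h8⟩ := h2.split h5
    have h9 := len_append_tail h6 h7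
    have h10 := h6.nrm_le
    rw [← h8] at h9
    omega

lemma len_ge_of_not_dlt {O : Set Edge} {x y : V} {l : List V} (h : IsW O x y l) {w : ℕ}
    (hd : ¬ dlt w l) : w ≤ len l := by
  by_contra hc
  apply hd
  intro z hz z' hz'
  have h1 := diam_le h hz' hz
  simp only [nrm, Prod.fst_sub, Prod.snd_sub] at h1
  have h2 := le_max_left (z.1 - z'.1).natAbs (z.2 - z'.2).natAbs
  have h3 := le_max_right (z.1 - z'.1).natAbs (z.2 - z'.2).natAbs
  constructor <;> rw [abs_lt] <;> omega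

lemma gs_le_sum {O : Set Edge} {R : Finset V} {b : ℝ} {x y : V} {s : Finset ℕ}
    (P : ℕ → List V → Prop)
    (h : ∀ l, IsP O x y l → (∀ z ∈ l, z ∈ R) → ∃ k ∈ s, P k l) :
    gs O R b (fun _ => True) x y ≤ ∑ k ∈ s, gs O R b (P k) x y := by
  classical
  have h1 : ∀ k, gs O R b (P k) x y =
      ∑ l ∈ saws O R x y, if P k l then Real.exp (-(b * (len l : ℝ))) else 0 := by
    intro k
    unfold gs
    rw [Finset.sum_filter]
  have h2 : gs O R b (fun _ => True) x y = ∑ l ∈ saws O R x y, Real.exp (-(b * (len l : ℝ))) := by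
    unfold gs
    simp
  simp only [h1]
  rw [h2, Finset.sum_comm]
  refine Finset.sum_le_sum fun l hl => ?_
  rw [mem_saws] at hl
  obtain ⟨k, hk, hP⟩ := h l hl.1 hl.2
  calc Real.exp (-(b * (len l : ℝ))) = if P k l then Real.exp (-(b * (len l : ℝ))) else 0 := by
        rw [if_pos hP]
    _ ≤ _ := Finset.single_le_sum (f := fun k => if P k l then Real.exp (-(b * (len l : ℝ))) else 0)
        (fun i _ => by positivity) hk

lemma gs_anti {O : Set Edge} {R : Finset V} {b b' : ℝ} (h : b ≤ b') (Q : List V → Prop) (x y : V) :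
    gs O R b' Q x y ≤ gs O R b Q x y := by
  have h1 := gs_decay (O := O) (R := R) (b := b) (c := b' - b) (by linarith) (Q := Q) (x := x)
    (y := y) (n := 0) (fun _ _ _ _ => Nat.zero_le _)
  simpa using h1

/-- one diameter class -/
lemma class_bound {ω : Cfg} {Q : Finset V} {u : ℕ} (hQ : IsRect u Q) {b β A₀ : ℝ} {i₂ k : ℕ}
    (hβ : 0 < β) (hA : 1 ≤ A₀) (hi : A₀ ≤ β / 256 * 16 ^ i₂) (hk : i₂ ≤ k)
    (hnum : 4 * ((16 : ℝ) * 16 ^ (2 * k)) * Real.exp (-(β / 4 * (16 : ℝ) ^ (k - i₂))) ≤ 1)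
    {x y : V} (hx : x ∈ bd Q) (hy : y ∈ bd Q)
    (hgood : ¬ KBad b β A₀ (16 ^ (k - i₂)) (Rk k x) ω) :
    gs (Op ω) Q (b + β / 2) (fun l => ∀ z ∈ l, z ∈ Rk k x) x y ≤
      64 * 16 ^ (2 * k) * Real.exp (β / 128 * 16 ^ k) := by
  have h1 := arc_bound hQ (b := b) (β := β) (A₀ := A₀) (w := 16 ^ (k - i₂)) hβ (by linarith)
    (Nat.one_le_pow _ _ (by norm_num)) hgood (by
      rw [card_Rk]
      push_cast
      exact hnum) hx hy
  refine h1.trans ?_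
  rw [card_Rk, mul_pow, ← Real.exp_nat_mul]
  have h2 : (A₀ * ((16 ^ (k - i₂) : ℕ) : ℝ)) ≤ β / 256 * 16 ^ k := by
    push_cast
    have h3 : (16 : ℝ) ^ k = 16 ^ i₂ * 16 ^ (k - i₂) := by
      rw [← pow_add]; congr 1; omega
    rw [h3, ← mul_assoc]
    exact mul_le_mul_of_nonneg_right hi (by positivity)
  have h4 : Real.exp (((2 : ℕ) : ℝ) * (A₀ * ((16 ^ (k - i₂) : ℕ) : ℝ))) ≤
      Real.exp (β / 128 * 16 ^ k) := by
    apply Real.exp_le_exp.2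
    push_cast at h2 ⊢
    linarith
  calc (16 : ℝ) * 16 ^ (2 * k) * (2 ^ 2 * Real.exp (((2 : ℕ) : ℝ) * (A₀ * ((16 ^ (k - i₂) : ℕ) : ℝ))))
      = 64 * 16 ^ (2 * k) * Real.exp (((2 : ℕ) : ℝ) * (A₀ * ((16 ^ (k - i₂) : ℕ) : ℝ))) := by ring
    _ ≤ _ := mul_le_mul_of_nonneg_left h4 (by positivity)

end TypDet

open TypDet in
theorem typical_det (b β A₀ : ℝ) (i₂ : ℕ) (hb : 0 ≤ b) (hβ : 0 < β) (hA : 1 ≤ A₀)
    (hi : A₀ ≤ β / 256 * 16 ^ i₂) : ∃ J : ℕ, i₂ ≤ J ∧ ∀ m j : ℕ, J ≤ m → m ≤ j →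
      ∀ (ω : Cfg) (Q : Finset V), IsRect (16 ^ j) Q →
      (∀ k, m ≤ k → k ≤ j → ∀ x ∈ bd Q, ¬ KBad b β A₀ (16 ^ (k - i₂)) (Rk k x) ω) →
      ∀ bj κ : ℝ, b + β ≤ bj → β / 64 * 16 ^ m ≤ κ → (4 : ℝ) ^ j ≤ κ →
      Mf (Op ω) Q bj κ = 0 := by
  obtain ⟨J, hJ, hN1, hN2, hN3⟩ := numerics β i₂ hβ
  refine ⟨J, hJ, fun m j hm hmj ω Q hQ hgood bj κ hbj hκ1 hκ2 => ?_⟩
  have hκ0 : 0 ≤ κ := le_trans (by positivity) hκ2
  -- the arc estimate
  have harc : ∀ x ∈ bd Q, ∀ y ∈ bd Q, x ≠ y →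
      ((bd Q).card : ℝ) * gs (Op ω) Q bj (fun _ => True) x y ≤ Real.exp κ := by
    intro x hx y hy hxy
    have hcls : ∀ l, IsP (Op ω) x y l → (∀ z ∈ l, z ∈ Q) → ∃ k ∈ Finset.Icc m j,
        (fun k l => dlt (16 ^ k) l ∧ (m < k → ¬ dlt (16 ^ (k - 1)) l)) k l := by
      intro l hl hlQ
      classical
      have hex : ∃ k, m ≤ k ∧ dlt (16 ^ k) l := ⟨j, hmj, dlt_of_rect hQ hlQ⟩
      refine ⟨Nat.find hex, ?_, (Nat.find_spec hex).2, fun hlt hd => ?_⟩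
      · rw [Finset.mem_Icc]
        exact ⟨(Nat.find_spec hex).1, Nat.find_min' hex ⟨hmj, dlt_of_rect hQ hlQ⟩⟩
      · exact Nat.find_min hex (m := Nat.find hex - 1) (by omega) ⟨by omega, hd⟩
    have hsum := gs_le_sum (O := Op ω) (R := Q) (b := b + β) _ hcls
    have hsub : ∀ k : ℕ, ∀ l, IsP (Op ω) x y l → (∀ z ∈ l, z ∈ Q) → dlt (16 ^ k) l →
        ∀ z ∈ l, z ∈ Rk k x := by
      intro k l hl _ hd z hz
      have h1 := hd z hz x hl.1.left_mem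
      push_cast at h1
      exact mem_Rk h1.1 h1.2
    have hbase : ∀ k, m ≤ k → k ≤ j → gs (Op ω) Q (b + β / 2) (fun l => ∀ z ∈ l, z ∈ Rk k x) x y ≤
        64 * 16 ^ (2 * k) * Real.exp (β / 128 * 16 ^ k) := fun k hk1 hk2 =>
      class_bound hQ hβ hA hi (by omega) (hN1 k (by omega)) hx hy (hgood k hk1 hk2 x hx)
    have hm0 : gs (Op ω) Q (b + β) (fun l => dlt (16 ^ m) l ∧ (m < m → ¬ dlt (16 ^ (m - 1)) l)) x y ≤
        64 * 16 ^ (2 * m) * Real.exp (β / 128 * 16 ^ m) := by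
      refine le_trans (gs_anti (by linarith) _ _ _) (le_trans (gs_mono ?_) (hbase m le_rfl hmj))
      exact fun l h1 h2 h3 => ⟨h1, h2, hsub m l h1 h2 h3.1⟩
    have hk0 : ∀ k ∈ Finset.Icc m j, k ≠ m →
        gs (Op ω) Q (b + β) (fun l => dlt (16 ^ k) l ∧ (m < k → ¬ dlt (16 ^ (k - 1)) l)) x y ≤ 1 := by
      intro k hk hkm
      rw [Finset.mem_Icc] at hk
      have hmk : m < k := by omega
      have h1 := gs_decay (O := Op ω) (R := Q) (b := b + β / 2) (c := β / 2) (by linarith)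
        (Q := fun l => dlt (16 ^ k) l ∧ (m < k → ¬ dlt (16 ^ (k - 1)) l)) (x := x) (y := y)
        (n := 16 ^ (k - 1)) (fun l h1 _ h3 => len_ge_of_not_dlt h1.1 (h3.2 hmk))
      have h2 : gs (Op ω) Q (b + β / 2)
          (fun l => dlt (16 ^ k) l ∧ (m < k → ¬ dlt (16 ^ (k - 1)) l)) x y ≤
          64 * 16 ^ (2 * k) * Real.exp (β / 128 * 16 ^ k) := by
        refine le_trans (gs_mono ?_) (hbase k hk.1 hk.2)
        exact fun l h1 h2 h3 => ⟨h1, h2, hsub k l h1 h2 h3.1⟩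
      have h3 : b + β / 2 + β / 2 = b + β := by ring
      rw [h3] at h1
      refine h1.trans ((mul_le_mul_of_nonneg_left h2 (Real.exp_pos _).le).trans ?_)
      have h4 : Real.exp (-(β / 2 * ((16 ^ (k - 1) : ℕ) : ℝ))) *
          (64 * 16 ^ (2 * k) * Real.exp (β / 128 * 16 ^ k)) =
          64 * (16 : ℝ) ^ (2 * k) * Real.exp (-(3 * β / 128 * (16 : ℝ) ^ k)) := by
        have h5 : (16 : ℝ) ^ k = 16 * 16 ^ (k - 1) := by
          rw [← pow_succ']; congr 1; omega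
        rw [mul_comm, mul_assoc, ← Real.exp_add]
        congr 2
        push_cast
        rw [h5]
        ring
      rw [h4]
      exact hN2 k (by omega)
    have htot : gs (Op ω) Q bj (fun _ => True) x y ≤
        64 * 16 ^ (2 * m) * Real.exp (β / 128 * 16 ^ m) + j := by
      refine (gs_anti hbj _ _ _).trans (hsum.trans ?_)
      rw [← Finset.add_sum_erase _ _ (Finset.left_mem_Icc.2 hmj)]
      refine add_le_add hm0 ?_
      refine (Finset.sum_le_sum (g := fun _ => (1 : ℝ)) fun k hk => ?_).trans ?_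
      · exact hk0 k (Finset.mem_of_mem_erase hk) (Finset.ne_of_mem_erase hk)
      · rw [Finset.sum_const, nsmul_eq_mul, mul_one, Finset.card_erase_of_mem
          (Finset.left_mem_Icc.2 hmj), Nat.card_Icc]
        exact_mod_cast (by omega : j + 1 - m - 1 ≤ j)
    have hcard : ((bd Q).card : ℝ) ≤ 4 * 16 ^ j := by
      have := bd_card_le hQ
      exact_mod_cast this
    have hE1 : (1 : ℝ) ≤ Real.exp (β / 128 * 16 ^ m) := Real.one_le_exp (by positivity)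
    have h16 : (16 : ℝ) ^ (2 * m) ≤ 16 ^ (2 * j) := pow_le_pow_right₀ (by norm_num) (by omega)
    have hj16 : (j : ℝ) ≤ 16 ^ (2 * j) := (le_pow16 j).trans
      (pow_le_pow_right₀ (by norm_num) (by omega))
    have hgs0 := gs_nonneg (Op ω) Q bj (fun _ => True) x y
    calc ((bd Q).card : ℝ) * gs (Op ω) Q bj (fun _ => True) x y
        ≤ 4 * 16 ^ j * (64 * 16 ^ (2 * m) * Real.exp (β / 128 * 16 ^ m) + j) :=
          mul_le_mul hcard htot hgs0 (by positivity)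
      _ ≤ 4 * 16 ^ j * (65 * 16 ^ (2 * j) * Real.exp (β / 128 * 16 ^ m)) := by
          refine mul_le_mul_of_nonneg_left ?_ (by positivity)
          have e1 : 64 * (16 : ℝ) ^ (2 * m) * Real.exp (β / 128 * 16 ^ m) ≤
              64 * 16 ^ (2 * j) * Real.exp (β / 128 * 16 ^ m) := by gcongr
          have e2 : (j : ℝ) ≤ 16 ^ (2 * j) * Real.exp (β / 128 * 16 ^ m) := by
            calc (j : ℝ) ≤ 16 ^ (2 * j) * 1 := by rw [mul_one]; exact hj16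
              _ ≤ _ := by gcongr
          linarith
      _ = 260 * 16 ^ (3 * j) * Real.exp (β / 128 * 16 ^ m) := by
          rw [show 3 * j = j + 2 * j by ring, pow_add]; ring
      _ ≤ Real.exp ((4 : ℝ) ^ j / 2) * Real.exp (β / 128 * 16 ^ m) :=
          mul_le_mul_of_nonneg_right (hN3 j (by omega)) (Real.exp_pos _).le
      _ = Real.exp ((4 : ℝ) ^ j / 2 + β / 128 * 16 ^ m) := by rw [Real.exp_add]
      _ ≤ Real.exp κ := by
          apply Real.exp_le_exp.2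
          have : β / 128 * (16 : ℝ) ^ m = β / 64 * 16 ^ m / 2 := by ring
          rw [this]
          linarith
  refine le_antisymm (Mf_le hκ0 le_rfl fun S hS hne => ?_) (Mf_nonneg _ _ _ _)
  have h1 := WW_le_of_arcs (O := Op ω) (Q := Q) (b := bj) hκ0 harc hS
  have h2 : 0 < WW (Op ω) (eF Q) bj S := lt_of_le_of_ne (WW_nonneg _ _ _ _) (Ne.symm hne)
  have h3 := (Real.log_le_iff_le_exp h2).2 h1
  have h4 : κ * (S.card : ℝ) / 2 = (S.card : ℝ) / 2 * κ := by ring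
  linarith

end Pool.Agent.SAWP
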