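import Pool.Agent.SAWP.Meas

/-!
# SAWP, case U: definitions (linear forests, the functional `M`, meshes)
-/

set_option autoImplicit false

open MeasureTheory

namespace Pool.Agent.SAWP

open Classical in
/-- Inner vertex boundary. -/
noncomputable def bd (Q : Finset V) : Finset V := Q.filter (fun x => ∃ y, Adj x y ∧ y ∉ Q)

/-- `Q` is a rectangle with at most `u` vertices in each direction (possibly empty). -/
def IsRect (u : ℕ) (Q : Finset V) : Prop :=
  ∃ a b c d : ℤ, Q = rect a b c d ∧ b < a + u ∧ d < c + u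

/-- Degree of a vertex in a finite edge set. -/
def deg (A : Finset Edge) (x : V) : ℕ := (A.filter (fun e => src e = x ∨ tgt e = x)).card

/-- Linear forests: all degrees at most two, and no cycle (every nonempty subset has a vertex of
degree one). -/
def IsLF (A : Finset Edge) : Prop :=
  (∀ x, deg A x ≤ 2) ∧ ∀ B ⊆ A, B.Nonempty → ∃ x, deg B x = 1

/-- Endpoints of the edges of `A`. -/
def verts (A : Finset Edge) : Finset V := A.image src ∪ A.image tgt

/-- The vertices of degree one. -/
def lvs (A : Finset Edge) : Finset V := (verts A).filter (fun x => deg A x = 1)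

open Classical in
/-- `W`: weighted sum over the linear forests `A ⊆ E ∩ O` with leaf set `S`. -/
noncomputable def WW (O : Set Edge) (E : Finset Edge) (b : ℝ) (S : Finset V) : ℝ :=
  ∑ A ∈ E.powerset.filter (fun A : Finset Edge => (↑A : Set Edge) ⊆ O ∧ IsLF A ∧ lvs A = S),
    Real.exp (-(b * (A.card : ℝ)))

/-- The functional `M_Q` with slope `κ` (paper: `κ = ε̂_j u_j`). -/
noncomputable def Mf (O : Set Edge) (Q : Finset V) (b κ : ℝ) : ℝ :=
  (bd Q).powerset.sup' ⟨∅, Finset.empty_mem_powerset _⟩
    (fun S => max 0 (Real.log (WW O (eF Q) b S) - (S.card : ℝ) / 2 * κ))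

/-- Mesh index of a vertex: side `u`, offset `o`. -/
def idx (u : ℕ) (o x : V) : V := ((x.1 - o.1) / (u : ℤ), (x.2 - o.2) / (u : ℤ))

/-- The cell of `Q` with index `z`. -/
def cell (Q : Finset V) (u : ℕ) (o z : V) : Finset V := Q.filter (fun x => idx u o x = z)

/-- The indices of the nonempty cells. -/
def zs (Q : Finset V) (u : ℕ) (o : V) : Finset V := Q.image (idx u o)

/-- The cut edges of an edge set. -/
def cut (u : ℕ) (o : V) (A : Finset Edge) : Finset Edge :=
  A.filter (fun e => idx u o (src e) ≠ idx u o (tgt e))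

/-- The offsets. -/
noncomputable def offs (u : ℕ) : Finset V := Finset.Ico (0 : ℤ) u ×ˢ Finset.Ico (0 : ℤ) u

/-- Leaf set induced in the cell `c` by the leaf set `S` and the cut set `F`. -/
def Sc (S : Finset V) (F : Finset Edge) (c : Finset V) : Finset V :=
  c.filter (fun x => (deg F x = 0 ∧ x ∈ S) ∨ (deg F x = 1 ∧ x ∉ S))

/-- Sum of the functional over the cells. -/
noncomputable def SS (O : Set Edge) (Q : Finset V) (u : ℕ) (o : V) (b κ : ℝ) : ℝ :=
  ∑ z ∈ zs Q u o, Mf O (cell Q u o z) b κ

/-- The square `R_k(x)` of side `4·16^k` containing all `y` with `|y-x| < 16^k`. -/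
noncomputable def Rk (k : ℕ) (x : V) : Finset V :=
  sq (16 ^ k * (x.1 / 16 ^ k - 1), 16 ^ k * (x.2 / 16 ^ k - 1)) (4 * 16 ^ k)

end Pool.Agent.SAWP
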